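import Pool.Agent.MP_3792c7_nt.Step

/-! Counting solutions of one and of two harmonic congruences. -/

set_option autoImplicit false

namespace Pool.Agent.MP_3792c7_nt

open Polynomial Finset

theorem sep_card (S Z : Finset ℕ) (G : ℕ) (hS : ∀ k ∈ S, ∀ k' ∈ S, k < k' → k + G ≤ k')
    (hZ : ∀ k ∈ S, ∀ u < G, k + u ∈ Z) : S.card * G ≤ Z.card := by
  have : (S ×ˢ range G).card ≤ Z.card := by
    refine card_le_card_of_injOn (fun x => x.1 + x.2) ?_ ?_
    · rintro ⟨k, u⟩ h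
      simp only [coe_product, Set.mem_prod, mem_coe, mem_range] at h
      exact hZ k h.1 u h.2
    · rintro ⟨k, u⟩ h ⟨k', u'⟩ h' e
      simp only [coe_product, Set.mem_prod, mem_coe, mem_range] at h h' e
      rcases lt_trichotomy k k' with hk | hk | hk
      · have := hS k h.1 k' h'.1 hk; omega
      · ext <;> simp <;> omega
      · have := hS k' h'.1 k h.1 hk; omega
  simpa using this

theorem iso_card (p G : ℕ) (S S' : Finset ℕ) (hS : ∀ k ∈ S, k < p)
    (h : ∀ k ∈ S', k ∈ S ∧ ∀ g ∈ Icc 1 G, k + g ∉ S) : S'.card * G ≤ p + G := by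
  have := sep_card S' (range (p + G)) G (by
    intro k hk k' hk' hlt
    by_contra hc
    have h1 := (h k hk).2 (k' - k) (mem_Icc.mpr (by omega))
    apply h1
    rw [show k + (k' - k) = k' by omega]
    exact (h k' hk').1) (by
    intro k hk u hu
    have := hS k (h k hk).1
    exact mem_range.mpr (by omega))
  simpa using this

theorem gap_card (p : ℕ) [Fact p.Prime] (g : ℕ) (hg : 1 ≤ g) :
    ((range p).filter (fun k => k + g < p ∧ h1 p (k + g) = h1 p k)).card ≤ g := by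
  classical
  by_cases hgp : p ≤ g
  · exact (card_filter_le _ _).trans (by simpa using hgp)
  have hU : UP (ZMod p) g ≠ 0 := by
    obtain ⟨n, rfl⟩ : ∃ n, g = n + 1 := ⟨g - 1, by omega⟩
    intro h
    have h1 := congrArg (eval ((p - (n + 1) : ℕ) : ZMod p)) h
    have h2 := (eval_QUV p (p - (n + 1)) n (by omega)).1
    have h3 : ((p - (n + 1) : ℕ) : ZMod p) + ((n + 1 : ℕ) : ZMod p) = 0 := by
      rw [← Nat.cast_add, Nat.sub_add_cancel (by omega)]; simp
    rw [UP, eval_add, eval_mul, eval_add, eval_X, eval_C, h3, mul_zero, zero_add, eval_zero] at h1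
    exact h2 h1
  calc _ ≤ (UP (ZMod p) g).roots.toFinset.card := by
        refine card_le_card_of_injOn (fun x => (x : ZMod p)) ?_ ?_
        · intro x hx
          simp only [coe_filter, Set.mem_ofPred_eq] at hx
          simp only [mem_coe, Multiset.mem_toFinset, mem_roots hU, IsRoot.def]
          rw [(eval_QUV p x g hx.2.1).2.1, hx.2.2]; simp
        · intro x hx y hy h
          simp only [coe_filter, Set.mem_ofPred_eq, mem_range] at hx hy
          have := (ZMod.natCast_eq_natCast_iff' x y p).mp h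
          rwa [Nat.mod_eq_of_lt hx.1, Nat.mod_eq_of_lt hy.1] at this
    _ ≤ (UP (ZMod p) g).natDegree := (Multiset.toFinset_card_le _).trans (card_roots' _)
    _ ≤ g := UP_deg _ g

theorem pair_card (p : ℕ) [Fact p.Prime] (G : ℕ) (B : Finset ℕ)
    (h : ∀ k ∈ B, ∃ g ∈ Icc 1 G, k + g < p ∧ h1 p (k + g) = h1 p k) : B.card ≤ G * G := by
  classical
  calc _ ≤ ((Icc 1 G).biUnion (fun g =>
        (range p).filter (fun k => k + g < p ∧ h1 p (k + g) = h1 p k))).card := by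
        apply card_le_card
        intro k hk
        simp only [mem_filter, mem_biUnion, mem_range]
        obtain ⟨g, hg, h2⟩ := h k hk
        exact ⟨g, hg, by omega, h2⟩
    _ ≤ ∑ g ∈ Icc 1 G, G := by
        refine card_biUnion_le.trans (sum_le_sum (fun g hg => ?_))
        have := mem_Icc.mp hg
        exact (gap_card p g this.1).trans this.2
    _ = G * G := by simp

theorem heavy_card (p : ℕ) [Fact p.Prime] (T : Finset (ZMod p)) (n : ℕ)
    (hT : ∀ r ∈ T, n ≤ ((range p).filter (fun k => h1 p k = r)).card) :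
    T.card * n ^ 3 ≤ 50 * p ^ 2 := by
  classical
  have hp := (Fact.out : p.Prime).pos
  rcases T.eq_empty_or_nonempty with rfl | ⟨r0, hr0⟩
  · simp
  have hnp : n ≤ p := (hT r0 hr0).trans ((card_filter_le _ _).trans (by simp))
  have hTp : T.card ≤ p := (card_le_univ T).trans (by simp [ZMod.card])
  by_cases hn : n < 4
  · have : n ^ 3 ≤ 3 ^ 3 := Nat.pow_le_pow_left (by omega) 3
    nlinarith
  let G := 4 * p / n + 1
  have hG1 : 4 * p < G * n := by
    have := Nat.lt_div_mul_add (a := 4 * p) (b := n) (by omega)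
    simp only [G]; nlinarith
  have hG2 : G * n ≤ 5 * p := by
    have := Nat.div_mul_le_self (4 * p) n
    simp only [G]; nlinarith
  have hG0 : 0 < G := Nat.succ_pos _
  let S : ZMod p → Finset ℕ := fun r => (range p).filter (fun k => h1 p k = r)
  have hS : ∀ r k, k ∈ S r ↔ k < p ∧ h1 p k = r := by intro r k; simp [S]
  obtain ⟨B, hBd⟩ : ∃ B : ZMod p → Finset ℕ, ∀ r k, k ∈ B r ↔
      k ∈ S r ∧ ∃ g ∈ Icc 1 G, k + g ∈ S r :=
    ⟨fun r => (S r).filter (fun k => ∃ g ∈ Icc 1 G, k + g ∈ S r), fun r k => mem_filter⟩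
  have hB : ∀ r ∈ T, n ≤ 2 * (B r).card := by
    intro r hr
    have h1 := iso_card p G (S r) (S r \ B r) (fun k hk => ((hS r k).mp hk).1) (by
      intro k hk
      obtain ⟨h1, h2⟩ := mem_sdiff.mp hk
      exact ⟨h1, fun g hg h3 => h2 ((hBd r k).mpr ⟨h1, g, hg, h3⟩)⟩)
    have h2 := card_sdiff_add_card_eq_card (s := B r) (t := S r)
      (fun k hk => ((hBd r k).mp hk).1)
    have h3 : n ≤ (S r).card := hT r hr
    generalize (S r \ B r).card = x at *
    have h4 : 4 * x < n + 4 := by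
      apply Nat.lt_of_mul_lt_mul_right (a := G)
      nlinarith
    omega
  have hsum : ∑ r ∈ T, (B r).card ≤ G * G := by
    rw [← card_biUnion]
    · apply pair_card p G
      intro k hk
      obtain ⟨r, _, h1⟩ := mem_biUnion.mp hk
      obtain ⟨h2, g, hg, h3⟩ := (hBd r k).mp h1
      rw [hS] at h2 h3
      exact ⟨g, hg, h3.1, h3.2.trans h2.2.symm⟩
    · intro r _ r' _ hne
      rw [Function.onFun, disjoint_left]
      intro k hk hk'
      have h1 := ((hS _ _).mp ((hBd _ _).mp hk).1).2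
      have h2 := ((hS _ _).mp ((hBd _ _).mp hk').1).2
      exact hne (h1.symm.trans h2)
  have h5 : T.card * n ≤ 2 * (G * G) := by
    calc T.card * n = ∑ _r ∈ T, n := by simp
      _ ≤ ∑ r ∈ T, 2 * (B r).card := sum_le_sum hB
      _ ≤ 2 * (G * G) := by rw [← mul_sum]; omega
  calc T.card * n ^ 3 = T.card * n * n ^ 2 := by ring
    _ ≤ 2 * (G * G) * n ^ 2 := Nat.mul_le_mul_right _ h5
    _ = 2 * (G * n) ^ 2 := by ring
    _ ≤ 2 * (5 * p) ^ 2 := Nat.mul_le_mul_left _ (Nat.pow_le_pow_left hG2 2)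
    _ = 50 * p ^ 2 := by ring

theorem scale_card (p : ℕ) [Fact p.Prime] (a b : ZMod p) (q : ℕ) (hq : 1 ≤ q) (S S1 : Finset ℕ)
    (hS : ∀ k ∈ S, k < p ∧ h1 p k = a ∧ h2 p k = b)
    (hS1 : ∀ k ∈ S1, k ∈ S ∧ (∀ g ∈ Icc 1 (2 * q ^ 2), k + g ∉ S) ∧
      ∃ g ∈ Icc 1 (8 * q ^ 2), k + g ∈ S) : S1.card ≤ 6670 * q ^ 3 := by
  classical
  have hq2 : 1 ≤ q ^ 2 := Nat.one_le_pow _ _ hq
  have hq3 : q ^ 2 ≤ q ^ 3 := Nat.pow_le_pow_right hq (by omega)
  have hsplit := card_filter_add_card_filter_not (s := S1) (fun k => k + 10 * q ^ 2 < p)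
  have hbad : (S1.filter (fun k => ¬ k + 10 * q ^ 2 < p)).card ≤ 10 * q ^ 2 := by
    calc _ ≤ (Ico (p - 10 * q ^ 2) p).card := by
          apply card_le_card
          intro k hk
          have h1 := mem_filter.mp hk
          have h2 := (hS k (hS1 k h1.1).1).1
          exact mem_Ico.mpr (by omega)
      _ ≤ _ := by simp; omega
  let X0 := (range p).filter (fun x => x + (3 * q) ^ 2 < p ∧ ∀ j < (3 * q) ^ 2, ∃ n,
    n ≤ x + j ∧ x + j < n + 8 * q ^ 2 ∧ h1 p n = a ∧ h2 p n = b)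
  have hX0 := step p (3 * q) (576 * q ^ 3 + 9) (8 * q ^ 2) (by omega) (by
    have : 8 * q ^ 2 * (576 * q ^ 3 + 9 + 3 * (3 * q) * (8 * q ^ 2) + 1) + q ^ 2 =
      (3 * q) ^ 2 * (576 * q ^ 3 + 9) := by ring
    omega) a b X0 (fun x hx => (mem_filter.mp hx).2)
  have e9 : (3 * q) ^ 2 = 9 * q ^ 2 := by ring
  have hgood := sep_card (S1.filter (fun k => k + 10 * q ^ 2 < p)) X0 (q ^ 2) (by
    intro k hk k' hk' hlt
    by_contra hc
    have h1 := (hS1 k (mem_filter.mp hk).1).2.1 (k' - k) (mem_Icc.mpr (by omega))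
    apply h1
    rw [show k + (k' - k) = k' by omega]
    exact (hS1 k' (mem_filter.mp hk').1).1) (by
    intro k hk u hu
    obtain ⟨h1, h2⟩ := mem_filter.mp hk
    obtain ⟨h3, h4, g, hg, h5⟩ := hS1 k h1
    have hg2 : 2 * q ^ 2 < g := by
      by_contra hc
      exact h4 g (mem_Icc.mpr ⟨(mem_Icc.mp hg).1, by omega⟩) h5
    have hg3 := (mem_Icc.mp hg).2
    refine mem_filter.mpr ⟨mem_range.mpr (by omega), by omega, fun j hj => ?_⟩
    by_cases hc : k + u + j < k + 8 * q ^ 2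
    · exact ⟨k, by omega, hc, (hS k h3).2⟩
    · exact ⟨k + g, by omega, by omega, (hS _ h5).2⟩)
  have h6 : ((3 * q) ^ 2 + 1) * (576 * q ^ 3 + 9 + 3 * (3 * q) * (3 * q) ^ 2) ≤
      6660 * q ^ 3 * q ^ 2 := by
    calc _ ≤ (10 * q ^ 2) * (666 * q ^ 3) := by
          apply Nat.mul_le_mul
          · omega
          · have : 3 * (3 * q) * (3 * q) ^ 2 = 81 * q ^ 3 := by ring
            omega
      _ = _ := by ring
  have h7 : (S1.filter (fun k => k + 10 * q ^ 2 < p)).card ≤ 6660 * q ^ 3 :=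
    Nat.le_of_mul_le_mul_right (hgood.trans (hX0.trans h6)) (by omega)
  omega

theorem two_card (p : ℕ) [Fact p.Prime] (a b : ZMod p) :
    ((range p).filter (fun k => h1 p k = a ∧ h2 p k = b)).card ^ 5 ≤ 8005 ^ 5 * p ^ 3 := by
  classical
  have hp := (Fact.out : p.Prime).pos
  set S := (range p).filter (fun k => h1 p k = a ∧ h2 p k = b) with hSdef
  have hS : ∀ k ∈ S, k < p ∧ h1 p k = a ∧ h2 p k = b := fun k hk =>
    ⟨mem_range.mp (mem_filter.mp hk).1, (mem_filter.mp hk).2⟩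
  obtain ⟨B, hBd⟩ : ∃ B : ℕ → Finset ℕ, ∀ i k, k ∈ B i ↔
      k ∈ S ∧ ∃ g ∈ Icc 1 (8 * 4 ^ i), k + g ∈ S :=
    ⟨fun i => S.filter (fun k => ∃ g ∈ Icc 1 (8 * 4 ^ i), k + g ∈ S), fun i k => by
      simp only [mem_filter]⟩
  have hA : ∀ i, (B i).card ≤ 8000 * 8 ^ i := by
    intro i
    induction i with
    | zero =>
      refine le_trans (pair_card p 8 _ ?_) (by norm_num)
      intro k hk
      obtain ⟨h1, g, hg, h2⟩ := (hBd _ _).mp hk
      exact ⟨g, by simpa using hg, (hS _ h2).1, (hS _ h2).2.1.trans (hS k h1).2.1.symm⟩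
    | succ i ih =>
      have e1 : 2 * (2 ^ (i + 1)) ^ 2 = 8 * 4 ^ i := by
        rw [← pow_mul, show 4 = 2 ^ 2 by norm_num, ← pow_mul]; ring
      have e2 : 8 * (2 ^ (i + 1)) ^ 2 = 8 * 4 ^ (i + 1) := by
        rw [← pow_mul, show 4 = 2 ^ 2 by norm_num, ← pow_mul]; ring
      have e3 : (2 ^ (i + 1)) ^ 3 = 8 * 8 ^ i := by
        rw [← pow_mul, show 8 ^ i = (2 ^ 3) ^ i by norm_num, ← pow_mul]; ring
      have h1 := scale_card p a b (2 ^ (i + 1)) (Nat.one_le_pow _ _ (by omega)) S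
        (B (i + 1) \ B i) hS (by
          intro k hk
          obtain ⟨h1, h2⟩ := mem_sdiff.mp hk
          rw [hBd] at h1 h2
          rw [e1, e2]
          exact ⟨h1.1, fun g hg h3 => h2 ⟨h1.1, g, hg, h3⟩, h1.2⟩)
      have h2 := le_card_sdiff (B i) (B (i + 1))
      rw [e3] at h1
      rw [pow_succ 8 i]; omega
  let I := Nat.log 32 p
  have hI1 : 32 ^ I ≤ p := Nat.pow_log_le_self 32 (by omega)
  have hI2 : p < 32 ^ (I + 1) := Nat.lt_pow_succ_log_self (by norm_num) p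
  have h1 := iso_card p (8 * 4 ^ I) S (S \ B I) (fun k hk => (hS k hk).1) (by
    intro k hk
    obtain ⟨h1, h2⟩ := mem_sdiff.mp hk
    exact ⟨h1, fun g hg h3 => h2 ((hBd I k).mpr ⟨h1, g, hg, h3⟩)⟩)
  have h2 := le_card_sdiff (B I) S
  have h3 := hA I
  have h8 : 1 ≤ 8 ^ I := Nat.one_le_pow _ _ (by norm_num)
  have h4 : (S \ B I).card ≤ 5 * 8 ^ I := by
    apply Nat.le_of_mul_le_mul_right (c := 8 * 4 ^ I) _ (by positivity)
    refine h1.trans ?_
    have e : 32 ^ (I + 1) = 32 * (8 ^ I * 4 ^ I) := by rw [← mul_pow]; ring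
    have : 4 ^ I ≤ 8 ^ I * 4 ^ I := Nat.le_mul_of_pos_left _ h8
    nlinarith
  have h5 : S.card ≤ 8005 * 8 ^ I := by omega
  calc S.card ^ 5 ≤ (8005 * 8 ^ I) ^ 5 := Nat.pow_le_pow_left h5 5
    _ = 8005 ^ 5 * (32 ^ I) ^ 3 := by
        rw [mul_pow, ← pow_mul, ← pow_mul, show 8 = 2 ^ 3 by norm_num,
          show 32 = 2 ^ 5 by norm_num, ← pow_mul, ← pow_mul]
        congr 2; ring
    _ ≤ _ := Nat.mul_le_mul_left _ (Nat.pow_le_pow_left hI1 3)

end Pool.Agent.MP_3792c7_nt
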