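import Mathlib

/-! Growth of a tree whose branching is governed by lines over a finite field. -/

set_option autoImplicit false

namespace Pool.Agent.MP_3792c7_nt

open Finset

variable {F : Type} [Field F] [Fintype F] [DecidableEq F]

/-- Upper bound for the number of descendants of depth `j` of a node with last digit `d` and
class `r`. -/
def MM (cls e b : F → F) : ℕ → F → F → ℕ
  | 0, _, _ => 1
  | j + 1, d, r => univ.sup (fun t : F =>
      ∑ k ∈ univ.filter (fun k => cls k = r), MM cls e b j k (t + e k * d - b k))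

/-- The children hitting the layer `R`. -/
def hit (cls e b : F → F) (R : Finset (F × F)) (d r t : F) : Finset F :=
  univ.filter (fun k => cls k = r ∧ (k, t + e k * d - b k) ∈ R)

/-- Largest number of children hitting `R`. -/
def WW (cls e b : F → F) (R : Finset (F × F)) (d r : F) : ℕ :=
  univ.sup (fun t => (hit cls e b R d r t).card)

/-- Relevant digits of class `r`. -/
def SS (cls : F → F) (R : Finset (F × F)) (r : F) : Finset F :=
  (R.image Prod.fst).filter (fun k => cls k = r)

/-- The next layer. -/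
def nxt (cls e b : F → F) (R : Finset (F × F)) (α β : ℕ) : Finset (F × F) :=
  univ.filter (fun x => 1 ≤ WW cls e b R x.1 x.2 ∧ Nat.log 2 (WW cls e b R x.1 x.2) = α ∧
    Nat.log 2 (SS cls R x.2).card = β)

theorem hit_sub (cls e b : F → F) (R : Finset (F × F)) (d r t : F) :
    hit cls e b R d r t ⊆ SS cls R r := by
  intro k hk
  simp only [hit, SS, mem_filter, mem_univ, true_and, mem_image] at hk ⊢
  exact ⟨⟨_, hk.2, rfl⟩, hk.1⟩

theorem WW_le (cls e b : F → F) (R : Finset (F × F)) (d r : F) :
    WW cls e b R d r ≤ (SS cls R r).card :=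
  Finset.sup_le (fun t _ => card_le_card (hit_sub cls e b R d r t))

theorem exists_hit (cls e b : F → F) (R : Finset (F × F)) (d r : F) :
    ∃ t, WW cls e b R d r = (hit cls e b R d r t).card := by
  obtain ⟨t, _, ht⟩ := exists_mem_eq_sup univ univ_nonempty
    (fun t => (hit cls e b R d r t).card)
  exact ⟨t, ht⟩

theorem nxt_facts (cls e b : F → F) (R : Finset (F × F)) (α β : ℕ) (x : F × F)
    (hx : x ∈ nxt cls e b R α β) : α ≤ β ∧ 2 ^ α ≤ WW cls e b R x.1 x.2 ∧
      2 ^ β ≤ (SS cls R x.2).card ∧ (SS cls R x.2).card < 2 ^ (β + 1) := by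
  obtain ⟨h1, h2, h3⟩ := (mem_filter.mp hx).2
  have h4 := WW_le cls e b R x.1 x.2
  refine ⟨?_, ?_, ?_, ?_⟩
  · rw [← h2, ← h3]; exact Nat.log_mono_right h4
  · rw [← h2]; exact Nat.pow_log_le_self 2 (by omega)
  · rw [← h3]; exact Nat.pow_log_le_self 2 (by omega)
  · rw [← h3]; exact Nat.lt_pow_succ_log_self (by norm_num) _

theorem nxt_classes (cls e b : F → F) (R : Finset (F × F)) (α β : ℕ) :
    ((nxt cls e b R α β).image Prod.snd).card * 2 ^ β ≤ (R.image Prod.fst).card := by
  calc _ = ∑ _r ∈ (nxt cls e b R α β).image Prod.snd, 2 ^ β := by simp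
    _ ≤ ∑ r ∈ (nxt cls e b R α β).image Prod.snd, (SS cls R r).card := by
        refine sum_le_sum (fun r hr => ?_)
        obtain ⟨x, hx, rfl⟩ := mem_image.mp hr
        exact (nxt_facts cls e b R α β x hx).2.2.1
    _ = (((nxt cls e b R α β).image Prod.snd).biUnion (SS cls R)).card := by
        rw [card_biUnion]
        intro r _ r' _ hne
        rw [Function.onFun, disjoint_left]
        intro k hk hk'
        exact hne ((mem_filter.mp hk).2.symm.trans (mem_filter.mp hk').2)
    _ ≤ _ := by
        apply card_le_card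
        intro k hk
        obtain ⟨r, _, h⟩ := mem_biUnion.mp hk
        exact (mem_filter.mp h).1

theorem nxt_digits (cls e b : F → F) (R : Finset (F × F)) (α β : ℕ)
    (h : ∀ r s, 2 * (univ.filter (fun k => cls k = r ∧ e k = s)).card < 2 ^ α) :
    ((nxt cls e b R α β).image Prod.fst).card * (2 ^ α) ^ 2 ≤
      8 * ((nxt cls e b R α β).image Prod.snd).card * (2 ^ β) ^ 2 *
        (R.image Prod.snd).card ^ 2 := by
  set K' := (nxt cls e b R α β).image Prod.fst with hK'
  set T' := (nxt cls e b R α β).image Prod.snd with hT'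
  set T := R.image Prod.snd with hT
  have hch : ∀ d, ∃ r t, d ∈ K' → (d, r) ∈ nxt cls e b R α β ∧
      2 ^ α ≤ (hit cls e b R d r t).card := by
    intro d
    by_cases hd : d ∈ K'
    · obtain ⟨x, hx, rfl⟩ := mem_image.mp hd
      obtain ⟨t, ht⟩ := exists_hit cls e b R x.1 x.2
      exact ⟨x.2, t, fun _ => ⟨hx, ht ▸ (nxt_facts cls e b R α β x hx).2.1⟩⟩
    · exact ⟨0, 0, fun h => absurd h hd⟩
  choose r t hrt using hch
  let A : F → Finset F := fun d => hit cls e b R d (r d) (t d)
  let Pd : F → Finset (F × F) := fun d => (A d ×ˢ A d).filter (fun y => e y.1 ≠ e y.2)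
  have hPd : ∀ d ∈ K', (2 ^ α) ^ 2 ≤ 2 * (Pd d).card := by
    intro d hd
    have h1 : 2 ^ α ≤ (A d).card := (hrt d hd).2
    have h2 : (Pd d).card = ∑ k ∈ A d, ((A d).filter (fun k' => e k ≠ e k')).card := by
      simp only [Pd]
      rw [card_filter, sum_product]
      refine sum_congr rfl (fun k _ => ?_)
      rw [card_filter]
    have h3 : ∀ k ∈ A d, (A d).card ≤ 2 * ((A d).filter (fun k' => e k ≠ e k')).card := by
      intro k _
      have h4 := card_filter_add_card_filter_not (s := A d) (fun k' => e k ≠ e k')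
      have h5 : ((A d).filter (fun k' => ¬ e k ≠ e k')).card ≤
          (univ.filter (fun k' => cls k' = r d ∧ e k' = e k)).card := by
        apply card_le_card
        intro k' hk'
        simp only [mem_filter, A, hit, mem_univ, true_and, not_not] at hk' ⊢
        exact ⟨hk'.1.1, hk'.2.symm⟩
      have h6 := h (r d) (e k)
      omega
    calc (2 ^ α) ^ 2 ≤ (A d).card ^ 2 := Nat.pow_le_pow_left h1 2
      _ = ∑ _k ∈ A d, (A d).card := by simp [sq]
      _ ≤ ∑ k ∈ A d, 2 * ((A d).filter (fun k' => e k ≠ e k')).card := sum_le_sum h3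
      _ = 2 * (Pd d).card := by rw [h2, mul_sum]
  let Y : Finset (F × F) := T'.biUnion (fun r => SS cls R r ×ˢ SS cls R r)
  have hY : Y.card ≤ T'.card * (2 ^ (β + 1)) ^ 2 := by
    refine card_biUnion_le.trans ?_
    calc _ ≤ ∑ _r ∈ T', (2 ^ (β + 1)) ^ 2 := by
          refine sum_le_sum (fun r hr => ?_)
          obtain ⟨x, hx, rfl⟩ := mem_image.mp hr
          rw [card_product, ← sq]
          exact Nat.pow_le_pow_left (nxt_facts cls e b R α β x hx).2.2.2.le 2
      _ = _ := by simp
  have hinj : (K'.sigma Pd).card ≤ (Y ×ˢ (T ×ˢ T)).card := by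
    refine card_le_card_of_injOn (fun z => (z.2, (t z.1 + e z.2.1 * z.1 - b z.2.1,
      t z.1 + e z.2.2 * z.1 - b z.2.2))) ?_ ?_
    · rintro ⟨d, k, k'⟩ hz
      simp only [mem_coe, mem_sigma, Pd, mem_filter, mem_product] at hz
      obtain ⟨hd, ⟨hk, hk'⟩, -⟩ := hz
      simp only [mem_coe, mem_product]
      refine ⟨mem_biUnion.mpr ⟨r d, mem_image.mpr ⟨_, (hrt d hd).1, rfl⟩,
        mem_product.mpr ⟨hit_sub _ _ _ _ _ _ _ hk, hit_sub _ _ _ _ _ _ _ hk'⟩⟩, ?_, ?_⟩
      · exact mem_image.mpr ⟨_, (mem_filter.mp hk).2.2, rfl⟩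
      · exact mem_image.mpr ⟨_, (mem_filter.mp hk').2.2, rfl⟩
    · rintro ⟨d, k, k'⟩ hz ⟨d2, k2, k2'⟩ _ heq
      simp only [mem_coe, mem_sigma, Pd, mem_filter, mem_product] at hz
      simp only [Prod.mk.injEq] at heq
      obtain ⟨⟨rfl, rfl⟩, h1, h2⟩ := heq
      have : d = d2 := by
        apply mul_left_cancel₀ (sub_ne_zero.mpr hz.2.2)
        linear_combination h1 - h2
      subst this; rfl
  rw [card_sigma, card_product, card_product] at hinj
  calc K'.card * (2 ^ α) ^ 2 = ∑ _d ∈ K', (2 ^ α) ^ 2 := by simp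
    _ ≤ ∑ d ∈ K', 2 * (Pd d).card := sum_le_sum hPd
    _ ≤ 2 * (Y.card * (T.card * T.card)) := by rw [← mul_sum]; omega
    _ ≤ 2 * (T'.card * (2 ^ (β + 1)) ^ 2 * (T.card * T.card)) := by gcongr
    _ = _ := by ring

/-- The constant lost at each level. -/
noncomputable def EE : ℝ := Real.log 2 + Real.log 50 + Real.log 16010 + Real.log 8

/-- The invariant of a layer. -/
def Inv (L : ℝ) (j : ℕ) (R : Finset (F × F)) (w : ℝ) : Prop :=
  0 < w ∧ (R.Nonempty →
    Real.log w ≤ j * (11 / 18 * L + EE) + L / 3 - Real.log (R.image Prod.snd).card / 3 ∧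
    (Real.log w ≤ j * (11 / 18 * L + EE) + 5 / 18 * L ∨
      Real.log w ≤ j * (11 / 18 * L + EE) + 7 / 18 * L - Real.log (R.image Prod.fst).card / 6))

theorem log_le_of_nat {a b : ℕ} (ha : 0 < a) (h : a ≤ b) : Real.log a ≤ Real.log b :=
  Real.log_le_log (by exact_mod_cast ha) (by exact_mod_cast h)

theorem inv_step (cls e b : F → F)
    (H1 : ∀ (T : Finset F) (n : ℕ), (∀ r ∈ T, n ≤ (univ.filter (fun k => cls k = r)).card) →
      T.card * n ^ 3 ≤ 50 * Fintype.card F ^ 2)
    (H2 : ∀ r s, (univ.filter (fun k => cls k = r ∧ e k = s)).card ^ 5 ≤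
      8005 ^ 5 * Fintype.card F ^ 3)
    (j : ℕ) (R : Finset (F × F)) (w : ℝ) (h : Inv (Real.log (Fintype.card F)) j R w) (α β : ℕ) :
    Inv (Real.log (Fintype.card F)) (j + 1) (nxt cls e b R α β) (2 ^ (α + 1) * w) := by
  refine ⟨mul_pos (by positivity) h.1, fun hne => ?_⟩
  obtain ⟨x, hx⟩ := hne
  obtain ⟨f1, f2, f3, f4⟩ := nxt_facts cls e b R α β x hx
  have hP : 0 < Fintype.card F := Fintype.card_pos
  have hR : R.Nonempty := by
    have : (SS cls R x.2).Nonempty := card_pos.mp (lt_of_lt_of_le (by positivity) f3)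
    obtain ⟨k, hk⟩ := this
    exact (image_nonempty (f := Prod.fst)).mp ⟨k, (mem_filter.mp hk).1⟩
  obtain ⟨i1, i2⟩ := h.2 hR
  have hT' : 0 < ((nxt cls e b R α β).image Prod.snd).card :=
    card_pos.mpr (image_nonempty.mpr ⟨x, hx⟩)
  have hK' : 0 < ((nxt cls e b R α β).image Prod.fst).card :=
    card_pos.mpr (image_nonempty.mpr ⟨x, hx⟩)
  have hT : 0 < (R.image Prod.snd).card := card_pos.mpr (image_nonempty.mpr hR)
  have c1 := log_le_of_nat (by positivity) (nxt_classes cls e b R α β)
  have c2 := log_le_of_nat (by positivity) (H1 ((nxt cls e b R α β).image Prod.snd) (2 ^ β) (by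
    intro r hr
    obtain ⟨y, hy, rfl⟩ := mem_image.mp hr
    refine (nxt_facts cls e b R α β y hy).2.2.1.trans (card_le_card ?_)
    intro k hk
    exact mem_filter.mpr ⟨mem_univ _, (mem_filter.mp hk).2⟩))
  have c3 : (α : ℝ) * Real.log 2 ≤ β * Real.log 2 :=
    mul_le_mul_of_nonneg_right (by exact_mod_cast f1) (Real.log_nonneg (by norm_num))
  have c4 : 5 * (α * Real.log 2) ≤ 5 * Real.log 16010 + 3 * Real.log (Fintype.card F) ∨
      Real.log ((nxt cls e b R α β).image Prod.fst).card + 2 * (α * Real.log 2) ≤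
        Real.log 8 + Real.log ((nxt cls e b R α β).image Prod.snd).card +
          2 * (β * Real.log 2) + 2 * Real.log (R.image Prod.snd).card := by
    by_cases hc : ∀ r s, 2 * (univ.filter (fun k => cls k = r ∧ e k = s)).card < 2 ^ α
    · right
      have := log_le_of_nat (by positivity) (nxt_digits cls e b R α β hc)
      push_cast at this
      rw [Real.log_mul (by positivity) (by positivity), Real.log_mul (by positivity) (by positivity),
        Real.log_mul (by positivity) (by positivity), Real.log_mul (by positivity) (by positivity),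
        Real.log_pow, Real.log_pow, Real.log_pow, Real.log_pow, Real.log_pow] at this
      push_cast at this
      exact this
    · left
      push Not at hc
      obtain ⟨r, s, hrs⟩ := hc
      have h1 : (2 ^ α) ^ 5 ≤ 16010 ^ 5 * Fintype.card F ^ 3 := by
        calc (2 ^ α) ^ 5 ≤ (2 * (univ.filter (fun k => cls k = r ∧ e k = s)).card) ^ 5 :=
              Nat.pow_le_pow_left hrs 5
          _ = 2 ^ 5 * (univ.filter (fun k => cls k = r ∧ e k = s)).card ^ 5 := by rw [mul_pow]
          _ ≤ 2 ^ 5 * (8005 ^ 5 * Fintype.card F ^ 3) := Nat.mul_le_mul_left _ (H2 r s)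
          _ = _ := by rw [← mul_assoc]; norm_num
      have := log_le_of_nat (by positivity) h1
      rw [Nat.cast_mul, Nat.cast_pow, Nat.cast_pow, Nat.cast_pow, Nat.cast_pow,
        Real.log_mul (by positivity) (by positivity),
        Real.log_pow, Real.log_pow, Real.log_pow, Real.log_pow] at this
      push_cast at this
      exact this
  push_cast at c1 c2
  rw [Real.log_mul (by positivity) (by positivity), Real.log_pow] at c1
  rw [Real.log_mul (by positivity) (by positivity), Real.log_mul (by positivity) (by positivity),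
    Real.log_pow, Real.log_pow, Real.log_pow] at c2
  push_cast at c2
  have c5 : 0 ≤ Real.log ((nxt cls e b R α β).image Prod.snd).card :=
    Real.log_nonneg (by exact_mod_cast hT')
  have c6 : Real.log (2 ^ (α + 1) * w) = α * Real.log 2 + Real.log 2 + Real.log w := by
    rw [Real.log_mul (by positivity) h.1.ne', Real.log_pow]; push_cast; ring
  have n1 : 0 ≤ Real.log 2 := Real.log_nonneg (by norm_num)
  have n2 : 0 ≤ Real.log 50 := Real.log_nonneg (by norm_num)
  have n3 : 0 ≤ Real.log 16010 := Real.log_nonneg (by norm_num)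
  have n4 : 0 ≤ Real.log 8 := Real.log_nonneg (by norm_num)
  rw [c6]
  push_cast
  rw [add_mul (j : ℝ) 1, one_mul]
  generalize (j : ℝ) * (11 / 18 * Real.log (Fintype.card F) + EE) = J at *
  unfold EE
  constructor
  · rcases i2 with i2 | i2 <;> linarith
  · rcases c4 with c4 | c4
    · left
      rcases i2 with i2 | i2 <;> linarith
    · right
      linarith

theorem layers (cls e b : F → F)
    (H1 : ∀ (T : Finset F) (n : ℕ), (∀ r ∈ T, n ≤ (univ.filter (fun k => cls k = r)).card) →
      T.card * n ^ 3 ≤ 50 * Fintype.card F ^ 2)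
    (H2 : ∀ r s, (univ.filter (fun k => cls k = r ∧ e k = s)).card ^ 5 ≤
      8005 ^ 5 * Fintype.card F ^ 3) (j : ℕ) :
    ∃ (ι : Type) (_ : Fintype ι) (R : ι → Finset (F × F)) (w : ι → ℝ),
      Fintype.card ι = ((Nat.log 2 (Fintype.card F) + 1) ^ 2) ^ j ∧
      (∀ i, Inv (Real.log (Fintype.card F)) j (R i) (w i)) ∧
      ∀ d r, (MM cls e b j d r : ℝ) ≤ ∑ i, if (d, r) ∈ R i then w i else 0 := by
  have hP : 0 < Fintype.card F := Fintype.card_pos
  induction j with
  | zero =>
    refine ⟨Unit, inferInstance, fun _ => univ, fun _ => 1, by simp, fun _ => ⟨one_pos, ?_⟩, ?_⟩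
    · intro _
      have h0 : 0 ≤ Real.log (Fintype.card F) := Real.log_nonneg (by exact_mod_cast hP)
      have h1 : Real.log ((univ : Finset (F × F)).image Prod.snd).card ≤
          Real.log (Fintype.card F) :=
        log_le_of_nat (card_pos.mpr (image_nonempty.mpr univ_nonempty)) (card_le_univ _)
      simp only [Real.log_one, Nat.cast_zero, zero_mul]
      exact ⟨by linarith, Or.inl (by linarith)⟩
    · intro d r; simp [MM]
  | succ j ih =>
    obtain ⟨ι, _, R, w, h1, h2, h3⟩ := ih
    let A := Nat.log 2 (Fintype.card F) + 1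
    refine ⟨ι × Fin A × Fin A, inferInstance, fun i => nxt cls e b (R i.1) i.2.1 i.2.2,
      fun i => 2 ^ ((i.2.1 : ℕ) + 1) * w i.1, ?_, fun i => inv_step cls e b H1 H2 j _ _ (h2 _) _ _,
      ?_⟩
    · simp only [Fintype.card_prod, Fintype.card_fin, h1, A]; ring
    · intro d r
      obtain ⟨t, _, ht⟩ := exists_mem_eq_sup univ univ_nonempty (fun t : F =>
        ∑ k ∈ univ.filter (fun k => cls k = r), MM cls e b j k (t + e k * d - b k))
      rw [MM, ht, Fintype.sum_prod_type]
      push_cast
      refine (sum_le_sum (fun k _ => h3 k _)).trans ?_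
      rw [sum_comm]
      refine sum_le_sum (fun i _ => ?_)
      have hw := (h2 i).1
      have e1 : ∑ k ∈ univ.filter (fun k => cls k = r),
          (if (k, t + e k * d - b k) ∈ R i then w i else 0) =
          (hit cls e b (R i) d r t).card * w i := by
        rw [← sum_filter, filter_filter, sum_const, nsmul_eq_mul, hit]
      rw [e1]
      have e2 : (hit cls e b (R i) d r t).card ≤ WW cls e b (R i) d r :=
        le_sup (f := fun t => (hit cls e b (R i) d r t).card) (mem_univ t)
      have hnn : ∀ y : Fin A × Fin A, 0 ≤ (if (d, r) ∈ nxt cls e b (R i) y.1 y.2 then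
          2 ^ ((y.1 : ℕ) + 1) * w i else 0) := by
        intro y; split_ifs <;> positivity
      by_cases hW : 1 ≤ WW cls e b (R i) d r
      · have l1 : (SS cls (R i) r).card ≤ Fintype.card F := card_le_univ _
        have l2 := WW_le cls e b (R i) d r
        let y : Fin A × Fin A :=
          (⟨Nat.log 2 (WW cls e b (R i) d r), Nat.lt_succ_of_le (Nat.log_mono_right (l2.trans l1))⟩,
           ⟨Nat.log 2 (SS cls (R i) r).card, Nat.lt_succ_of_le (Nat.log_mono_right l1)⟩)
        refine le_trans ?_ (single_le_sum (fun y _ => hnn y) (mem_univ y))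
        have hy : (d, r) ∈ nxt cls e b (R i) y.1 y.2 :=
          mem_filter.mpr ⟨mem_univ _, hW, rfl, rfl⟩
        rw [if_pos hy]
        refine mul_le_mul_of_nonneg_right ?_ hw.le
        have := Nat.lt_pow_succ_log_self (b := 2) (by norm_num) (WW cls e b (R i) d r)
        exact_mod_cast e2.trans this.le
      · have : (hit cls e b (R i) d r t).card = 0 := by omega
        rw [this, Nat.cast_zero, zero_mul]
        exact sum_nonneg (fun y _ => hnn y)

theorem tree_bound (cls e b : F → F)
    (H1 : ∀ (T : Finset F) (n : ℕ), (∀ r ∈ T, n ≤ (univ.filter (fun k => cls k = r)).card) →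
      T.card * n ^ 3 ≤ 50 * Fintype.card F ^ 2)
    (H2 : ∀ r s, (univ.filter (fun k => cls k = r ∧ e k = s)).card ^ 5 ≤
      8005 ^ 5 * Fintype.card F ^ 3) (j : ℕ) (d r : F) :
    (MM cls e b j d r : ℝ) ≤ (((Nat.log 2 (Fintype.card F) + 1 : ℕ) : ℝ) ^ 2) ^ j *
      Real.exp (j * (11 / 18 * Real.log (Fintype.card F) + EE) + Real.log (Fintype.card F) / 3) := by
  obtain ⟨ι, _, R, w, h1, h2, h3⟩ := layers cls e b H1 H2 j
  refine (h3 d r).trans ?_
  calc _ ≤ ∑ _i : ι, Real.exp (j * (11 / 18 * Real.log (Fintype.card F) + EE) +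
        Real.log (Fintype.card F) / 3) := by
        refine sum_le_sum (fun i _ => ?_)
        split_ifs with hi
        · have h4 := ((h2 i).2 ⟨_, hi⟩).1
          have h5 : 0 ≤ Real.log ((R i).image Prod.snd).card := Real.log_natCast_nonneg _
          rw [← Real.log_le_iff_le_exp (h2 i).1]
          linarith
        · positivity
    _ = _ := by
        rw [sum_const, card_univ, h1, nsmul_eq_mul]; push_cast; rfl

end Pool.Agent.MP_3792c7_nt
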