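import Pool.Agent.MP_3792c7_nt.Count
import Pool.Agent.MP_3792c7_nt.Tree

/-! The tree of integers `n` whose harmonic number is divisible by `p`. -/

set_option autoImplicit false

namespace Pool.Agent.MP_3792c7_nt

open Finset

variable (p : ℕ) [Fact p.Prime]

/-- `p` divides the `n`-th harmonic number. -/
def inJ (n : ℕ) : Prop := ∃ y : ℤ_[p], ((harmonic n : ℚ) : ℚ_[p]) = p * y

theorem inJ_of_dvd (n : ℕ) (h : (p : ℤ) ∣ (harmonic n).num) : inJ p n := by
  have hp := (Fact.out : p.Prime)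
  generalize hq : harmonic n = q at h
  have hd : ¬ p ∣ q.den := by
    intro hd
    have h1 : p ∣ q.num.natAbs := Int.natCast_dvd.mp h
    have h2 := Nat.dvd_gcd h1 hd
    rw [q.reduced] at h2
    exact hp.one_lt.ne' (Nat.dvd_one.mp h2)
  have h1 : ‖(q : ℚ_[p])‖ < 1 := by
    have h2 : ‖(q.den : ℚ_[p])‖ = 1 :=
      Padic.norm_natCast_eq_one_iff.mpr ((Nat.Prime.coprime_iff_not_dvd hp).mpr hd)
    rw [Rat.cast_def, norm_div, h2, div_one]
    exact Padic.norm_intCast_lt_one_iff.mpr h
  obtain ⟨y, hy⟩ := (PadicInt.norm_lt_one_iff_dvd (⟨(q : ℚ_[p]), h1.le⟩ : ℤ_[p])).mp h1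
  refine ⟨y, ?_⟩
  rw [hq]
  exact congrArg (fun z : ℤ_[p] => (z : ℚ_[p])) hy

/-- The inverse of `i` in the `p`-adic integers, or zero. -/
noncomputable def uu (i : ℕ) : ℤ_[p] := Ring.inverse (i : ℤ_[p])

theorem uu_mul {i : ℕ} (h : ¬ p ∣ i) : (i : ℤ_[p]) * uu p i = 1 := by
  apply Ring.mul_inverse_cancel
  rw [PadicInt.isUnit_iff, PadicInt.norm_natCast_eq_one_iff]
  exact (Nat.Prime.coprime_iff_not_dvd Fact.out).mpr h

theorem uu_zero {i : ℕ} (h : p ∣ i) : uu p i = 0 := by
  apply Ring.inverse_non_unit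
  rw [PadicInt.isUnit_iff]
  exact (PadicInt.norm_natCast_lt_one_iff.mpr h).ne

theorem uu_red (i : ℕ) : PadicInt.toZMod (uu p i) = (i : ZMod p)⁻¹ := by
  by_cases h : p ∣ i
  · rw [uu_zero p h, (ZMod.natCast_eq_zero_iff i p).mpr h]; simp
  · have := congrArg PadicInt.toZMod (uu_mul p h)
    rw [map_mul, map_natCast, map_one] at this
    exact eq_inv_of_mul_eq_one_right this

/-- The part of the harmonic sum with denominators prime to `p`. -/
noncomputable def GG (x : ℕ) : ℤ_[p] := ∑ i ∈ range x, uu p (i + 1)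

theorem GG_red (x : ℕ) : PadicInt.toZMod (GG p x) = h1 p x := by
  simp only [GG, map_sum, uu_red, h1]

theorem h1_mul (n : ℕ) : h1 p (p * n) = n * h1 p p := by
  induction n with
  | zero => simp [h1]
  | succ n ih =>
    rw [mul_add, mul_one, h1, sum_range_add, ← h1, ih]
    have : ∀ i : ℕ, ((p * n + i + 1 : ℕ) : ZMod p) = ((i + 1 : ℕ) : ZMod p) := by
      intro i; simp
    simp only [this]
    rw [← h1]; push_cast; ring

theorem harm_split (x : ℕ) :
    ((harmonic x : ℚ) : ℚ_[p]) = ((harmonic (x / p) : ℚ) : ℚ_[p]) / p + GG p x := by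
  have hp := (Fact.out : p.Prime)
  have hp0 : (p : ℚ_[p]) ≠ 0 := by exact_mod_cast hp.ne_zero
  induction x with
  | zero => simp [GG]
  | succ x ih =>
    rw [harmonic_succ, GG, sum_range_succ, ← GG]
    push_cast
    rw [ih]
    by_cases h : p ∣ x + 1
    · rw [uu_zero p h, Nat.succ_div_of_dvd h, harmonic_succ]
      have h1 : x + 1 = p * (x / p + 1) := by
        rw [← Nat.succ_div_of_dvd h, Nat.mul_div_cancel' h]
      have h2 : (x : ℚ_[p]) + 1 = p * ((x / p : ℕ) + 1) := by exact_mod_cast congrArg (Nat.cast : ℕ → ℚ_[p]) h1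
      rw [h2]
      push_cast
      rw [mul_inv]
      field_simp
      ring
    · rw [Nat.succ_div_of_not_dvd h]
      have h1 := congrArg (fun z : ℤ_[p] => (z : ℚ_[p])) (uu_mul p h)
      push_cast at h1
      rw [eq_inv_of_mul_eq_one_right h1]
      ring

theorem GG_expand (n k : ℕ) (hk : k < p) : ∃ W : ℤ_[p],
    GG p (p * n + k) = GG p (p * n) + GG p k - p * n * ∑ i ∈ range k, uu p (i + 1) ^ 2 +
      p ^ 2 * W := by
  refine ⟨∑ i ∈ range k, n ^ 2 * uu p (i + 1) ^ 2 * uu p (p * n + i + 1), ?_⟩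
  unfold GG
  rw [sum_range_add, mul_sum, mul_sum, add_sub_assoc, add_assoc,
    ← sum_sub_distrib, ← sum_add_distrib]
  congr 1
  refine sum_congr rfl (fun i hi => ?_)
  have hi := mem_range.mp hi
  have h1 : ¬ p ∣ i + 1 := Nat.not_dvd_of_pos_of_lt (by omega) (by omega)
  have h2 : ¬ p ∣ p * n + i + 1 := by
    intro h
    rw [add_assoc] at h
    exact h1 ((Nat.dvd_add_right (dvd_mul_right p n)).mp h)
  have hu := uu_mul p h1
  have hU := uu_mul p h2
  push_cast at hu hU
  generalize uu p (i + 1) = u at *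
  generalize uu p (p * n + i + 1) = U at *
  linear_combination ((p : ℤ_[p]) * n * u - 1) * (U * hu - u * hU)

theorem exists_dv : ∃ dv : ℤ_[p] → ℤ_[p], ∀ x,
    x = ((PadicInt.toZMod x).val : ℤ_[p]) + p * dv x := by
  have : ∀ x : ℤ_[p], ∃ y, x = ((PadicInt.toZMod x).val : ℤ_[p]) + p * y := by
    intro x
    have h : x - ((PadicInt.toZMod x).val : ℤ_[p]) ∈ RingHom.ker (PadicInt.toZMod (p := p)) := by
      rw [RingHom.mem_ker, map_sub, map_natCast, ZMod.natCast_zmod_val, sub_self]
    rw [PadicInt.ker_toZMod, PadicInt.maximalIdeal_eq_span_p, Ideal.mem_span_singleton] at h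
    obtain ⟨y, hy⟩ := h
    exact ⟨y, by rw [← hy]; ring⟩
  choose dv h using this
  exact ⟨dv, h⟩

theorem inJ_parent (n k : ℕ) (hk : k < p) (h : inJ p (p * n + k)) : inJ p n := by
  have hp := (Fact.out : p.Prime)
  have hp0 : (p : ℚ_[p]) ≠ 0 := by exact_mod_cast hp.ne_zero
  obtain ⟨y, hy⟩ := h
  have h1 := harm_split p (p * n + k)
  rw [Nat.mul_add_div hp.pos, Nat.div_eq_of_lt hk, add_zero, hy] at h1
  refine ⟨p * y - GG p (p * n + k), ?_⟩
  push_cast
  rw [h1]
  field_simp
  ring

theorem tree_structure : ∃ (rr tt : ℕ → ZMod p) (bb : ℕ → ZMod p), ∀ n k, k < p →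
    inJ p (p * n + k) → h1 p k = rr n ∧ rr (p * n + k) = tt n + h2 p k * n - bb k := by
  have hp := (Fact.out : p.Prime)
  have hp0 : (p : ℚ_[p]) ≠ 0 := by exact_mod_cast hp.ne_zero
  have hp1 : (p : ℤ_[p]) ≠ 0 := by exact_mod_cast hp.ne_zero
  obtain ⟨dv, hdv⟩ := exists_dv p
  have : ∀ n, ∃ y : ℤ_[p], inJ p n → ((harmonic n : ℚ) : ℚ_[p]) = p * y := by
    intro n
    by_cases h : inJ p n
    · obtain ⟨y, hy⟩ := h
      exact ⟨y, fun _ => hy⟩
    · exact ⟨0, fun h' => absurd h' h⟩
  choose y hy using this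
  refine ⟨fun n => PadicInt.toZMod (-(y n + GG p (p * n))),
    fun n => PadicInt.toZMod (dv (-(y n + GG p (p * n)))),
    fun k => PadicInt.toZMod (dv (GG p k)) + k * h1 p p, fun n k hk h => ?_⟩
  have h1' := harm_split p (p * n + k)
  rw [Nat.mul_add_div hp.pos, Nat.div_eq_of_lt hk, add_zero, hy _ h,
    hy _ (inJ_parent p n k hk h), mul_div_cancel_left₀ _ hp0] at h1'
  have h2' : (p : ℤ_[p]) * y (p * n + k) = y n + GG p (p * n + k) := by
    apply Subtype.ext
    push_cast
    exact h1'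
  obtain ⟨W, hW⟩ := GG_expand p n k hk
  have hB : PadicInt.toZMod (∑ i ∈ range k, uu p (i + 1) ^ 2) = h2 p k := by
    simp only [map_sum, map_pow, uu_red, h2]
  generalize ∑ i ∈ range k, uu p (i + 1) ^ 2 = B at *
  beta_reduce
  generalize hz : -(y n + GG p (p * n)) = z
  have h3 : (p : ℤ_[p]) * y (p * n + k) = GG p k - z - p * n * B + p ^ 2 * W := by
    rw [h2', hW, ← hz]; ring
  have h4 : PadicInt.toZMod (GG p k) = PadicInt.toZMod z := by
    have := congrArg PadicInt.toZMod h3
    simp only [map_mul, map_natCast, map_add, map_sub, map_pow, CharP.cast_eq_zero] at this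
    linear_combination -this
  refine ⟨(GG_red p k).symm.trans h4, ?_⟩
  have h5 : y (p * n + k) = dv (GG p k) - dv z - n * B + p * W := by
    apply mul_left_cancel₀ hp1
    have e1 := hdv (GG p k)
    have e2 := hdv z
    rw [h4] at e1
    linear_combination h3 + e1 - e2
  simp only [map_neg, map_add, h5, map_sub, map_mul, map_natCast, GG_red, h1_mul, hB,
    CharP.cast_eq_zero, Nat.cast_add, Nat.cast_mul]
  ring

theorem sum_range_zmod {M : Type} [AddCommMonoid M] (g : ℕ → M) :
    ∑ i ∈ range p, g i = ∑ c : ZMod p, g c.val := by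
  refine sum_bij (fun i _ => (i : ZMod p)) (fun _ _ => mem_univ _) ?_ ?_ ?_
  · intro i hi j hj h
    have := (ZMod.natCast_eq_natCast_iff' i j p).mp h
    rwa [Nat.mod_eq_of_lt (mem_range.mp hi), Nat.mod_eq_of_lt (mem_range.mp hj)] at this
  · intro c _
    exact ⟨c.val, mem_range.mpr (ZMod.val_lt c), ZMod.natCast_zmod_val c⟩
  · intro i hi
    rw [ZMod.val_cast_of_lt (mem_range.mp hi)]

theorem card_range_zmod (P : ℕ → Prop) [DecidablePred P] :
    (univ.filter (fun c : ZMod p => P c.val)).card = ((range p).filter P).card := by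
  rw [card_filter, card_filter, sum_range_zmod p]

open Classical in
/-- The number of descendants of depth `j`. -/
noncomputable def cnt (j n : ℕ) : ℕ :=
  ((range (p ^ j)).filter (fun m => inJ p (p ^ j * n + m))).card

theorem cnt_succ (j n : ℕ) : cnt p (j + 1) n ≤ ∑ k ∈ range p, cnt p j (p * n + k) := by
  classical
  have hp := (Fact.out : p.Prime).pos
  have hq : 0 < p ^ j := pow_pos hp j
  unfold cnt
  rw [← card_sigma]
  refine card_le_card_of_injOn (fun m => ⟨m / p ^ j, m % p ^ j⟩) ?_ ?_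
  · intro m hm
    simp only [coe_filter, mem_range, Set.mem_ofPred_eq] at hm
    simp only [mem_coe, mem_sigma, mem_range, mem_filter]
    refine ⟨?_, Nat.mod_lt _ hq, ?_⟩
    · rw [Nat.div_lt_iff_lt_mul hq, mul_comm, ← pow_succ]; exact hm.1
    · have : p ^ j * (p * n + m / p ^ j) + m % p ^ j = p ^ (j + 1) * n + m := by
        have := Nat.div_add_mod m (p ^ j)
        rw [mul_add, add_assoc, this]; ring
      rw [this]; exact hm.2
  · intro m _ m' _ h
    simp only [Sigma.mk.injEq, heq_eq_eq] at h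
    rw [← Nat.div_add_mod m (p ^ j), ← Nat.div_add_mod m' (p ^ j), h.1, h.2]

theorem cnt_eq_zero (j : ℕ) : ∀ n, ¬ inJ p n → cnt p j n = 0 := by
  classical
  induction j with
  | zero =>
    intro n h
    simp [cnt, h]
  | succ j ih =>
    intro n h
    refine Nat.eq_zero_of_le_zero ((cnt_succ p j n).trans (le_of_eq (sum_eq_zero ?_)))
    intro k hk
    exact ih _ (fun h' => h (inJ_parent p n k (mem_range.mp hk) h'))

theorem cnt_bound (j n : ℕ) :
    (cnt p j n : ℝ) ≤ (((Nat.log 2 p + 1 : ℕ) : ℝ) ^ 2) ^ j *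
      Real.exp (j * (11 / 18 * Real.log p + EE) + Real.log p / 3) := by
  classical
  obtain ⟨rr, tt, bb, h⟩ := tree_structure p
  have key : ∀ j n, cnt p j n ≤ MM (fun k : ZMod p => h1 p k.val) (fun k => h2 p k.val)
      (fun k => bb k.val) j n (rr n) := by
    intro j
    induction j with
    | zero =>
      intro n
      exact (card_filter_le _ _).trans (by simp [MM])
    | succ j ih =>
      intro n
      refine (cnt_succ p j n).trans ?_
      rw [MM]
      refine le_trans ?_ (le_sup (mem_univ (tt n)))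
      rw [sum_range_zmod p, sum_filter]
      refine sum_le_sum (fun k _ => ?_)
      by_cases hJ : inJ p (p * n + k.val)
      · obtain ⟨h1, h2⟩ := h n k.val (ZMod.val_lt k) hJ
        rw [if_pos h1, ← h2]
        have := ih (p * n + k.val)
        simpa using this
      · rw [cnt_eq_zero p j _ hJ]; exact Nat.zero_le _
  have := tree_bound (fun k : ZMod p => h1 p k.val) (fun k => h2 p k.val) (fun k => bb k.val)
    (by
      intro T m hT
      rw [ZMod.card]
      refine heavy_card p T m (fun r hr => ?_)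
      rw [← card_range_zmod p (fun k => h1 p k = r)]
      exact hT r hr)
    (by
      intro r s
      rw [ZMod.card, card_range_zmod p (fun k => h1 p k = r ∧ h2 p k = s)]
      exact two_card p r s) j n (rr n)
  rw [ZMod.card] at this
  exact le_trans (by exact_mod_cast key j n) this

end Pool.Agent.MP_3792c7_nt
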