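import Mathlib

/-! Linear algebra helpers: Siegel lemma over a field, bounded kernel vectors, Taylor shifts. -/

set_option autoImplicit false

namespace Pool.Agent.MP_3792c7_nt

open Polynomial

theorem siegel {F V ι : Type} [Field F] [AddCommGroup V] [Module F V] [FiniteDimensional F V]
    [Fintype ι] (f : ι → V →ₗ[F] F[X]) (N : ℕ) (hf : ∀ i v, (f i v).natDegree < N)
    (h : Fintype.card ι * N < Module.finrank F V) : ∃ v : V, v ≠ 0 ∧ ∀ i, f i v = 0 := by
  classical
  let g : V →ₗ[F] (ι × Fin N → F) :=
    LinearMap.pi (fun q => (lcoeff F (q.2 : ℕ)).comp (f q.1))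
  have hk : LinearMap.ker g ≠ ⊥ := by
    apply LinearMap.ker_ne_bot_of_finrank_lt
    simpa using h
  obtain ⟨v, hv, hv0⟩ := Submodule.exists_mem_ne_zero_of_ne_bot hk
  refine ⟨v, hv0, fun i => ?_⟩
  ext n
  by_cases hn : n < N
  · have := congrFun (LinearMap.mem_ker.mp hv) (i, ⟨n, hn⟩)
    simpa [g] using this
  · rw [coeff_eq_zero_of_natDegree_lt (lt_of_lt_of_le (hf i v) (not_lt.mp hn))]
    simp

theorem finrank_pi_degreeLT {F ι : Type} [Field F] [Fintype ι] (A : ℕ) :
    Module.finrank F (ι → degreeLT F A) = Fintype.card ι * A := by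
  have : Module.finrank F (degreeLT F A) = A := by
    rw [(degreeLTEquiv F A).finrank_eq]; simp
  rw [Module.finrank_pi_fintype]
  simp [this]

theorem natDegree_le_of_mem_degreeLT {F : Type} [Field F] {A : ℕ} (q : degreeLT F A) :
    (q : F[X]).natDegree ≤ A := by
  have := mem_degreeLT.mp q.2
  exact natDegree_le_of_degree_le this.le

/-- A matrix over `F[X]` with a kernel vector over an extension field has a kernel vector of
bounded degree. -/
theorem bounded_kernel {F K ι : Type} [Field F] [Field K] (φ : F[X] →+* K)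
    (hφ : Function.Injective φ) (m G : ℕ) (M : Fin m → ι → F[X])
    (hM : ∀ j i, (M j i).natDegree ≤ G) (l : Fin m → K) (hl : l ≠ 0)
    (hk : ∀ i, ∑ j, l j * φ (M j i) = 0) :
    ∃ c : Fin m → F[X], c ≠ 0 ∧ (∀ j, (c j).natDegree ≤ m * G) ∧
      ∀ i, ∑ j, c j * M j i = 0 := by
  classical
  let col : ι → (Fin m → K) := fun i j => φ (M j i)
  obtain ⟨κ, a, -, hsp, hli⟩ := exists_linearIndependent' K col
  have : Finite κ := hli.finite
  have : Fintype κ := Fintype.ofFinite κ
  -- the functional
  let lam : (Fin m → K) →ₗ[K] K := ∑ j, l j • LinearMap.proj j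
  have hlam : ∀ x : Fin m → K, lam x = ∑ j, l j * x j := by
    intro x; simp [lam, LinearMap.sum_apply]
  have hcard : Fintype.card κ + 1 ≤ m := by
    have h1 : ∀ k, (col ∘ a) k ∈ LinearMap.ker lam := by
      intro k
      rw [LinearMap.mem_ker, hlam]; exact hk _
    have h2 : LinearIndependent K (fun k => (⟨(col ∘ a) k, h1 k⟩ : LinearMap.ker lam)) :=
      LinearIndependent.of_comp (LinearMap.ker lam).subtype hli
    have h3 := h2.fintype_card_le_finrank
    have h4 : LinearMap.ker lam ≠ ⊤ := by
      intro h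
      apply hl
      funext j
      have : (Pi.single j 1 : Fin m → K) ∈ LinearMap.ker lam := by rw [h]; trivial
      rw [LinearMap.mem_ker, hlam] at this
      simpa [Pi.single_apply] using this
    have h5 := Submodule.finrank_lt h4
    simp at h5
    omega
  let f : κ → (Fin m → degreeLT F (m * G + 1 - G)) →ₗ[F] F[X] := fun k =>
    ∑ j, (LinearMap.mulRight F (M j (a k))).comp
      ((degreeLT F (m * G + 1 - G)).subtype.comp (LinearMap.proj j))
  have hf : ∀ k v, f k v = ∑ j, (v j : F[X]) * M j (a k) := by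
    intro k v; simp [f, LinearMap.sum_apply]
  have hm1 : 1 ≤ m := by omega
  have hmG : G ≤ m * G := Nat.le_mul_of_pos_left G hm1
  have hdeg : ∀ q : degreeLT F (m * G + 1 - G), (q : F[X]).natDegree + G ≤ m * G := by
    intro q
    by_cases hq : (q : F[X]) = 0
    · rw [hq]; simpa using hmG
    · have := mem_degreeLT.mp q.2
      rw [degree_eq_natDegree hq] at this
      have : (q : F[X]).natDegree < m * G + 1 - G := by exact_mod_cast this
      omega
  obtain ⟨v, hv0, hv⟩ := siegel f (m * G + 1) (by
      intro k v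
      rw [hf, Nat.lt_succ_iff]
      refine natDegree_sum_le_of_forall_le _ _ (fun j _ => ?_)
      exact natDegree_mul_le.trans (by have := hdeg (v j); have := hM j (a k); omega)) (by
      rw [finrank_pi_degreeLT, Fintype.card_fin]
      obtain ⟨n, rfl⟩ : ∃ n, m = n + 1 := ⟨m - 1, by omega⟩
      have e1 : (n + 1) * G + 1 - G = n * G + 1 := by
        rw [add_mul, one_mul]; omega
      rw [e1]
      have : Fintype.card κ ≤ n := by omega
      calc Fintype.card κ * ((n + 1) * G + 1) ≤ n * ((n + 1) * G + 1) :=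
            Nat.mul_le_mul_right _ this
        _ < (n + 1) * (n * G + 1) := by nlinarith)
  refine ⟨fun j => v j, ?_, fun j => ?_, fun i => ?_⟩
  · intro h
    apply hv0
    funext j
    exact Subtype.ext (congrFun h j)
  · have := hdeg (v j)
    show (v j : F[X]).natDegree ≤ _
    omega
  · let mu : (Fin m → K) →ₗ[K] K := ∑ j, φ (v j) • LinearMap.proj j
    have hmu : ∀ x : Fin m → K, mu x = ∑ j, φ (v j) * x j := by
      intro x; simp [mu, LinearMap.sum_apply]
    have h1 : Submodule.span K (Set.range (col ∘ a)) ≤ LinearMap.ker mu := by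
      rw [Submodule.span_le]
      rintro _ ⟨k, rfl⟩
      have := hv k
      rw [hf] at this
      have h2 := congrArg φ this
      simp only [map_sum, map_mul, map_zero] at h2
      simpa [hmu, col] using h2
    have h2 : col i ∈ LinearMap.ker mu := by
      apply h1; rw [hsp]; exact Submodule.subset_span ⟨i, rfl⟩
    rw [LinearMap.mem_ker, hmu] at h2
    apply hφ
    simpa [col] using h2

theorem taylor_coeff_top {S : Type} [CommRing S] (r : S) (f : S[X]) (n : ℕ)
    (h : f.natDegree ≤ n) : (taylor r f).coeff n = f.coeff n := by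
  rcases h.eq_or_lt with h | h
  · rw [← h, coeff_taylor_natDegree]; rfl
  · rw [coeff_eq_zero_of_natDegree_lt h, coeff_eq_zero_of_natDegree_lt]
    rwa [natDegree_taylor]

theorem taylor_coeff_sub {S : Type} [CommRing S] (r : S) (f : S[X]) (n : ℕ)
    (h : f.natDegree ≤ n + 1) :
    (taylor r f).coeff n = f.coeff n + (n + 1) * f.coeff (n + 1) * r := by
  have e := f.as_sum_range' (n + 2) (by omega)
  have : (taylor r f).coeff n = ∑ i ∈ Finset.range (n + 2),
      f.coeff i * (r ^ (i - n) * (i.choose n : S)) := by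
    conv_lhs => rw [e]
    rw [map_sum, finsetSum_coeff]
    refine Finset.sum_congr rfl (fun i _ => ?_)
    rw [taylor_monomial, coeff_C_mul, coeff_X_add_C_pow]
  rw [this, Finset.sum_range_succ, Finset.sum_range_succ, Finset.sum_eq_zero]
  · simp; ring
  · intro i hi
    rw [Nat.choose_eq_zero_of_lt (Finset.mem_range.mp hi)]; simp

/-- A polynomial of small degree whose translate differs from it by a constant is affine. -/
theorem affine_of_taylor {K : Type} [Field K] (p : ℕ) [CharP K p] (h : K[X])
    (hd : h.natDegree < p) (v κ : K) (hv : v ≠ 0) (e : taylor v h - h = C κ) :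
    h.natDegree ≤ 1 ∧ h.coeff 1 * v = κ := by
  have h1 : h.natDegree ≤ 1 := by
    by_contra hc
    obtain ⟨n, hn⟩ : ∃ n, h.natDegree = n + 1 + 1 := ⟨h.natDegree - 2, by omega⟩
    have h2 := taylor_coeff_sub v h (n + 1) hn.le
    have h3 := congrArg (fun q => q.coeff (n + 1)) e
    simp only [coeff_sub, h2, coeff_C_succ] at h3
    have h4 : ((n + 1 : ℕ) + 1 : K) * h.coeff (n + 1 + 1) * v = 0 := by
      linear_combination h3
    have h5 : h.coeff (n + 1 + 1) ≠ 0 := by
      rw [← hn]; intro h6
      have : h = 0 := leadingCoeff_eq_zero.mp h6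
      rw [this] at hn; simp at hn
    have h6 : ((n + 1 : ℕ) + 1 : K) ≠ 0 := by
      have : ((n + 1 + 1 : ℕ) : K) ≠ 0 := by
        rw [Ne, CharP.cast_eq_zero_iff K p]
        exact Nat.not_dvd_of_pos_of_lt (by omega) (by omega)
      simpa using this
    exact (mul_ne_zero (mul_ne_zero h6 h5) hv) h4
  refine ⟨h1, ?_⟩
  have h2 := taylor_coeff_sub v h 0 h1
  have h3 := congrArg (fun q => q.coeff 0) e
  simp only [coeff_sub, h2, coeff_C_zero] at h3
  simp at h3
  linear_combination h3

end Pool.Agent.MP_3792c7_nt
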