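import Mathlib

/-! Arithmetic of harmonic numbers in the p-adic numbers: parents, residues, reflection, clusters. -/

namespace Pool.Agent.MP_3792c7_nt.Null

open Finset

variable {p : ℕ} [hp : Fact p.Prime]

/-- The harmonic number as a p-adic number. -/
noncomputable def Hq (p : ℕ) [Fact p.Prime] (n : ℕ) : ℚ_[p] := ((harmonic n : ℚ) : ℚ_[p])

lemma Hq_zero : Hq p 0 = 0 := by simp [Hq]

lemma Hq_succ (n : ℕ) : Hq p (n + 1) = Hq p n + (((n + 1 : ℕ) : ℚ_[p]))⁻¹ := by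
  simp [Hq]

lemma one_lt_p : (1 : ℝ) < p := by exact_mod_cast hp.out.one_lt

lemma p_ne_zero : (p : ℚ_[p]) ≠ 0 := by exact_mod_cast hp.out.ne_zero

lemma sub_le_max (x y : ℚ_[p]) : ‖x - y‖ ≤ max ‖x‖ ‖y‖ := by
  have := Padic.nonarchimedean x (-y)
  rwa [norm_neg, ← sub_eq_add_neg] at this

lemma norm_inv_lt {a i : ℕ} (h : ¬ p ^ a ∣ i) : ‖((i : ℚ_[p]))⁻¹‖ < (p : ℝ) ^ a := by
  have h1 : ¬ ‖((i : ℤ) : ℚ_[p])‖ ≤ (p : ℝ) ^ (-a : ℤ) := by
    rw [Padic.norm_int_le_pow_iff_dvd]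
    intro h2
    apply h
    exact_mod_cast h2
  push Not at h1
  have hpos : (0 : ℝ) < (p : ℝ) ^ a := pow_pos (by linarith [one_lt_p (p := p)]) a
  rw [zpow_neg, zpow_natCast, Int.cast_natCast] at h1
  rw [norm_inv]
  exact inv_lt_of_inv_lt₀ hpos h1

lemma parent (m : ℕ) : ‖Hq p m - Hq p (m / p) / p‖ ≤ 1 := by
  induction m with
  | zero => simp [Hq_zero]
  | succ m ih =>
    by_cases h : p ∣ m + 1
    · have e := Nat.succ_div_of_dvd h
      obtain ⟨k, hk⟩ := h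
      have hk' : m / p + 1 = k := by
        rw [← e, hk, Nat.mul_div_cancel_left _ hp.out.pos]
      have e2 : Hq p (m + 1) - Hq p ((m + 1) / p) / p = Hq p m - Hq p (m / p) / p := by
        rw [e, Hq_succ, Hq_succ, hk', hk]
        have := p_ne_zero (p := p)
        push_cast
        rw [mul_inv]
        field_simp
        ring
      rw [e2]; exact ih
    · have e := Nat.succ_div_of_not_dvd h
      have e2 : Hq p (m + 1) - Hq p ((m + 1) / p) / p
          = (Hq p m - Hq p (m / p) / p) + (((m + 1 : ℕ) : ℚ_[p]))⁻¹ := by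
        rw [e, Hq_succ]; ring
      rw [e2]
      refine (Padic.nonarchimedean _ _).trans (max_le ih ?_)
      rw [norm_inv, (Padic.norm_natCast_eq_one_iff).2 ((Nat.Prime.coprime_iff_not_dvd hp.out).2 h)]
      simp

lemma norm_Hq_le (j : ℕ) : ∀ n : ℕ, n < p ^ (j + 1) → ‖Hq p n‖ ≤ (p : ℝ) ^ j := by
  induction j with
  | zero =>
    intro n hn
    have h := parent (p := p) n
    rw [Nat.div_eq_of_lt (by simpa using hn), Hq_zero] at h
    simpa using h
  | succ j ih =>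
    intro n hn
    have h := parent (p := p) n
    have h2 : n / p < p ^ (j + 1) := by
      rw [Nat.div_lt_iff_lt_mul hp.out.pos, ← pow_succ]; exact hn
    have h3 := ih _ h2
    have e : Hq p n = (Hq p n - Hq p (n / p) / p) + Hq p (n / p) / p := by ring
    have h1 := one_lt_p (p := p)
    rw [e]
    refine (Padic.nonarchimedean _ _).trans (max_le (h.trans (one_le_pow₀ h1.le)) ?_)
    rw [norm_div, Padic.norm_p, div_inv_eq_mul, pow_succ]
    exact mul_le_mul_of_nonneg_right h3 (by linarith)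

/-- The shifted condition at level j. -/
def S (j n : ℕ) (c : ℤ_[p]) : Prop := ‖Hq p n - (c : ℚ_[p]) / (p : ℚ_[p]) ^ j‖ < 1

lemma S_parent {j m : ℕ} {c : ℤ_[p]} (h : S (j + 1) m c) : S j (m / p) c := by
  unfold S at *
  have h0 := p_ne_zero (p := p)
  have e : Hq p (m / p) - (c : ℚ_[p]) / (p : ℚ_[p]) ^ j
      = p * ((Hq p m - (c : ℚ_[p]) / (p : ℚ_[p]) ^ (j + 1)) - (Hq p m - Hq p (m / p) / p)) := by
    field_simp
    ring
  rw [e, norm_mul]
  have h1 : ‖(Hq p m - (c : ℚ_[p]) / (p : ℚ_[p]) ^ (j + 1)) - (Hq p m - Hq p (m / p) / p)‖ ≤ 1 :=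
    (sub_le_max _ _).trans (max_le h.le (parent m))
  have h2 : ‖(p : ℚ_[p])‖ < 1 := Padic.norm_p_lt_one
  exact mul_lt_one_of_nonneg_of_lt_one_left (norm_nonneg _) h2 h1

lemma S_anc (r : ℕ) : ∀ {j m : ℕ} {c : ℤ_[p]}, S (j + r) m c → S j (m / p ^ r) c := by
  induction r with
  | zero => intro j m c h; simpa using h
  | succ r ih =>
    intro j m c h
    have h1 := ih (S_parent (j := j + r) h)
    rwa [Nat.div_div_eq_div_mul, ← pow_succ'] at h1

lemma S_of_close {j t t' : ℕ} {c : ℤ_[p]} (h : S j t c) (h' : ‖Hq p t' - Hq p t‖ < 1) :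
    S j t' c := by
  unfold S at *
  have e : Hq p t' - (c : ℚ_[p]) / (p : ℚ_[p]) ^ j
      = (Hq p t' - Hq p t) + (Hq p t - (c : ℚ_[p]) / (p : ℚ_[p]) ^ j) := by ring
  rw [e]
  exact lt_of_le_of_lt (Padic.nonarchimedean _ _) (max_lt h' h)

lemma exists_res (j n : ℕ) (hn : n < p ^ (j + 1)) :
    ∃ y < p ^ (j + 1), ∀ c : ℤ_[p], S j n c ↔ (PadicInt.toZModPow (j + 1) c).val = y := by
  have h1 := one_lt_p (p := p)
  have hpos : (0 : ℝ) < (p : ℝ) ^ j := pow_pos (by linarith) j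
  have hnp : ‖(p : ℚ_[p]) ^ j‖ = ((p : ℝ) ^ j)⁻¹ := by
    rw [Padic.norm_p_pow, zpow_neg, zpow_natCast]
  have hA : ‖(p : ℚ_[p]) ^ j * Hq p n‖ ≤ 1 := by
    rw [norm_mul, hnp, inv_mul_le_iff₀ hpos, mul_one]
    exact norm_Hq_le j n hn
  have : NeZero (p ^ (j + 1)) := ⟨pow_ne_zero _ hp.out.ne_zero⟩
  obtain ⟨A, hAe⟩ : ∃ A : ℤ_[p], (A : ℚ_[p]) = (p : ℚ_[p]) ^ j * Hq p n := ⟨⟨_, hA⟩, rfl⟩
  refine ⟨(PadicInt.toZModPow (j + 1) A).val, ZMod.val_lt _, fun c => ?_⟩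
  rw [(ZMod.val_injective _).eq_iff, eq_comm, ← sub_eq_zero, ← map_sub, ← RingHom.mem_ker,
    PadicInt.ker_toZModPow, ← PadicInt.norm_le_pow_iff_mem_span_pow,
    PadicInt.norm_le_pow_iff_norm_lt_pow_add_one, PadicInt.norm_def]
  have h0 := p_ne_zero (p := p)
  have e : ((A - c : ℤ_[p]) : ℚ_[p])
      = (p : ℚ_[p]) ^ j * (Hq p n - (c : ℚ_[p]) / (p : ℚ_[p]) ^ j) := by
    push_cast
    rw [hAe]
    field_simp
  have e2 : (-((j + 1 : ℕ) : ℤ) + 1) = -(j : ℤ) := by push_cast; ring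
  rw [e, e2, norm_mul, hnp, zpow_neg, zpow_natCast]
  unfold S
  constructor
  · intro h
    exact mul_lt_of_lt_one_right (inv_pos.2 hpos) h
  · intro h
    by_contra hh
    push Not at hh
    exact absurd h (not_lt.2 (le_mul_of_one_le_right (inv_pos.2 hpos).le hh))

lemma reflect (a w : ℕ) : ∀ B : ℕ, p ^ (2 * a) ∣ 2 * (B + w) + 1 → 2 * w < p ^ a →
    ‖Hq p (B + 2 * w) - Hq p B‖ < 1 := by
  induction w with
  | zero => intro B _ _; simp
  | succ w ih =>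
    intro B h1 h2
    have h3 := ih (B + 1) (by rwa [show B + 1 + w = B + (w + 1) by ring]) (by omega)
    have hd : p ^ a ∣ (B + 1) + (B + 2 * w + 2) := by
      rw [show (B + 1) + (B + 2 * w + 2) = 2 * (B + (w + 1)) + 1 by ring]
      exact (pow_dvd_pow p (by omega)).trans h1
    have hx : ¬ p ^ a ∣ B + 1 := by
      intro hx
      have hy := (Nat.dvd_add_right hx).1 hd
      rw [show B + 2 * w + 2 = (B + 1) + (2 * w + 1) by ring] at hy
      have := Nat.le_of_dvd (by omega) ((Nat.dvd_add_right hx).1 hy)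
      omega
    have hy : ¬ p ^ a ∣ B + 2 * w + 2 := by
      intro hy
      exact hx ((Nat.dvd_add_left hy).1 hd)
    have hx' := norm_inv_lt (p := p) hx
    have hy' := norm_inv_lt (p := p) hy
    have hs : ‖((2 * (B + (w + 1)) + 1 : ℕ) : ℚ_[p])‖ ≤ ((p : ℝ) ^ (2 * a))⁻¹ := by
      have := (Padic.norm_int_le_pow_iff_dvd (p := p) ((2 * (B + (w + 1)) + 1 : ℕ) : ℤ)
        (2 * a)).2 (by exact_mod_cast h1)
      rwa [zpow_neg, zpow_natCast, Int.cast_natCast] at this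
    have n1 : ((B + 1 : ℕ) : ℚ_[p]) ≠ 0 := by exact_mod_cast Nat.succ_ne_zero B
    have n2 : ((B + 2 * w + 2 : ℕ) : ℚ_[p]) ≠ 0 := by
      exact_mod_cast Nat.succ_ne_zero (B + 2 * w + 1)
    have e : Hq p (B + 2 * (w + 1)) - Hq p B = (Hq p (B + 1 + 2 * w) - Hq p (B + 1))
        + ((2 * (B + (w + 1)) + 1 : ℕ) : ℚ_[p]) *
          (((B + 1 : ℕ) : ℚ_[p])⁻¹ * ((B + 2 * w + 2 : ℕ) : ℚ_[p])⁻¹) := by
      rw [show B + 2 * (w + 1) = (B + 1 + 2 * w) + 1 by ring, Hq_succ, Hq_succ B,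
        show B + 1 + 2 * w + 1 = B + 2 * w + 2 by ring,
        show 2 * (B + (w + 1)) + 1 = (B + 1) + (B + 2 * w + 2) by ring, Nat.cast_add (B + 1)]
      field_simp
      ring
    rw [e]
    refine lt_of_le_of_lt (Padic.nonarchimedean _ _) (max_lt h3 ?_)
    have h1' := one_lt_p (p := p)
    have hpos : (0 : ℝ) < (p : ℝ) ^ a := pow_pos (by linarith) a
    have hpos2 : (0 : ℝ) < (p : ℝ) ^ (2 * a) := pow_pos (by linarith) _
    rw [norm_mul, norm_mul]
    have hm : ‖((B + 1 : ℕ) : ℚ_[p])⁻¹‖ * ‖((B + 2 * w + 2 : ℕ) : ℚ_[p])⁻¹‖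
        < (p : ℝ) ^ (2 * a) := by
      rw [two_mul a, pow_add]
      exact mul_lt_mul'' hx' hy' (norm_nonneg _) (norm_nonneg _)
    calc _ ≤ ((p : ℝ) ^ (2 * a))⁻¹ *
          (‖((B + 1 : ℕ) : ℚ_[p])⁻¹‖ * ‖((B + 2 * w + 2 : ℕ) : ℚ_[p])⁻¹‖) :=
          mul_le_mul_of_nonneg_right hs (mul_nonneg (norm_nonneg _) (norm_nonneg _))
      _ < 1 := by rw [inv_mul_lt_iff₀ hpos2, mul_one]; exact hm

lemma cluster (h3 : 3 ≤ p) (ρ : ℕ) : ∀ a C : ℕ, a + 1 = 2 ^ ρ → p ^ (2 * a) ∣ 2 * C + 1 →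
    ∃ (T : Finset ℕ) (z : ℚ_[p]), T.card = 2 ^ ρ ∧
      ∀ t ∈ T, 2 * t < 2 * C + p ^ a ∧ 2 * C < 2 * t + p ^ a ∧ ‖Hq p t - z‖ < 1 := by
  induction ρ with
  | zero =>
    intro a C ha _
    have : a = 0 := by simpa using ha
    subst this
    exact ⟨{C}, Hq p C, by simp, by simp⟩
  | succ ρ ih =>
    intro a' C ha' hd
    obtain ⟨a, ha⟩ : ∃ a, a + 1 = 2 ^ ρ := ⟨2 ^ ρ - 1, Nat.sub_add_cancel Nat.one_le_two_pow⟩
    have hae : a' = 2 * a + 1 := by rw [pow_succ] at ha'; omega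
    subst hae
    obtain ⟨T, z, hT, hz⟩ := ih a (C + p ^ (2 * a)) ha (by
      rw [show 2 * (C + p ^ (2 * a)) + 1 = (2 * C + 1) + p ^ (2 * a) * 2 by ring]
      exact Nat.dvd_add ((pow_dvd_pow p (by omega)).trans hd) (Dvd.intro _ rfl))
    have hp1 : 1 ≤ p := by omega
    have l1 : p ^ a ≤ p ^ (2 * a) := Nat.pow_le_pow_right hp1 (by omega)
    have l2 : 3 * p ^ (2 * a) ≤ p ^ (2 * a + 1) := by
      rw [pow_succ, mul_comm]; exact Nat.mul_le_mul_left _ h3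
    have l3 : p ^ (2 * a + 1) ≤ 2 * C + 1 :=
      Nat.le_of_dvd (by omega) ((pow_dvd_pow p (by omega)).trans hd)
    have hr : ∀ t ∈ T, C < t ∧ t ≤ 2 * C ∧ 2 * t < 2 * C + p ^ (2 * a + 1) := by
      intro t ht
      obtain ⟨u1, u2, -⟩ := hz t ht
      omega
    refine ⟨T ∪ T.image (fun t => 2 * C - t), z, ?_, ?_⟩
    · rw [card_union_of_disjoint, card_image_of_injOn, hT, pow_succ]
      · ring
      · intro t ht s hs hts
        have := hr t ht
        have := hr s hs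
        simp only at hts
        omega
      · rw [Finset.disjoint_left]
        intro t ht ht'
        obtain ⟨s, hs, e⟩ := mem_image.1 ht'
        have := hr t ht
        have := hr s hs
        omega
    · intro t ht
      rcases mem_union.1 ht with ht | ht
      · have := hr t ht
        exact ⟨by omega, by omega, (hz t ht).2.2⟩
      · obtain ⟨s, hs, rfl⟩ := mem_image.1 ht
        have h4 := hr s hs
        refine ⟨by omega, by omega, ?_⟩
        have h5 := reflect (p := p) (2 * a + 1) (s - C) (2 * C - s)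
          (by rwa [show 2 * C - s + (s - C) = C by omega]) (by omega)
        rw [show 2 * C - s + 2 * (s - C) = s by omega] at h5
        have e : Hq p (2 * C - s) - z = (Hq p s - z) - (Hq p s - Hq p (2 * C - s)) := by ring
        rw [e]
        exact lt_of_le_of_lt (sub_le_max _ _) (max_lt (hz s hs).2.2 h5)

lemma cluster_desc (h3 : 3 ≤ p) (ρ a n : ℕ) (ha : a + 1 = 2 ^ ρ) :
    ∃ T : Finset ℕ, T.card = 2 ^ ρ ∧ (∀ t ∈ T, t / p ^ (2 * a) = n) ∧
      ∀ t ∈ T, ∀ t' ∈ T, ‖Hq p t' - Hq p t‖ < 1 := by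
  have hodd : Odd (p ^ (2 * a)) := (hp.out.odd_of_ne_two (by omega)).pow
  obtain ⟨h, hh⟩ := hodd
  obtain ⟨T, z, hT, hz⟩ := cluster (p := p) h3 ρ a (n * p ^ (2 * a) + h) ha
    ⟨2 * n + 1, by
      rw [show 2 * (n * p ^ (2 * a) + h) + 1 = 2 * n * p ^ (2 * a) + (2 * h + 1) by ring, ← hh]
      ring⟩
  have l1 : p ^ a ≤ p ^ (2 * a) := Nat.pow_le_pow_right (by omega) (by omega)
  refine ⟨T, hT, fun t ht => ?_, fun t ht t' ht' => ?_⟩
  · obtain ⟨u1, u2, -⟩ := hz t ht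
    apply Nat.div_eq_of_lt_le
    · omega
    · rw [add_mul, one_mul]; omega
  · have e : Hq p t' - Hq p t = (Hq p t' - z) - (Hq p t - z) := by ring
    rw [e]
    exact lt_of_le_of_lt (sub_le_max _ _) (max_lt (hz t' ht').2.2 (hz t ht).2.2)

end Pool.Agent.MP_3792c7_nt.Null
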