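import Mathlib
import Pool.Agent.MP_3792c7_nt.Null1

/-! Counting the residue classes hit at level j. -/

namespace Pool.Agent.MP_3792c7_nt.Null

open Finset

lemma card_mod_fibre (M P y : ℕ) : #{y' ∈ range (M * P) | y' % M = y} ≤ P := by
  have h : #{y' ∈ range (M * P) | y' % M = y} ≤ #(range P) := by
    apply card_le_card_of_injOn (fun y' => y' / M)
    · intro a ha
      simp only [coe_filter, mem_range, Set.mem_ofPred_eq, coe_range, Set.mem_Iio] at ha ⊢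
      exact Nat.div_lt_of_lt_mul ha.1
    · intro a ha b hb hab
      simp only [coe_filter, mem_range, Set.mem_ofPred_eq] at ha hb hab
      rw [← Nat.div_add_mod a M, ← Nat.div_add_mod b M, hab, ha.2, hb.2]
  simpa using h

lemma card_div_fibre (X : Finset ℕ) (P n : ℕ) (hP : 0 < P) : #{m ∈ X | m / P = n} ≤ P := by
  have h : #{m ∈ X | m / P = n} ≤ #(range P) := by
    apply card_le_card_of_injOn (fun m => m % P)
    · intro a _
      simp only [coe_range, Set.mem_Iio]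
      exact Nat.mod_lt _ hP
    · intro a ha b hb hab
      simp only [coe_filter, Set.mem_ofPred_eq] at ha hb hab
      rw [← Nat.div_add_mod a P, ← Nat.div_add_mod b P, hab, ha.2, hb.2]
  simpa using h

lemma block (M P K : ℕ) (hM : 0 < M) (hP : 0 < P) (X X' : Finset ℕ) (g g' : ℕ → ℕ)
    (hπ : ∀ m ∈ X', m / P ∈ X)
    (hc : ∀ m ∈ X', g (m / P) = g' m % M)
    (hcl : ∀ n ∈ X, ∃ y' < M * P, y' % M = g n ∧ 2 * K ≤ #{m ∈ X' | g' m = y'}) :
    ∑ y' ∈ range (M * P), min #{m ∈ X' | g' m = y'} K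
      + K * #{y ∈ range M | 1 ≤ #{n ∈ X | g n = y} ∧ #{n ∈ X | g n = y} ≤ K}
      ≤ P * ∑ y ∈ range M, min #{n ∈ X | g n = y} K := by
  rw [← sum_fiberwise_of_maps_to (s := range (M * P)) (t := range M) (g := fun y' => y' % M)
    (fun y' _ => mem_range.2 (Nat.mod_lt _ hM)), card_filter, mul_sum, mul_sum, ← sum_add_distrib]
  refine sum_le_sum fun y _ => ?_
  have hsum : ∑ y' ∈ {y' ∈ range (M * P) | y' % M = y}, #{m ∈ X' | g' m = y'}
      ≤ P * #{n ∈ X | g n = y} := by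
    rw [sum_card_fiberwise_eq_card_filter]
    apply card_le_mul_card_image_of_maps_to (f := fun m => m / P)
    · intro m hm
      simp only [mem_filter, mem_range] at hm ⊢
      exact ⟨hπ m hm.1, (hc m hm.1).trans hm.2.2⟩
    · intro n _
      exact card_div_fibre _ P n hP
  have hle : ∑ y' ∈ {y' ∈ range (M * P) | y' % M = y}, min #{m ∈ X' | g' m = y'} K
      ≤ ∑ y' ∈ {y' ∈ range (M * P) | y' % M = y}, #{m ∈ X' | g' m = y'} :=
    sum_le_sum fun _ _ => min_le_left _ _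
  by_cases h1 : 1 ≤ #{n ∈ X | g n = y} ∧ #{n ∈ X | g n = y} ≤ K
  · rw [if_pos h1, min_eq_left h1.2, mul_one]
    obtain ⟨n, hn⟩ := card_pos.1 h1.1
    rw [mem_filter] at hn
    obtain ⟨y0, hy0, hy1, hy2⟩ := hcl n hn.1
    have hmem : y0 ∈ {y' ∈ range (M * P) | y' % M = y} :=
      mem_filter.2 ⟨mem_range.2 hy0, hy1.trans hn.2⟩
    refine le_trans ?_ hsum
    rw [← add_sum_erase _ _ hmem, ← add_sum_erase _ _ hmem]
    have h2 : ∑ y' ∈ ({y' ∈ range (M * P) | y' % M = y}).erase y0, min #{m ∈ X' | g' m = y'} K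
        ≤ ∑ y' ∈ ({y' ∈ range (M * P) | y' % M = y}).erase y0, #{m ∈ X' | g' m = y'} :=
      sum_le_sum fun _ _ => min_le_left _ _
    have h3 := min_le_right #{m ∈ X' | g' m = y0} K
    omega
  · rw [if_neg h1, mul_zero, add_zero]
    rcases le_total #{n ∈ X | g n = y} K with h2 | h2
    · rw [min_eq_left h2]
      exact hle.trans hsum
    · rw [min_eq_right h2]
      calc _ ≤ ∑ _y' ∈ {y' ∈ range (M * P) | y' % M = y}, K :=
            sum_le_sum fun _ _ => min_le_right _ _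
        _ = #{y' ∈ range (M * P) | y' % M = y} * K := by rw [sum_const, smul_eq_mul]
        _ ≤ P * K := Nat.mul_le_mul_right _ (card_mod_fibre M P y)

lemma iterate (p P K : ℕ) (hp : 0 < p) (hP : 0 < P) (s b : ℕ → ℕ) (h0 : s 0 ≤ p)
    (hs : ∀ i, s (i + 1) + K * b i ≤ P * s i) : ∃ i ≤ P, K * b i ≤ p * P ^ i := by
  by_contra hh
  push Not at hh
  have key : ∀ i, i ≤ P + 1 → P * s i + i * (p * P ^ i) ≤ P * (p * P ^ i) := by
    intro i
    induction i with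
    | zero => intro _; simpa using Nat.mul_le_mul_left P h0
    | succ i ih =>
      intro hi
      have h1 := ih (by omega)
      have h2 := hh i (by omega)
      have h3 := hs i
      rw [show p * P ^ (i + 1) = P * (p * P ^ i) by ring]
      generalize p * P ^ i = W at *
      have h4 : s (i + 1) + (i + 1) * W ≤ P * W := by
        rw [add_mul, one_mul]; omega
      calc P * s (i + 1) + (i + 1) * (P * W) = P * (s (i + 1) + (i + 1) * W) := by ring
        _ ≤ P * (P * W) := Nat.mul_le_mul_left _ h4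
  have h5 := key (P + 1) le_rfl
  have h6 : 0 < p * P ^ (P + 1) := Nat.mul_pos hp (pow_pos hP _)
  rw [add_mul, one_mul] at h5
  omega

lemma sum_fib_le (X Y : Finset ℕ) (g : ℕ → ℕ) : ∑ y ∈ Y, #{n ∈ X | g n = y} ≤ #X := by
  rw [sum_card_fiberwise_eq_card_filter]
  exact card_filter_le _ _

lemma image_le (M K : ℕ) (X : Finset ℕ) (g : ℕ → ℕ) (hg : ∀ n ∈ X, g n < M) :
    K * #(X.image g) ≤
      K * #{y ∈ range M | 1 ≤ #{n ∈ X | g n = y} ∧ #{n ∈ X | g n = y} ≤ K} + #X := by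
  have h1 : X.image g ⊆ {y ∈ range M | 1 ≤ #{n ∈ X | g n = y} ∧ #{n ∈ X | g n = y} ≤ K}
      ∪ {y ∈ range M | K ≤ #{n ∈ X | g n = y}} := by
    intro y hy
    obtain ⟨n, hn, rfl⟩ := mem_image.1 hy
    have h2 : 1 ≤ #{n' ∈ X | g n' = g n} := card_pos.2 ⟨n, mem_filter.2 ⟨hn, rfl⟩⟩
    have h3 := mem_range.2 (hg n hn)
    rcases le_total #{n' ∈ X | g n' = g n} K with h | h
    · exact mem_union_left _ (mem_filter.2 ⟨h3, h2, h⟩)
    · exact mem_union_right _ (mem_filter.2 ⟨h3, h⟩)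
  have h2 : K * #{y ∈ range M | K ≤ #{n ∈ X | g n = y}} ≤ #X := by
    refine le_trans ?_ (sum_fib_le X {y ∈ range M | K ≤ #{n ∈ X | g n = y}} g)
    rw [mul_comm, ← smul_eq_mul, ← sum_const]
    exact sum_le_sum fun y hy => (mem_filter.1 hy).2
  have h3 := Nat.mul_le_mul_left K ((card_le_card h1).trans (card_union_le _ _))
  rw [mul_add] at h3
  omega

variable {p : ℕ} [hp : Fact p.Prime]

lemma count (h3 : 3 ≤ p) (σ : ℕ) : ∃ j ≤ p ^ (8 * 2 ^ σ), ∃ Y : Finset ℕ,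
    2 ^ σ * #Y ≤ 2 * p ^ (j + 1) ∧ ∀ n, p ^ j ≤ n → n < p ^ (j + 1) → ∀ c : ℤ_[p], S j n c →
      (PadicInt.toZModPow (j + 1) c).val ∈ Y := by
  have hex : ∀ j n : ℕ, ∃ y : ℕ, n < p ^ (j + 1) → y < p ^ (j + 1) ∧
      ∀ c : ℤ_[p], S j n c ↔ (PadicInt.toZModPow (j + 1) c).val = y := by
    intro j n
    by_cases hn : n < p ^ (j + 1)
    · obtain ⟨y, hy⟩ := exists_res j n hn
      exact ⟨y, fun _ => hy⟩
    · exact ⟨0, fun h => absurd h hn⟩
  choose g hg using hex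
  have hp0 : 0 < p := by omega
  have hnat : ∀ j n y : ℕ, n < p ^ (j + 1) → (S j n (y : ℤ_[p]) ↔ y % p ^ (j + 1) = g j n) := by
    intro j n y hn
    rw [(hg j n hn).2, map_natCast, ZMod.val_natCast]
  have hself : ∀ j n : ℕ, n < p ^ (j + 1) → S j n ((g j n : ℕ) : ℤ_[p]) := by
    intro j n hn
    rw [hnat j n _ hn, Nat.mod_eq_of_lt (hg j n hn).1]
  obtain ⟨a, ha⟩ : ∃ a, a + 1 = 2 ^ (σ + 1) :=
    ⟨2 ^ (σ + 1) - 1, Nat.sub_add_cancel Nat.one_le_two_pow⟩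
  obtain ⟨r, hr⟩ : ∃ r, r = 2 * a := ⟨_, rfl⟩
  have hP : 0 < p ^ r := pow_pos hp0 r
  have hdiv : ∀ j m : ℕ, m ∈ Ico (p ^ (j + r)) (p ^ (j + r + 1)) ↔
      m / p ^ r ∈ Ico (p ^ j) (p ^ (j + 1)) := by
    intro j m
    rw [mem_Ico, mem_Ico, Nat.le_div_iff_mul_le hP, Nat.div_lt_iff_lt_mul hP, ← pow_add,
      ← pow_add, show j + 1 + r = j + r + 1 by ring]
  have hcomp : ∀ j : ℕ, ∀ m ∈ Ico (p ^ (j + r)) (p ^ (j + r + 1)),
      g j (m / p ^ r) = g (j + r) m % p ^ (j + 1) := by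
    intro j m hm
    have h1 := S_anc r (hself (j + r) m (mem_Ico.1 hm).2)
    exact ((hnat j _ _ (mem_Ico.1 ((hdiv j m).1 hm)).2).1 h1).symm
  have hblock : ∀ j : ℕ,
      ∑ y' ∈ range (p ^ (j + r + 1)),
          min #{m ∈ Ico (p ^ (j + r)) (p ^ (j + r + 1)) | g (j + r) m = y'} (2 ^ σ)
        + 2 ^ σ * #{y ∈ range (p ^ (j + 1)) | 1 ≤ #{n ∈ Ico (p ^ j) (p ^ (j + 1)) | g j n = y} ∧
          #{n ∈ Ico (p ^ j) (p ^ (j + 1)) | g j n = y} ≤ 2 ^ σ}
      ≤ p ^ r * ∑ y ∈ range (p ^ (j + 1)),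
          min #{n ∈ Ico (p ^ j) (p ^ (j + 1)) | g j n = y} (2 ^ σ) := by
    intro j
    have e : p ^ (j + r + 1) = p ^ (j + 1) * p ^ r := by ring
    have hb := block (p ^ (j + 1)) (p ^ r) (2 ^ σ) (pow_pos hp0 _) hP (Ico (p ^ j) (p ^ (j + 1)))
      (Ico (p ^ (j + r)) (p ^ (j + r + 1))) (g j) (g (j + r)) (fun m hm => (hdiv j m).1 hm)
      (hcomp j) (by
        intro n hn
        obtain ⟨T, hT, hT1, hT2⟩ := cluster_desc (p := p) h3 (σ + 1) a n ha
        rw [← hr] at hT1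
        have hTX : ∀ t ∈ T, t ∈ Ico (p ^ (j + r)) (p ^ (j + r + 1)) := by
          intro t ht
          rw [hdiv, hT1 t ht]; exact hn
        obtain ⟨t0, ht0⟩ : T.Nonempty := card_pos.1 (by rw [hT]; positivity)
        have ht0' := (mem_Ico.1 (hTX t0 ht0)).2
        refine ⟨g (j + r) t0, e ▸ (hg _ _ ht0').1, ?_, ?_⟩
        · rw [← hcomp j t0 (hTX t0 ht0), hT1 t0 ht0]
        · rw [← pow_succ', ← hT]
          apply card_le_card
          intro t ht
          refine mem_filter.2 ⟨hTX t ht, ?_⟩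
          have h1 := S_of_close (hself _ _ ht0') (hT2 t0 ht0 t ht)
          rw [hnat _ _ _ (mem_Ico.1 (hTX t ht)).2, Nat.mod_eq_of_lt (hg _ _ ht0').1] at h1
          exact h1.symm)
    rw [← e] at hb
    exact hb
  obtain ⟨i, hi, hb⟩ := iterate p (p ^ r) (2 ^ σ) hp0 hP
    (fun i => ∑ y ∈ range (p ^ (i * r + 1)),
      min #{n ∈ Ico (p ^ (i * r)) (p ^ (i * r + 1)) | g (i * r) n = y} (2 ^ σ))
    (fun i => #{y ∈ range (p ^ (i * r + 1)) |
      1 ≤ #{n ∈ Ico (p ^ (i * r)) (p ^ (i * r + 1)) | g (i * r) n = y} ∧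
      #{n ∈ Ico (p ^ (i * r)) (p ^ (i * r + 1)) | g (i * r) n = y} ≤ 2 ^ σ})
    (by
      refine (sum_le_sum fun _ _ => min_le_left _ _).trans ((sum_fib_le _ _ _).trans ?_)
      simp)
    (by
      intro i
      have := hblock (i * r)
      rw [add_mul, one_mul]
      exact this)
  refine ⟨i * r, ?_, (Ico (p ^ (i * r)) (p ^ (i * r + 1))).image (g (i * r)), ?_, ?_⟩
  · have h1 : r ≤ p ^ r := (Nat.lt_pow_self (by omega)).le
    calc i * r ≤ p ^ r * p ^ r := Nat.mul_le_mul hi h1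
      _ = p ^ (r + r) := by rw [pow_add]
      _ ≤ p ^ (8 * 2 ^ σ) := Nat.pow_le_pow_right hp0 (by rw [pow_succ] at ha; omega)
  · have h1 := image_le (p ^ (i * r + 1)) (2 ^ σ) (Ico (p ^ (i * r)) (p ^ (i * r + 1)))
      (g (i * r)) (fun n hn => (hg _ _ (mem_Ico.1 hn).2).1)
    have h2 : p * (p ^ r) ^ i = p ^ (i * r + 1) := by ring
    rw [h2] at hb
    rw [Nat.card_Ico] at h1
    omega
  · intro n h1 h2 c hc
    exact mem_image.2 ⟨n, mem_Ico.2 ⟨h1, h2⟩, (((hg _ _ h2).2 c).1 hc).symm⟩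

end Pool.Agent.MP_3792c7_nt.Null
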