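import Mathlib
import Pool.Agent.MP_3792c7_nt.Null2

/-! The measure bound. -/

namespace Pool.Agent.MP_3792c7_nt.Null

open Finset MeasureTheory

variable {p : ℕ} [hp : Fact p.Prime] [MeasurableSpace ℤ_[p]] [BorelSpace ℤ_[p]]

lemma meas_fibre (k : ℕ) (z : ZMod (p ^ k)) :
    MeasurableSet ((PadicInt.toZModPow (p := p) k) ⁻¹' {z}) := by
  have : NeZero (p ^ k) := ⟨pow_ne_zero _ hp.out.ne_zero⟩
  have e : (PadicInt.toZModPow (p := p) k) ⁻¹' {z}
      = Metric.closedBall ((z.val : ℕ) : ℤ_[p]) ((p : ℝ) ^ (-k : ℤ)) := by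
    ext c
    rw [Set.mem_preimage, Set.mem_singleton_iff, Metric.mem_closedBall, dist_eq_norm,
      PadicInt.norm_le_pow_iff_mem_span_pow, ← PadicInt.ker_toZModPow, RingHom.mem_ker, map_sub,
      map_natCast, ZMod.natCast_zmod_val, sub_eq_zero]
  rw [e]
  exact Metric.isClosed_closedBall.measurableSet

lemma fibre_eq (μ : Measure ℤ_[p]) [μ.IsAddLeftInvariant] (k : ℕ) (z : ZMod (p ^ k)) :
    μ ((PadicInt.toZModPow (p := p) k) ⁻¹' {z}) = μ ((PadicInt.toZModPow (p := p) k) ⁻¹' {0}) := by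
  have : NeZero (p ^ k) := ⟨pow_ne_zero _ hp.out.ne_zero⟩
  rw [← measure_preimage_add μ ((z.val : ℕ) : ℤ_[p])]
  congr 1
  ext c
  simp only [Set.mem_preimage, Set.mem_singleton_iff, map_add, map_natCast, ZMod.natCast_zmod_val,
    add_eq_left]

lemma fibre_total (μ : Measure ℤ_[p]) [IsProbabilityMeasure μ] [μ.IsAddLeftInvariant] (k : ℕ) :
    ((p ^ k : ℕ) : ENNReal) * μ ((PadicInt.toZModPow (p := p) k) ⁻¹' {0}) = 1 := by
  have : NeZero (p ^ k) := ⟨pow_ne_zero _ hp.out.ne_zero⟩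
  have h := sum_measure_preimage_singleton (μ := μ) (univ : Finset (ZMod (p ^ k)))
    (f := PadicInt.toZModPow (p := p) k) (fun z _ => meas_fibre k z)
  rw [sum_congr rfl (fun z _ => fibre_eq μ k z), sum_const, card_univ, ZMod.card, nsmul_eq_mul,
    coe_univ, Set.preimage_univ, measure_univ] at h
  exact h

lemma meas_bound (h3 : 3 ≤ p) (μ : Measure ℤ_[p]) [IsProbabilityMeasure μ] [μ.IsAddLeftInvariant]
    (σ j : ℕ) (hj : p ^ (8 * 2 ^ σ) ≤ j) :
    μ {c : ℤ_[p] | ∃ n : ℕ, p ^ j ≤ n ∧ S (Nat.log p n) n c} ≤ ENNReal.ofReal (2 / 2 ^ σ) := by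
  obtain ⟨i, hi, Y, hY, hS⟩ := count (p := p) h3 σ
  have : NeZero (p ^ (i + 1)) := ⟨pow_ne_zero _ hp.out.ne_zero⟩
  have hp1 : 1 < p := by omega
  have hsub : {c : ℤ_[p] | ∃ n : ℕ, p ^ j ≤ n ∧ S (Nat.log p n) n c} ⊆
      ⋃ y ∈ Y, (PadicInt.toZModPow (p := p) (i + 1)) ⁻¹' {((y : ℕ) : ZMod (p ^ (i + 1)))} := by
    rintro c ⟨n, hn, hc⟩
    have hn0 : n ≠ 0 := by
      have := pow_pos hp.out.pos j
      omega
    have h1 : i ≤ Nat.log p n := (hi.trans hj).trans (Nat.le_log_of_pow_le hp1 hn)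
    obtain ⟨r, hr⟩ := Nat.exists_eq_add_of_le h1
    have h2 := Nat.pow_log_le_self p hn0
    have h4 := Nat.lt_pow_succ_log_self hp1 n
    rw [hr] at hc h2 h4
    have hP : 0 < p ^ r := pow_pos hp.out.pos r
    have h5 := hS (n / p ^ r) (by rw [Nat.le_div_iff_mul_le hP, ← pow_add]; exact h2)
      (by rw [Nat.div_lt_iff_lt_mul hP, ← pow_add, show i + 1 + r = (i + r).succ by omega]
          exact h4) c (S_anc r hc)
    refine Set.mem_biUnion h5 ?_
    rw [Set.mem_preimage, Set.mem_singleton_iff, ZMod.natCast_zmod_val]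
  have h6 := (measure_mono hsub).trans (measure_biUnion_finset_le (μ := μ) Y _)
  rw [sum_congr rfl (fun y _ => fibre_eq μ (i + 1) _), sum_const, nsmul_eq_mul] at h6
  have h7 := fibre_total μ (i + 1)
  have h8 : ((2 ^ σ : ℕ) : ENNReal) * (#Y : ENNReal) ≤ 2 * ((p ^ (i + 1) : ℕ) : ENNReal) := by
    exact_mod_cast hY
  have h9 : ((2 ^ σ : ℕ) : ENNReal) * μ {c : ℤ_[p] | ∃ n : ℕ, p ^ j ≤ n ∧ S (Nat.log p n) n c}
      ≤ 2 := by
    calc _ ≤ ((2 ^ σ : ℕ) : ENNReal) * ((#Y : ENNReal) *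
            μ ((PadicInt.toZModPow (p := p) (i + 1)) ⁻¹' {0})) := by gcongr
      _ ≤ 2 * ((p ^ (i + 1) : ℕ) : ENNReal) *
            μ ((PadicInt.toZModPow (p := p) (i + 1)) ⁻¹' {0}) := by
          rw [← mul_assoc]; gcongr
      _ = 2 := by rw [mul_assoc, h7, mul_one]
  rw [ENNReal.ofReal_div_of_pos (by positivity), ENNReal.le_div_iff_mul_le, mul_comm]
  · have e1 : ENNReal.ofReal (2 ^ σ) = ((2 ^ σ : ℕ) : ENNReal) := by
      rw [← ENNReal.ofReal_natCast]; push_cast; rfl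
    have e2 : ENNReal.ofReal 2 = 2 := by simp
    rw [e1, e2]
    exact h9
  · left
    rw [Ne, ENNReal.ofReal_eq_zero, not_le]
    positivity
  · left
    exact ENNReal.ofReal_ne_top

lemma main (h3 : 3 ≤ p) (μ : Measure ℤ_[p]) [IsProbabilityMeasure μ] [μ.IsAddLeftInvariant]
    (j : ℕ) (hj : 2 ≤ j) :
    μ {c : ℤ_[p] | ∃ n : ℕ, p ^ j ≤ n ∧ S (Nat.log p n) n c}
      ≤ ENNReal.ofReal (32 * Real.log p / Real.log j) := by
  have hp1 : 1 < p := by omega
  have hlj : 0 < Real.log j := Real.log_pos (by exact_mod_cast hj)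
  have hlp : 0 < Real.log p := Real.log_pos (by exact_mod_cast hp1)
  have hup : ∀ e : ℕ, Nat.log p j + 1 ≤ e → Real.log j ≤ e * Real.log p := by
    intro e he
    have h1 : j ≤ p ^ e :=
      (Nat.lt_pow_succ_log_self hp1 j).le.trans (Nat.pow_le_pow_right (by omega) he)
    rw [← Real.log_pow]
    exact Real.log_le_log (by exact_mod_cast (by omega : 0 < j)) (by exact_mod_cast h1)
  by_cases hL : Nat.log p j < 8
  · refine prob_le_one.trans ?_
    rw [← ENNReal.ofReal_one]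
    apply ENNReal.ofReal_le_ofReal
    have := hup 8 (by omega)
    rw [le_div_iff₀ hlj]
    push_cast at this
    linarith
  · obtain ⟨σ, hσ⟩ : ∃ σ, σ = Nat.log 2 (Nat.log p j / 8) := ⟨_, rfl⟩
    have h1 : 2 ^ σ ≤ Nat.log p j / 8 := hσ ▸ Nat.pow_log_le_self 2 (by omega)
    have h2 : Nat.log p j / 8 < 2 ^ (σ + 1) := hσ ▸ Nat.lt_pow_succ_log_self (by norm_num) _
    rw [pow_succ] at h2
    have h4 : p ^ (8 * 2 ^ σ) ≤ j :=
      (Nat.pow_le_pow_right (by omega) (by omega)).trans (Nat.pow_log_le_self p (by omega))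
    refine (meas_bound h3 μ σ j h4).trans (ENNReal.ofReal_le_ofReal ?_)
    have h5 := hup (16 * 2 ^ σ) (by omega)
    push_cast at h5
    rw [div_le_div_iff₀ (by positivity) hlj]
    linarith

end Pool.Agent.MP_3792c7_nt.Null
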