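import Pool.Agent.MP_3792c7_nt.Zero

/-! The discrete Stepanov lemma for the pair of harmonic sums of orders one and two. -/

set_option autoImplicit false

namespace Pool.Agent.MP_3792c7_nt

open Polynomial Finset

section
variable (F : Type) [Field F]

/-- `(X+1)...(X+j)`. -/
noncomputable def QP : ℕ → F[X]
  | 0 => 1
  | j + 1 => QP j * (X + C ((j + 1 : ℕ) : F))

/-- Numerator of `∑ 1/(X+i)`. -/
noncomputable def UP : ℕ → F[X]
  | 0 => 0
  | j + 1 => UP j * (X + C ((j + 1 : ℕ) : F)) + QP F j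

/-- Numerator of `∑ 1/(X+i)^2`. -/
noncomputable def VP : ℕ → F[X]
  | 0 => 0
  | j + 1 => VP j * (X + C ((j + 1 : ℕ) : F)) ^ 2 + QP F j ^ 2

theorem QP_deg (j : ℕ) : (QP F j).natDegree ≤ j := by
  induction j with
  | zero => simp [QP]
  | succ j ih =>
    rw [QP]
    refine natDegree_mul_le.trans ?_
    rw [natDegree_X_add_C]; omega

theorem UP_deg (j : ℕ) : (UP F j).natDegree ≤ j := by
  induction j with
  | zero => simp [UP]
  | succ j ih =>
    rw [UP]
    refine (natDegree_add_le _ _).trans (max_le ?_ ((QP_deg F j).trans (by omega)))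
    refine natDegree_mul_le.trans ?_
    rw [natDegree_X_add_C]; omega

theorem VP_deg (j : ℕ) : (VP F j).natDegree ≤ 2 * j := by
  induction j with
  | zero => simp [VP]
  | succ j ih =>
    rw [VP]
    refine (natDegree_add_le _ _).trans (max_le ?_ ?_)
    · refine natDegree_mul_le.trans ?_
      have := natDegree_pow_le (p := (X + C ((j + 1 : ℕ) : F))) (n := 2)
      rw [natDegree_X_add_C] at this; omega
    · have := natDegree_pow_le (p := QP F j) (n := 2)
      have := QP_deg F j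
      omega

variable {F}

theorem map_QUV {L : Type} [Field L] (ψ : F[X] →+* L) (j : ℕ)
    (h : ∀ i < j, ψ (X + C ((i + 1 : ℕ) : F)) ≠ 0) :
    ψ (QP F j) ≠ 0 ∧
    ψ (UP F j) = ψ (QP F j) * ∑ i ∈ range j, (ψ (X + C ((i + 1 : ℕ) : F)))⁻¹ ∧
    ψ (VP F j) = ψ (QP F j) ^ 2 * ∑ i ∈ range j, (ψ (X + C ((i + 1 : ℕ) : F)))⁻¹ ^ 2 := by
  induction j with
  | zero => simp [QP, UP, VP]
  | succ j ih =>
    obtain ⟨h1, h2, h3⟩ := ih (fun i hi => h i (by omega))
    have h4 := h j (by omega)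
    rw [QP, UP, VP, sum_range_succ, sum_range_succ]
    simp only [map_mul, map_add ψ (UP F j * _), map_add ψ (VP F j * _), map_pow, h2, h3]
    refine ⟨mul_ne_zero h1 h4, ?_, ?_⟩ <;> field_simp

/-- All coefficients have degree at most `n` in the innermost variable. -/
def XB (n : ℕ) (f : F[X][X][X]) : Prop := ∀ b c, ((f.coeff b).coeff c).natDegree ≤ n

theorem XB.mono {n m : ℕ} {f : F[X][X][X]} (h : XB n f) (hnm : n ≤ m) : XB m f :=
  fun b c => (h b c).trans hnm

theorem XB.add {n : ℕ} {f g : F[X][X][X]} (hf : XB n f) (hg : XB n g) : XB n (f + g) := by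
  intro b c
  simp only [coeff_add]
  exact (natDegree_add_le _ _).trans (max_le (hf b c) (hg b c))

theorem XB.mul {n m : ℕ} {f g : F[X][X][X]} (hf : XB n f) (hg : XB m g) :
    XB (n + m) (f * g) := by
  intro b c
  rw [coeff_mul, finsetSum_coeff]
  refine natDegree_sum_le_of_forall_le _ _ (fun x _ => ?_)
  rw [coeff_mul]
  refine natDegree_sum_le_of_forall_le _ _ (fun y _ => ?_)
  exact natDegree_mul_le.trans (add_le_add (hf _ _) (hg _ _))

theorem XB_CC {n : ℕ} {r : F[X]} (h : r.natDegree ≤ n) : XB n (C (C r)) := by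
  intro b c
  rw [coeff_C]
  split_ifs
  · rw [coeff_C]; split_ifs
    · exact h
    · simp
  · simp

theorem XB.pow {n : ℕ} {f : F[X][X][X]} (hf : XB n f) (k : ℕ) : XB (k * n) (f ^ k) := by
  induction k with
  | zero =>
    have : XB 0 (C (C (1 : F[X]))) := XB_CC (by simp)
    simpa using this
  | succ k ih =>
    rw [pow_succ, add_mul, one_mul]; exact ih.mul hf

theorem XB_X : XB 0 (X : F[X][X][X]) := by
  intro b c
  rw [coeff_X]
  split_ifs
  · rw [coeff_one]; split_ifs <;> simp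
  · simp

theorem XB_CX : XB 0 (C X : F[X][X][X]) := by
  intro b c
  rw [coeff_C]
  split_ifs
  · rw [coeff_X]; split_ifs <;> simp
  · simp

theorem XB_sum {ι : Type} {n : ℕ} (s : Finset ι) (f : ι → F[X][X][X])
    (h : ∀ i ∈ s, XB n (f i)) : XB n (∑ i ∈ s, f i) := by
  intro b c
  rw [finsetSum_coeff, finsetSum_coeff]
  exact natDegree_sum_le_of_forall_le _ _ (fun i hi => h i hi b c)

/-- The shifted auxiliary polynomial with denominators cleared. -/
noncomputable def PP (N : ℕ) (a : Fin N × Fin N → F[X]) (j : ℕ) : F[X][X][X] :=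
  ∑ q : Fin N × Fin N,
    C (C (taylor (j : F) (a q) * QP F j ^ (3 * N - q.1 - 2 * q.2))) *
      (C (C (QP F j)) * X + C (C (UP F j))) ^ (q.1 : ℕ) *
      (C (C (QP F j ^ 2)) * C X + C (C (VP F j))) ^ (q.2 : ℕ)

theorem PP_XB (N A : ℕ) (a : Fin N × Fin N → F[X]) (ha : ∀ q, (a q).natDegree ≤ A) (j : ℕ) :
    XB (A + 3 * N * j) (PP N a j) := by
  refine XB_sum _ _ (fun q _ => ?_)
  have h1 : XB (A + (3 * N - q.1 - 2 * q.2) * j)
      (C (C (taylor (j : F) (a q) * QP F j ^ (3 * N - q.1 - 2 * q.2)))) := by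
    apply XB_CC
    refine natDegree_mul_le.trans (add_le_add ?_ ?_)
    · rw [natDegree_taylor]; exact ha q
    · exact natDegree_pow_le.trans (Nat.mul_le_mul_left _ (QP_deg F j))
  have h2 : XB j (C (C (QP F j)) * X + C (C (UP F j))) :=
    ((XB_CC (QP_deg F j)).mul XB_X).add (XB_CC (UP_deg F j))
  have h3 : XB (2 * j) (C (C (QP F j ^ 2)) * C X + C (C (VP F j))) :=
    ((XB_CC (natDegree_pow_le.trans (Nat.mul_le_mul_left _ (QP_deg F j)))).mul XB_CX).add
      (XB_CC (VP_deg F j))
  refine ((h1.mul (h2.pow q.1)).mul (h3.pow q.2)).mono (le_of_eq ?_)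
  have e : 3 * N = (3 * N - q.1 - 2 * q.2) + q.1 + 2 * q.2 := by
    have := q.1.2; have := q.2.2; omega
  generalize 3 * N - q.1 - 2 * q.2 = e' at *
  rw [e]; ring

theorem PP_map {L : Type} [Field L] (ψ : F[X] →+* L) (N : ℕ) (a : Fin N × Fin N → F[X]) (j : ℕ)
    (u v : L) (hu : ψ (UP F j) = ψ (QP F j) * u) (hv : ψ (VP F j) = ψ (QP F j) ^ 2 * v) :
    (PP N a j).map (mapRingHom ψ) =
      ψ (QP F j) ^ (3 * N) • ∑ q : Fin N × Fin N, term (ψ (taylor (j : F) (a q))) u v q.1 q.2 := by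
  rw [PP, Polynomial.map_sum, smul_sum]
  refine sum_congr rfl (fun q _ => ?_)
  have e : 3 * N = (3 * N - q.1 - 2 * q.2) + q.1 + 2 * q.2 := by
    have := q.1.2; have := q.2.2; omega
  generalize 3 * N - q.1 - 2 * q.2 = e' at *
  rw [e, smul_eq_CC, term]
  simp only [Polynomial.map_mul, Polynomial.map_pow, Polynomial.map_add, map_C, map_X,
    coe_mapRingHom, map_mul, map_pow, hu, hv, map_add]
  generalize C (C (ψ (QP F j))) = Q
  rw [show Q * X + Q * C (C u) = Q * (X + C (C u)) by ring,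
    show Q ^ 2 * C X + Q ^ 2 * C (C v) = Q ^ 2 * (C X + C (C v)) by ring, mul_pow, mul_pow]
  ring

end

/-- Harmonic sums modulo `p`. -/
noncomputable def h1 (p : ℕ) [Fact p.Prime] (x : ℕ) : ZMod p :=
  ∑ i ∈ range x, (((i + 1 : ℕ) : ZMod p))⁻¹

/-- Second order harmonic sums modulo `p`. -/
noncomputable def h2 (p : ℕ) [Fact p.Prime] (x : ℕ) : ZMod p :=
  ∑ i ∈ range x, (((i + 1 : ℕ) : ZMod p))⁻¹ ^ 2

theorem eval_QUV (p : ℕ) [Fact p.Prime] (x j : ℕ) (h : x + j < p) :
    (QP (ZMod p) j).eval (x : ZMod p) ≠ 0 ∧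
    (UP (ZMod p) j).eval (x : ZMod p) =
      (QP (ZMod p) j).eval (x : ZMod p) * (h1 p (x + j) - h1 p x) ∧
    (VP (ZMod p) j).eval (x : ZMod p) =
      (QP (ZMod p) j).eval (x : ZMod p) ^ 2 * (h2 p (x + j) - h2 p x) := by
  have e : ∀ i : ℕ, evalRingHom (x : ZMod p) (X + C ((i + 1 : ℕ) : ZMod p)) =
      ((x + i + 1 : ℕ) : ZMod p) := by
    intro i; simp [add_assoc]
  have := map_QUV (evalRingHom (x : ZMod p)) j (by
    intro i hi
    rw [e, Ne, ZMod.natCast_eq_zero_iff]
    exact Nat.not_dvd_of_pos_of_lt (by omega) (by omega))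
  simp only [e, coe_evalRingHom] at this
  rw [h1, h2, sum_range_add, sum_range_add, h1, h2, add_sub_cancel_left, add_sub_cancel_left]
  exact this

theorem sum_shift (p : ℕ) [Fact p.Prime] {M : Type} [AddCommMonoid M] (g : ZMod p → M) :
    ∑ i ∈ range p, g ((i + 1 : ℕ) : ZMod p) = ∑ c, g c := by
  have hp := (Fact.out : p.Prime).pos
  have : ∑ i ∈ range p, g ((i + 1 : ℕ) : ZMod p) = ∑ c : ZMod p, g (c + 1) := by
    refine sum_bij (fun i _ => (i : ZMod p)) (fun _ _ => mem_univ _) ?_ ?_ ?_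
    · intro i hi j hj h
      have := (ZMod.natCast_eq_natCast_iff' i j p).mp h
      rwa [Nat.mod_eq_of_lt (mem_range.mp hi), Nat.mod_eq_of_lt (mem_range.mp hj)] at this
    · intro c _
      exact ⟨c.val, mem_range.mpr (ZMod.val_lt c), ZMod.natCast_zmod_val c⟩
    · intro i _; simp
  rw [this]
  exact Fintype.sum_equiv (Equiv.addRight 1) _ _ (fun _ => rfl)

theorem sum_pow_eq_zero (p : ℕ) [Fact p.Prime] :
    ∑ c : ZMod p, (X + C c : (ZMod p)[X]) ^ (p - 2) = 0 := by
  have hp := (Fact.out : p.Prime).two_le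
  ext k
  rw [finsetSum_coeff]
  simp only [coeff_X_add_C_pow, coeff_zero]
  rw [← sum_mul, FiniteField.sum_pow_lt_card_sub_one, zero_mul]
  rw [ZMod.card]; omega

theorem step (p : ℕ) [Fact p.Prime] (N A D : ℕ) (hN : 1 ≤ N)
    (hdim : D * (A + 3 * N * D + 1) < N ^ 2 * A) (a b : ZMod p) (X0 : Finset ℕ)
    (hX : ∀ x ∈ X0, x + N ^ 2 < p ∧ ∀ j < N ^ 2, ∃ n, n ≤ x + j ∧ x + j < n + D ∧
      h1 p n = a ∧ h2 p n = b) :
    X0.card ≤ (N ^ 2 + 1) * (A + 3 * N * N ^ 2) := by
  classical
  have hpp := (Fact.out : p.Prime)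
  by_cases hbig : p ≤ (N ^ 2 + 1) * (A + 3 * N * N ^ 2)
  · refine le_trans ?_ hbig
    calc X0.card ≤ (range p).card := card_le_card (fun x hx => mem_range.mpr (by
          have := (hX x hx).1; omega))
      _ = p := card_range p
  push Not at hbig
  have hNp : N ≤ p := by
    have h1 : N ≤ A + 3 * N * N ^ 2 := by
      have : 1 ≤ N ^ 2 := Nat.one_le_pow _ _ hN
      nlinarith
    have h2 : A + 3 * N * N ^ 2 ≤ (N ^ 2 + 1) * (A + 3 * N * N ^ 2) :=
      Nat.le_mul_of_pos_left _ (by omega)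
    omega
  -- the auxiliary polynomial
  let f : Fin D → (Fin N × Fin N → degreeLT (ZMod p) A) →ₗ[ZMod p] (ZMod p)[X] := fun j =>
    ∑ q : Fin N × Fin N, (LinearMap.mulRight (ZMod p) (QP (ZMod p) j ^ (3 * N - q.1 - 2 * q.2) *
      UP (ZMod p) j ^ (q.1 : ℕ) * VP (ZMod p) j ^ (q.2 : ℕ))).comp
      ((taylor ((j : ℕ) : ZMod p)).comp ((degreeLT (ZMod p) A).subtype.comp (LinearMap.proj q)))
  have hf : ∀ j w, f j w = ∑ q : Fin N × Fin N, taylor ((j : ℕ) : ZMod p) (w q : (ZMod p)[X]) *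
      (QP (ZMod p) j ^ (3 * N - q.1 - 2 * q.2) *
      UP (ZMod p) j ^ (q.1 : ℕ) * VP (ZMod p) j ^ (q.2 : ℕ)) := by
    intro j w; simp [f, LinearMap.sum_apply, mul_assoc]
  obtain ⟨w, hw0, hw⟩ := siegel f (A + 3 * N * D + 1) (by
      intro j w
      rw [hf, Nat.lt_succ_iff]
      refine natDegree_sum_le_of_forall_le _ _ (fun q _ => ?_)
      refine natDegree_mul_le.trans (add_le_add ?_ ?_)
      · rw [natDegree_taylor]; exact natDegree_le_of_mem_degreeLT _
      · have e : 3 * N = (3 * N - q.1 - 2 * q.2) + q.1 + 2 * q.2 := by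
          have := q.1.2; have := q.2.2; omega
        generalize 3 * N - q.1 - 2 * q.2 = e' at *
        have a1 := natDegree_pow_le.trans (Nat.mul_le_mul_left e' (QP_deg (ZMod p) j))
        have a2 := natDegree_pow_le.trans (Nat.mul_le_mul_left q.1 (UP_deg (ZMod p) j))
        have a3 := natDegree_pow_le.trans (Nat.mul_le_mul_left q.2 (VP_deg (ZMod p) j))
        refine (natDegree_mul_le.trans (add_le_add (natDegree_mul_le.trans (add_le_add a1 a2))
          a3)).trans ?_
        have : (j : ℕ) ≤ D := j.2.le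
        calc e' * j + q.1 * j + q.2 * (2 * j) = 3 * N * j := by rw [e]; ring
          _ ≤ 3 * N * D := Nat.mul_le_mul_left _ this) (by
      rw [finrank_pi_degreeLT]
      simpa [sq] using hdim)
  let c : Fin N × Fin N → (ZMod p)[X] := fun q => w q
  let Ψ : ℕ → ZMod p := fun x => ∑ q : Fin N × Fin N,
    (c q).eval (x : ZMod p) * (h1 p x - a) ^ (q.1 : ℕ) * (h2 p x - b) ^ (q.2 : ℕ)
  have hΨ : ∀ n x, n ≤ x → x < n + D → x < p → h1 p n = a → h2 p n = b → Ψ x = 0 := by
    intro n x hnx hxD hxp ha hb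
    obtain ⟨j, rfl⟩ : ∃ j, x = n + j := ⟨x - n, by omega⟩
    obtain ⟨e1, e2, e3⟩ := eval_QUV p n j hxp
    have h := congrArg (eval (n : ZMod p)) (hw ⟨j, by omega⟩)
    rw [hf, eval_finsetSum, eval_zero] at h
    apply mul_left_cancel₀ (pow_ne_zero (3 * N) e1)
    rw [mul_zero, ← h, mul_sum]
    refine sum_congr rfl (fun q _ => ?_)
    have e : 3 * N = (3 * N - q.1 - 2 * q.2) + q.1 + 2 * q.2 := by
      have := q.1.2; have := q.2.2; omega
    generalize 3 * N - q.1 - 2 * q.2 = e' at *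
    simp only [eval_mul, eval_pow, e2, e3, taylor_eval, ha, hb, c, e, mul_pow]
    push_cast
    ring
  -- the zero estimate
  let K := FractionRing (ZMod p)[X]
  let φ : (ZMod p)[X] →+* K := algebraMap _ _
  have hφ : Function.Injective φ := IsFractionRing.injective _ _
  have : CharP K p := charP_of_injective_ringHom hφ p
  have hy : ∀ x : ZMod p, φ (X + C x) ≠ 0 := by
    intro x h
    exact X_add_C_ne_zero x (hφ (by rw [h, map_zero]))
  let u : ℕ → K := fun j => ∑ i ∈ range j, (φ (X + C ((i + 1 : ℕ) : ZMod p)))⁻¹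
  let v : ℕ → K := fun j => ∑ i ∈ range j, (φ (X + C ((i + 1 : ℕ) : ZMod p)))⁻¹ ^ 2
  let Φ : ℕ → K[X][X] := fun j =>
    ∑ q : Fin N × Fin N, term (φ (taylor (j : ZMod p) (c q))) (u j) (v j) q.1 q.2
  have hsinj : Function.Injective (φ.comp (taylorAlgHom (1 : ZMod p)).toRingHom) :=
    hφ.comp (taylor_injective _)
  let s : K →+* K := IsFractionRing.lift hsinj
  have hs : ∀ r, s (φ r) = φ (taylor 1 r) := fun r => IsFractionRing.lift_algebraMap hsinj r
  have hsy : ∀ i : ℕ, s (φ (X + C ((i + 1 : ℕ) : ZMod p))) =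
      φ (X + C ((i + 1 + 1 : ℕ) : ZMod p)) := by
    intro i
    rw [hs]; congr 1
    simp only [map_add, taylor_X, taylor_C, Nat.cast_add, Nat.cast_one]; ring
  have hQ := fun j => map_QUV φ j (fun i _ => hy _)
  have hvp : v p ≠ 0 := by
    intro h
    have h2 : VP (ZMod p) p = 0 := hφ (by rw [(hQ p).2.2, map_zero]; simp only [v] at h; rw [h, mul_zero])
    obtain ⟨n, hn⟩ : ∃ n, p = n + 1 := ⟨p - 1, by have := hpp.pos; omega⟩
    have h3 : VP (ZMod p) (n + 1) = 0 := by rw [← hn]; exact h2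
    have h4 := congrArg (eval ((0 : ℕ) : ZMod p)) h3
    have h5 : ((n + 1 : ℕ) : ZMod p) = 0 := by rw [← hn]; simp
    rw [VP, h5] at h4
    have h6 := (eval_QUV p 0 n (by omega)).1
    simp at h4 h6
    exact h6 h4
  have huv : u p = -(φ (X ^ p - X)) * v p := by
    have h1 : ∀ x : ZMod p, (φ (X + C x))⁻¹ + φ (X ^ p - X) * (φ (X + C x))⁻¹ ^ 2 =
        φ ((X + C x) ^ (p - 2)) := by
      intro x
      have e : (X ^ p - X : (ZMod p)[X]) = (X + C x) ^ (p - 2) * (X + C x) ^ 2 - (X + C x) := by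
        rw [← pow_add, Nat.sub_add_cancel hpp.two_le, add_pow_char, ← C_pow, ZMod.pow_card]; ring
      rw [e, map_sub, map_mul, map_pow φ _ 2]
      have := hy x
      generalize φ (X + C x) = y at *
      have e1 : y * y⁻¹ = 1 := mul_inv_cancel₀ this
      generalize y⁻¹ = z at *
      generalize φ ((X + C x) ^ (p - 2)) = t
      linear_combination (t * (y * z + 1) - z) * e1
    have h2 : u p + φ (X ^ p - X) * v p = 0 := by
      simp only [u, v]
      rw [mul_sum, ← sum_add_distrib, sum_congr rfl (fun i _ => h1 _),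
        sum_shift p (fun x => φ ((X + C x) ^ (p - 2))), ← map_sum, sum_pow_eq_zero, map_zero]
    linear_combination h2
  obtain ⟨m, d, W, hm, hW0, hWd, hW⟩ := zero_est p φ hφ N (A + 3 * N * N ^ 2) hN hNp hbig Φ
    (fun j => Submodule.sum_mem _ (fun q _ => term_mem_box N _ _ _ _ _ q.1.2 q.2.2))
    (by
      intro h
      apply hw0
      funext q
      have h2 := congrArg (fun g => (g.coeff q.1).coeff q.2) h
      simp only [Φ, u, v, term, finsetSum_coeff, range_zero, sum_empty, map_zero, add_zero,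
        Nat.cast_zero, taylor_zero, coeff_mul_C, coeff_C_mul, coeff_X_pow, coeff_zero] at h2
      rw [sum_eq_single q] at h2
      · apply Subtype.ext
        apply hφ
        simpa [coeff_X_pow] using h2
      · intro q' _ hq
        by_cases h3 : (q.1 : ℕ) = q'.1
        · have h4 : (q.2 : ℕ) ≠ q'.2 := fun h4 => hq (Prod.ext (Fin.ext h3.symm) (Fin.ext h4.symm))
          simp [h3, coeff_X_pow, h4]
        · simp [h3]
      · simp)
    s (u 1) (v 1)
    (by
      intro j
      simp only [Φ, map_sum, tr_term]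
      refine sum_congr rfl (fun q _ => ?_)
      congr 1
      · rw [hs, taylor_taylor]; congr 2; push_cast; ring
      · simp only [u, map_sum, map_inv₀, hsy]
        rw [sum_range_succ' _ j]; simp
      · simp only [v, map_sum, map_inv₀, map_pow, hsy]
        rw [sum_range_succ' _ j]; simp)
    (u p) (v p)
    (by
      intro j
      simp only [Φ, map_sum, tr_term, RingHom.id_apply]
      refine sum_congr rfl (fun q _ => ?_)
      have e : ∀ i : ℕ, ((p + i + 1 : ℕ) : ZMod p) = ((i + 1 : ℕ) : ZMod p) := by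
        intro i; simp
      congr 1
      · simp
      · simp only [u]
        rw [add_comm j p, sum_range_add, add_comm]; simp only [e]
      · simp only [v]
        rw [add_comm j p, sum_range_add, add_comm]; simp only [e])
    hvp huv (PP N c) (fun j => φ (QP (ZMod p) j) ^ (3 * N))
    (fun j _ => pow_ne_zero _ (hQ j).1)
    (fun j => PP_map φ N c j _ _ (hQ j).2.1 (hQ j).2.2)
    (fun j hj => (PP_XB N A c (fun q => natDegree_le_of_mem_degreeLT _) j).mono
      (by have := Nat.mul_le_mul_left (3 * N) hj.le; omega))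
  have hroot : ∀ x ∈ X0, W.eval (x : ZMod p) = 0 := by
    intro x hx
    obtain ⟨hxp, hxj⟩ := hX x hx
    let E : (ZMod p)[X][X][X] →+* ZMod p :=
      (evalRingHom (h2 p x - b)).comp ((evalRingHom (C (h1 p x - a))).comp
        (mapRingHom (mapRingHom (evalRingHom (x : ZMod p)))))
    have hE : ∀ r : (ZMod p)[X], E (C (C r)) = r.eval (x : ZMod p) := by
      intro r; simp [E]
    have hEP : ∀ j < N ^ 2, E (PP N c j) = 0 := by
      intro j hj
      obtain ⟨n, hn1, hn2, hn3, hn4⟩ := hxj j hj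
      have h0 := hΨ n (x + j) hn1 hn2 (by omega) hn3 hn4
      obtain ⟨e1, e2, e3⟩ := eval_QUV p x j (by omega)
      have h := PP_map (evalRingHom (x : ZMod p)) N c j _ _ e2 e3
      simp only [E, RingHom.comp_apply, coe_mapRingHom, h, smul_eq_CC, map_mul, map_sum, term,
        map_pow, map_add, coe_evalRingHom, eval_C, eval_X, taylor_eval]
      apply mul_eq_zero_of_right
      rw [← h0]
      refine sum_congr rfl (fun q _ => ?_)
      push_cast
      congr 2 <;> ring_nf
    have := congrArg E hW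
    rw [map_sum, hE, sum_eq_zero] at this
    · exact this.symm
    · intro j _
      rw [map_mul, hEP j (lt_of_lt_of_le j.2 hm), mul_zero]
  calc X0.card ≤ W.roots.toFinset.card := by
        refine card_le_card_of_injOn (fun x => (x : ZMod p)) ?_ ?_
        · intro x hx
          simp only [mem_coe, Multiset.mem_toFinset, mem_roots hW0]
          exact hroot x hx
        · intro x hx y hy h
          have := (ZMod.natCast_eq_natCast_iff' x y p).mp h
          have h1 := (hX x hx).1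
          have h2 := (hX y hy).1
          rwa [Nat.mod_eq_of_lt (by omega), Nat.mod_eq_of_lt (by omega)] at this
    _ ≤ W.natDegree := (Multiset.toFinset_card_le _).trans (card_roots' W)
    _ ≤ _ := hWd

end Pool.Agent.MP_3792c7_nt
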