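import Mathlib
import Pool.Agent.MP_3792c7_nt.Null2

/-! Generalized harmonic numbers in the p-adic numbers: ancestors, Taylor expansion, fibres. -/

namespace Pool.Agent.MP_3792c7_nt.Sub

open Finset Pool.Agent.MP_3792c7_nt.Null

variable {p : ℕ} [hp : Fact p.Prime]

/-- Generalized harmonic number of order e. -/
noncomputable def He (p : ℕ) [Fact p.Prime] (e n : ℕ) : ℚ_[p] :=
  ∑ i ∈ range n, (((i + 1 : ℕ) : ℚ_[p]))⁻¹ ^ e

lemma He_succ (e n : ℕ) : He p e (n + 1) = He p e n + (((n + 1 : ℕ) : ℚ_[p]))⁻¹ ^ e :=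
  sum_range_succ _ _

lemma lt_add {x y : ℚ_[p]} (hx : ‖x‖ < 1) (hy : ‖y‖ < 1) : ‖x + y‖ < 1 :=
  lt_of_le_of_lt (Padic.nonarchimedean _ _) (max_lt hx hy)

lemma lt_sub {x y : ℚ_[p]} (hx : ‖x‖ < 1) (hy : ‖y‖ < 1) : ‖x - y‖ < 1 :=
  lt_of_le_of_lt (sub_le_max _ _) (max_lt hx hy)

lemma norm_ppow (k : ℕ) : ‖(p : ℚ_[p]) ^ k‖ = ((p : ℝ) ^ k)⁻¹ := by
  rw [Padic.norm_p_pow, zpow_neg, zpow_natCast]

lemma parentE (e m : ℕ) : ‖He p e m - He p e (m / p) / (p : ℚ_[p]) ^ e‖ ≤ 1 := by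
  induction m with
  | zero => simp [He]
  | succ m ih =>
    by_cases h : p ∣ m + 1
    · have e1 := Nat.succ_div_of_dvd h
      obtain ⟨k, hk⟩ := h
      have hk' : m / p + 1 = k := by
        rw [← e1, hk, Nat.mul_div_cancel_left _ hp.out.pos]
      have e2 : He p e (m + 1) - He p e ((m + 1) / p) / (p : ℚ_[p]) ^ e
          = He p e m - He p e (m / p) / (p : ℚ_[p]) ^ e := by
        rw [e1, He_succ, He_succ, hk', hk, Nat.cast_mul, mul_inv, mul_pow, inv_pow]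
        ring
      rw [e2]; exact ih
    · have e1 := Nat.succ_div_of_not_dvd h
      have e2 : He p e (m + 1) - He p e ((m + 1) / p) / (p : ℚ_[p]) ^ e
          = (He p e m - He p e (m / p) / (p : ℚ_[p]) ^ e) + (((m + 1 : ℕ) : ℚ_[p]))⁻¹ ^ e := by
        rw [e1, He_succ]; ring
      rw [e2]
      refine (Padic.nonarchimedean _ _).trans (max_le ih ?_)
      rw [norm_pow, norm_inv,
        (Padic.norm_natCast_eq_one_iff).2 ((Nat.Prime.coprime_iff_not_dvd hp.out).2 h)]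
      simp

lemma ancE {e : ℕ} (he : 1 ≤ e) (s : ℕ) :
    ∀ m : ℕ, ‖(p : ℚ_[p]) ^ (e * s) * He p e m - He p e (m / p ^ s)‖ < 1 := by
  induction s with
  | zero => intro m; simp
  | succ s ih =>
    intro m
    have h0 := p_ne_zero (p := p)
    have e1 : (p : ℚ_[p]) ^ (e * (s + 1)) * He p e m - He p e (m / p ^ (s + 1))
        = (p : ℚ_[p]) ^ (e * (s + 1)) * (He p e m - He p e (m / p) / (p : ℚ_[p]) ^ e)
          + ((p : ℚ_[p]) ^ (e * s) * He p e (m / p) - He p e (m / p / p ^ s)) := by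
      rw [Nat.div_div_eq_div_mul, ← pow_succ', mul_add, mul_one, pow_add]
      field_simp
      ring
    rw [e1]
    refine lt_add ?_ (ih _)
    rw [norm_mul, norm_pow]
    refine mul_lt_one_of_nonneg_of_lt_one_left (by positivity) ?_ (parentE e m)
    exact pow_lt_one₀ (norm_nonneg _) Padic.norm_p_lt_one (by positivity)

lemma anc_close {e : ℕ} (he : 1 ≤ e) (s m : ℕ) {z : ℚ_[p]} (h : ‖He p e m - z‖ < 1) :
    ‖He p e (m / p ^ s) - (p : ℚ_[p]) ^ (e * s) * z‖ < 1 := by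
  have e1 : He p e (m / p ^ s) - (p : ℚ_[p]) ^ (e * s) * z = (p : ℚ_[p]) ^ (e * s) * (He p e m - z)
      - ((p : ℚ_[p]) ^ (e * s) * He p e m - He p e (m / p ^ s)) := by ring
  rw [e1]
  refine lt_sub ?_ (ancE he s m)
  rw [norm_mul, norm_pow]
  exact mul_lt_one_of_nonneg_of_lt_one_right
    (pow_le_one₀ (norm_nonneg _) Padic.norm_p_lt_one.le) (norm_nonneg _) h

lemma taylor (a b h : ℚ_[p]) (hab : a - b = h * a * b) {r : ℝ} (ha : ‖a‖ ≤ r) (hb : ‖b‖ ≤ r)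
    (e : ℕ) : ‖b ^ e - a ^ e + e * h * a ^ (e + 1)‖ ≤ ‖h‖ ^ 2 * r ^ (e + 2) := by
  have hr : 0 ≤ r := (norm_nonneg _).trans ha
  induction e with
  | zero => simp; positivity
  | succ e ih =>
    have e1 : b ^ (e + 1) - a ^ (e + 1) + ((e + 1 : ℕ) : ℚ_[p]) * h * a ^ (e + 1 + 1)
        = b * (b ^ e - a ^ e + e * h * a ^ (e + 1))
          + ((e + 1 : ℕ) : ℚ_[p]) * (h ^ 2 * (a ^ (e + 2) * b)) := by
      push_cast
      linear_combination (-(a ^ e) + ((e : ℚ_[p]) + 1) * h * a ^ (e + 1)) * hab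
    rw [e1]
    refine (Padic.nonarchimedean _ _).trans (max_le ?_ ?_)
    · rw [norm_mul]
      calc _ ≤ r * (‖h‖ ^ 2 * r ^ (e + 2)) := mul_le_mul hb ih (norm_nonneg _) hr
        _ = _ := by ring
    · have h1 : ‖((e + 1 : ℕ) : ℚ_[p])‖ ≤ 1 := by
        have := Padic.norm_int_le_one (p := p) ((e + 1 : ℕ) : ℤ)
        rwa [Int.cast_natCast] at this
      rw [norm_mul, norm_mul, norm_mul, norm_pow, norm_pow]
      calc _ ≤ 1 * (‖h‖ ^ 2 * (r ^ (e + 2) * r)) := by gcongr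
        _ = _ := by ring

/-- Partial sum inside the block of length p ^ l above w. -/
noncomputable def T (p : ℕ) [Fact p.Prime] (e l w u : ℕ) : ℚ_[p] :=
  He p e (p ^ l * w + u) - He p e (p ^ l * w)

lemma T_eq (e l w u : ℕ) :
    T p e l w u = ∑ i ∈ range u, (((p ^ l * w + i + 1 : ℕ) : ℚ_[p]))⁻¹ ^ e := by
  unfold T He
  rw [sum_range_add]; ring

lemma inv_le (l w i : ℕ) (hi : i + 1 < p ^ l) :
    ‖((p ^ l * w + i + 1 : ℕ) : ℚ_[p])⁻¹‖ ≤ (p : ℝ) ^ l / p := by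
  have h1 : ¬ p ^ l ∣ p ^ l * w + i + 1 := by
    intro h
    rw [add_assoc] at h
    have := Nat.le_of_dvd (by omega) ((Nat.dvd_add_right (Dvd.intro _ rfl)).1 h)
    omega
  have h2 := norm_inv_lt (p := p) h1
  rw [← zpow_natCast, Padic.norm_lt_pow_iff_norm_le_pow_sub_one] at h2
  have h0 : (p : ℝ) ≠ 0 := by exact_mod_cast hp.out.ne_zero
  rwa [zpow_sub₀ h0, zpow_natCast, zpow_one] at h2

lemma T_le (e l w u : ℕ) (hu : u < p ^ l) : ‖T p e l w u‖ ≤ ((p : ℝ) ^ l / p) ^ e := by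
  rw [T_eq]
  refine IsUltrametricDist.norm_sum_le_of_forall_le_of_nonneg (by positivity) fun i hi => ?_
  rw [norm_pow]
  exact pow_le_pow_left₀ (norm_nonneg _) (inv_le l w i (by have := mem_range.1 hi; omega)) e

lemma T_taylor (e l w w' u : ℕ) (hu : u < p ^ l) :
    ‖T p e l w' u - T p e l w u + e * ((p : ℚ_[p]) ^ l * ((w' : ℚ_[p]) - w)) * T p (e + 1) l w u‖
      ≤ ‖(p : ℚ_[p]) ^ l * ((w' : ℚ_[p]) - w)‖ ^ 2 * ((p : ℝ) ^ l / p) ^ (e + 2) := by
  rw [T_eq, T_eq, T_eq, mul_sum, ← sum_sub_distrib, ← sum_add_distrib]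
  refine IsUltrametricDist.norm_sum_le_of_forall_le_of_nonneg (by positivity) fun i hi => ?_
  have hi' : i + 1 < p ^ l := by have := mem_range.1 hi; omega
  refine taylor _ _ _ ?_ (inv_le l w i hi') (inv_le l w' i hi') e
  have n1 : ((p ^ l * w + i + 1 : ℕ) : ℚ_[p]) ≠ 0 := Nat.cast_ne_zero.2 (Nat.succ_ne_zero _)
  have n2 : ((p ^ l * w' + i + 1 : ℕ) : ℚ_[p]) ≠ 0 := Nat.cast_ne_zero.2 (Nat.succ_ne_zero _)
  have e1 : (p : ℚ_[p]) ^ l * ((w' : ℚ_[p]) - w)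
      = ((p ^ l * w' + i + 1 : ℕ) : ℚ_[p]) - ((p ^ l * w + i + 1 : ℕ) : ℚ_[p]) := by
    push_cast; ring
  rw [e1]
  field_simp

lemma norm_sub_le_iff (k w w' : ℕ) :
    ‖(w' : ℚ_[p]) - w‖ ≤ ((p : ℝ) ^ k)⁻¹ ↔ w ≡ w' [MOD p ^ k] := by
  have h := Padic.norm_int_le_pow_iff_dvd (p := p) ((w' : ℤ) - w) k
  rw [zpow_neg, zpow_natCast] at h
  push_cast at h
  rw [h, Nat.modEq_iff_dvd]
  push_cast
  rfl

lemma norm_nat_le (e : ℕ) : ‖(e : ℚ_[p])‖ ≤ 1 := by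
  have := Padic.norm_int_le_one (p := p) (e : ℤ)
  rwa [Int.cast_natCast] at this

lemma loc (e l w w' u : ℕ) (hu : u < p ^ l) (h : w ≡ w' [MOD p ^ (e * l)]) :
    ‖T p e l w' u - T p e l w u‖ < 1 := by
  have h1 := T_taylor e l w w' u hu
  have h2 := T_le (p := p) (e + 1) l w u hu
  have h3 := (norm_sub_le_iff (p := p) _ _ _).2 h
  have hp1 := one_lt_p (p := p)
  have hP : (0 : ℝ) < (p : ℝ) ^ l := by positivity
  have hh : ‖(p : ℚ_[p]) ^ l * ((w' : ℚ_[p]) - w)‖ ≤ (((p : ℝ) ^ l) ^ (e + 1))⁻¹ := by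
    rw [norm_mul, norm_ppow, pow_succ', mul_inv, ← pow_mul, mul_comm l e]
    exact mul_le_mul_of_nonneg_left h3 (by positivity)
  generalize (p : ℚ_[p]) ^ l * ((w' : ℚ_[p]) - w) = h at *
  have hr0 : 0 ≤ (p : ℝ) ^ l / p := by positivity
  have hr : (p : ℝ) ^ l / p < (p : ℝ) ^ l := div_lt_self hP hp1
  have hP1 : (1 : ℝ) ≤ (p : ℝ) ^ l := one_le_pow₀ hp1.le
  generalize (p : ℝ) ^ l / p = r at *
  generalize (p : ℝ) ^ l = P at *
  have k1 : ‖h‖ * r ^ (e + 1) < 1 := by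
    have := pow_lt_pow_left₀ hr hr0 (Nat.succ_ne_zero e)
    calc _ ≤ (P ^ (e + 1))⁻¹ * r ^ (e + 1) := by gcongr
      _ < 1 := by rw [inv_mul_lt_iff₀ (by positivity), mul_one]; exact this
  have k2 : ‖h‖ * r ≤ 1 := by
    have : P ≤ P ^ (e + 1) := le_self_pow₀ hP1 (Nat.succ_ne_zero e)
    calc _ ≤ (P ^ (e + 1))⁻¹ * P ^ (e + 1) := by
          gcongr
          exact hr.le.trans this
      _ = 1 := inv_mul_cancel₀ (by positivity)
  have e1 : T p e l w' u - T p e l w u = (T p e l w' u - T p e l w u + e * h * T p (e + 1) l w u)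
      - e * h * T p (e + 1) l w u := by ring
  rw [e1]
  refine lt_sub (lt_of_le_of_lt h1 ?_) ?_
  · calc _ = (‖h‖ * r ^ (e + 1)) * (‖h‖ * r) := by ring
      _ < 1 := mul_lt_one_of_nonneg_of_lt_one_left (by positivity) k1 k2
  · rw [norm_mul, norm_mul]
    calc _ ≤ 1 * ‖h‖ * r ^ (e + 1) := by gcongr; exact norm_nat_le e
      _ < 1 := by rw [one_mul]; exact k1

lemma transv {e : ℕ} (he : ¬ p ∣ e) (b s w w' U V : ℕ) (hU : U < p ^ (b + s))
    (hV : V < p ^ (b + s)) (h : w ≡ w' [MOD p ^ ((e + 1) * b)])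
    (hZ : ¬ ‖He p (e + 1) ((p ^ (b + s) * w + U) / p ^ s)
      - He p (e + 1) ((p ^ (b + s) * w + V) / p ^ s)‖ < 1)
    (hD : ‖(T p e (b + s) w' U - T p e (b + s) w' V)
      - (T p e (b + s) w U - T p e (b + s) w V)‖ < 1) :
    w ≡ w' [MOD p ^ (e * (b + s) - (e + 1) * b)] := by
  rcases le_total (e * (b + s)) ((e + 1) * b) with hle | hle
  · rw [Nat.sub_eq_zero_of_le hle, pow_zero]; exact Nat.modEq_one
  obtain ⟨k, hk⟩ := Nat.exists_eq_add_of_le hle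
  rw [hk, Nat.add_sub_cancel_left, ← norm_sub_le_iff]
  have hp1 := one_lt_p (p := p)
  have hp0 : (0 : ℝ) < p := by linarith
  have h1 := T_taylor e (b + s) w w' U hU
  have h2 := T_taylor e (b + s) w w' V hV
  have h3 := (norm_sub_le_iff (p := p) _ _ _).2 h
  have h4 : (p : ℝ) ^ ((e + 1) * s) ≤ ‖T p (e + 1) (b + s) w U - T p (e + 1) (b + s) w V‖ := by
    by_contra hh
    push Not at hh
    apply hZ
    have a1 := ancE (p := p) (e := e + 1) (by omega) s (p ^ (b + s) * w + U)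
    have a2 := ancE (p := p) (e := e + 1) (by omega) s (p ^ (b + s) * w + V)
    have e1 : He p (e + 1) ((p ^ (b + s) * w + U) / p ^ s)
        - He p (e + 1) ((p ^ (b + s) * w + V) / p ^ s)
        = (p : ℚ_[p]) ^ ((e + 1) * s) * (T p (e + 1) (b + s) w U - T p (e + 1) (b + s) w V)
          - ((p : ℚ_[p]) ^ ((e + 1) * s) * He p (e + 1) (p ^ (b + s) * w + U)
            - He p (e + 1) ((p ^ (b + s) * w + U) / p ^ s))
          + ((p : ℚ_[p]) ^ ((e + 1) * s) * He p (e + 1) (p ^ (b + s) * w + V)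
            - He p (e + 1) ((p ^ (b + s) * w + V) / p ^ s)) := by
      unfold T; ring
    rw [e1]
    refine lt_add (lt_sub ?_ a1) a2
    rw [norm_mul, norm_ppow, inv_mul_lt_iff₀ (by positivity), mul_one]
    exact hh
  have hn : ‖(p : ℚ_[p]) ^ (b + s) * ((w' : ℚ_[p]) - w)‖
      = ((p : ℝ) ^ (b + s))⁻¹ * ‖(w' : ℚ_[p]) - w‖ := by rw [norm_mul, norm_ppow]
  have hen : ‖(e : ℚ_[p])‖ = 1 :=
    (Padic.norm_natCast_eq_one_iff).2 ((Nat.Prime.coprime_iff_not_dvd hp.out).2 he)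
  generalize (p : ℚ_[p]) ^ (b + s) * ((w' : ℚ_[p]) - w) = h at *
  generalize ‖(w' : ℚ_[p]) - w‖ = d at *
  have e2 : e * h * (T p (e + 1) (b + s) w U - T p (e + 1) (b + s) w V)
      = ((T p e (b + s) w' U - T p e (b + s) w U + e * h * T p (e + 1) (b + s) w U)
        - (T p e (b + s) w' V - T p e (b + s) w V + e * h * T p (e + 1) (b + s) w V))
        - ((T p e (b + s) w' U - T p e (b + s) w' V)
          - (T p e (b + s) w U - T p e (b + s) w V)) := by ring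
  have h5 := sub_le_max
      ((T p e (b + s) w' U - T p e (b + s) w U + (e : ℚ_[p]) * h * T p (e + 1) (b + s) w U)
        - (T p e (b + s) w' V - T p e (b + s) w V + (e : ℚ_[p]) * h * T p (e + 1) (b + s) w V))
        ((T p e (b + s) w' U - T p e (b + s) w' V) - (T p e (b + s) w U - T p e (b + s) w V))
  rw [← e2, norm_mul, norm_mul, hen, one_mul] at h5
  have h6 := (mul_le_mul_of_nonneg_left h4 (norm_nonneg h)).trans h5
  have h7 := (sub_le_max _ _).trans (max_le h1 h2)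
  have e3 : (p : ℝ) ^ ((e + 1) * s) = (p : ℝ) ^ (b + s) * (p : ℝ) ^ k := by
    rw [← pow_add]; congr 1; nlinarith
  by_contra hd
  push Not at hd
  have hk0 : (0 : ℝ) < (p : ℝ) ^ k := by positivity
  have hd0 : 0 < d := lt_trans (inv_pos.2 hk0) hd
  have hP : (0 : ℝ) < (p : ℝ) ^ (b + s) := by positivity
  have e4 : ‖h‖ * (p : ℝ) ^ ((e + 1) * s) = d * (p : ℝ) ^ k := by
    rw [hn, e3]; field_simp
  have h8 : 1 < d * (p : ℝ) ^ k := by rwa [inv_lt_iff_one_lt_mul₀ hk0] at hd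
  rw [e4] at h6
  rcases le_max_iff.1 h6 with h9 | h9
  · have h10 := h9.trans h7
    have e5 : ((p : ℝ) ^ (b + s)) ^ e = (p : ℝ) ^ ((e + 1) * b) * (p : ℝ) ^ k := by
      rw [← pow_add, ← pow_mul, mul_comm (b + s) e, hk]
    have h11 : ‖h‖ ^ 2 * ((p : ℝ) ^ (b + s) / p) ^ (e + 2)
        = d * (p : ℝ) ^ k * (d * (p : ℝ) ^ ((e + 1) * b) / (p : ℝ) ^ (e + 2)) := by
      rw [hn, div_pow, pow_add ((p : ℝ) ^ (b + s)), e5]
      field_simp
    have h12 : d * (p : ℝ) ^ ((e + 1) * b) / (p : ℝ) ^ (e + 2) < 1 := by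
      rw [div_lt_one (by positivity)]
      have := (le_inv_mul_iff₀ (by positivity : (0 : ℝ) < (p : ℝ) ^ ((e + 1) * b))).1
        (h3.trans (mul_one _).ge)
      have h13 : (1 : ℝ) < (p : ℝ) ^ (e + 2) := one_lt_pow₀ hp1 (by omega)
      linarith
    rw [h11] at h10
    have := mul_lt_of_lt_one_right (by linarith : 0 < d * (p : ℝ) ^ k) h12
    linarith
  · linarith

end Pool.Agent.MP_3792c7_nt.Sub
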