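import Mathlib
import Pool.Agent.MP_3792c7_nt.SubGen

/-! Fibres and their maximal size. -/

namespace Pool.Agent.MP_3792c7_nt.Sub

open Finset Pool.Agent.MP_3792c7_nt.Null

variable {p : ℕ} [hp : Fact p.Prime]

open Classical in
/-- Descendants of n at depth l whose harmonic number is close to z. -/
noncomputable def fib (p : ℕ) [Fact p.Prime] (e l n : ℕ) (z : ℚ_[p]) : Finset ℕ :=
  (range (p ^ l * (n + 1))).filter (fun m => m / p ^ l = n ∧ ‖He p e m - z‖ < 1)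

open Classical in
lemma mem_fib {e l n m : ℕ} {z : ℚ_[p]} :
    m ∈ fib p e l n z ↔ m / p ^ l = n ∧ ‖He p e m - z‖ < 1 := by
  unfold fib
  rw [mem_filter, mem_range, and_iff_right_iff_imp]
  rintro ⟨rfl, -⟩
  exact Nat.lt_mul_div_succ m (pow_pos hp.out.pos l)

lemma card_fib_le_pow (e l n : ℕ) (z : ℚ_[p]) : #(fib p e l n z) ≤ p ^ l := by
  refine le_trans (card_le_card ?_) (card_div_fibre (fib p e l n z) (p ^ l) n (pow_pos hp.out.pos l))
  intro m hm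
  exact mem_filter.2 ⟨hm, (mem_fib.1 hm).1⟩

/-- Maximal size of a fibre. -/
noncomputable def NN (p : ℕ) [Fact p.Prime] (e l : ℕ) : ℕ :=
  sSup {k | ∃ (n : ℕ) (z : ℚ_[p]), #(fib p e l n z) = k}

lemma NN_bdd (e l : ℕ) : BddAbove {k | ∃ (n : ℕ) (z : ℚ_[p]), #(fib p e l n z) = k} :=
  ⟨p ^ l, by rintro k ⟨n, z, rfl⟩; exact card_fib_le_pow e l n z⟩

lemma card_fib_le (e l n : ℕ) (z : ℚ_[p]) : #(fib p e l n z) ≤ NN p e l :=
  le_csSup (NN_bdd e l) ⟨n, z, rfl⟩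

lemma exists_fib (e l : ℕ) : ∃ (n : ℕ) (z : ℚ_[p]), #(fib p e l n z) = NN p e l :=
  Nat.sSup_mem (s := {k | ∃ (n : ℕ) (z : ℚ_[p]), #(fib p e l n z) = k}) ⟨_, 0, 0, rfl⟩ (NN_bdd e l)

lemma one_le_NN (e l : ℕ) : 1 ≤ NN p e l := by
  refine le_trans (card_pos.2 ⟨0, ?_⟩) (card_fib_le e l 0 (He p e 0))
  rw [mem_fib]; simp

lemma NN_zero (e : ℕ) : NN p e 0 = 1 := by
  obtain ⟨n, z, h⟩ := exists_fib (p := p) e 0
  have h1 := card_fib_le_pow e 0 n z
  have h2 := one_le_NN (p := p) e 0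
  rw [pow_zero] at h1
  omega

lemma anc_mem {e : ℕ} (he : 1 ≤ e) {a b n m : ℕ} {z : ℚ_[p]} (hm : m ∈ fib p e (a + b) n z) :
    m / p ^ b ∈ fib p e a n ((p : ℚ_[p]) ^ (e * b) * z) := by
  rw [mem_fib] at hm ⊢
  exact ⟨by rw [Nat.div_div_eq_div_mul, ← pow_add, add_comm, hm.1], anc_close he b m hm.2⟩

lemma NN_submul {e : ℕ} (he : 1 ≤ e) (a b : ℕ) : NN p e (a + b) ≤ NN p e a * NN p e b := by
  obtain ⟨n, z, h⟩ := exists_fib (p := p) e (a + b)
  rw [← h, mul_comm]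
  refine le_trans (card_le_mul_card_image_of_maps_to (f := fun m => m / p ^ b)
    (t := fib p e a n ((p : ℚ_[p]) ^ (e * b) * z)) (fun m hm => anc_mem he hm) (NN p e b) ?_)
    (Nat.mul_le_mul_left _ (card_fib_le _ _ _ _))
  intro k _
  refine le_trans (card_le_card ?_) (card_fib_le e b k z)
  intro m hm
  rw [mem_filter] at hm
  exact mem_fib.2 ⟨hm.2, (mem_fib.1 hm.1).2⟩

lemma T_base (n u : ℕ) (hu : u < p) : ‖T p (p - 1) 1 n u - u‖ < 1 := by
  induction u with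
  | zero => simp [T]
  | succ u ih =>
    have h1 := ih (by omega)
    have hnd : ¬ p ∣ p ^ 1 * n + u + 1 := by
      intro h
      rw [add_assoc, pow_one] at h
      have := Nat.le_of_dvd (by omega) ((Nat.dvd_add_right (Dvd.intro _ rfl)).1 h)
      omega
    have hc : Nat.Coprime (p ^ 1 * n + u + 1) p := ((Nat.Prime.coprime_iff_not_dvd hp.out).2 hnd).symm
    have hF := Nat.ModEq.pow_totient hc
    rw [Nat.totient_prime hp.out] at hF
    have h2 := (norm_sub_le_iff (p := p) 1 ((p ^ 1 * n + u + 1) ^ (p - 1)) 1).2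
      (by rw [pow_one p] at hF ⊢; exact hF)
    have hn : ‖((p ^ 1 * n + u + 1 : ℕ) : ℚ_[p])‖ = 1 := (Padic.norm_natCast_eq_one_iff).2 hc.symm
    have hx : ((p ^ 1 * n + u + 1 : ℕ) : ℚ_[p]) ≠ 0 := Nat.cast_ne_zero.2 (Nat.succ_ne_zero _)
    rw [T_eq] at h1 ⊢
    rw [sum_range_succ, Nat.cast_succ u]
    rw [Nat.cast_pow, Nat.cast_one] at h2
    generalize ((p ^ 1 * n + u + 1 : ℕ) : ℚ_[p]) = x at *
    have h3 : ‖x⁻¹ ^ (p - 1) - 1‖ < 1 := by
      have e : x⁻¹ ^ (p - 1) - 1 = x⁻¹ ^ (p - 1) * (1 - x ^ (p - 1)) := by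
        rw [mul_sub, ← mul_pow, inv_mul_cancel₀ hx]; simp
      rw [e, norm_mul, norm_pow, norm_inv, hn, inv_one, one_pow, one_mul]
      refine lt_of_le_of_lt h2 ?_
      rw [pow_one]
      exact inv_lt_one_of_one_lt₀ one_lt_p
    have h4 := lt_add h1 h3
    rwa [← add_sub_add_comm] at h4

lemma NN_base (l : ℕ) : NN p (p - 1) l ≤ 1 := by
  have he : 1 ≤ p - 1 := by have := hp.out.two_le; omega
  have h1 : NN p (p - 1) 1 ≤ 1 := by
    obtain ⟨n, z, h⟩ := exists_fib (p := p) (p - 1) 1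
    rw [← h, card_le_one]
    intro m hm m' hm'
    rw [mem_fib] at hm hm'
    have hP : 0 < p ^ 1 := pow_pos hp.out.pos 1
    have e1 := Nat.div_add_mod m (p ^ 1)
    have e2 := Nat.div_add_mod m' (p ^ 1)
    have l1 := Nat.mod_lt m hP
    have l2 := Nat.mod_lt m' hP
    rw [hm.1] at e1
    rw [hm'.1] at e2
    have t1 := T_base (p := p) n (m % p ^ 1) (by simpa using l1)
    have t2 := T_base (p := p) n (m' % p ^ 1) (by simpa using l2)
    unfold T at t1 t2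
    rw [e1] at t1
    rw [e2] at t2
    have h3 : ‖((m' % p ^ 1 : ℕ) : ℚ_[p]) - (m % p ^ 1 : ℕ)‖ < 1 := by
      have e3 : ((m' % p ^ 1 : ℕ) : ℚ_[p]) - (m % p ^ 1 : ℕ)
          = ((He p (p - 1) m - He p (p - 1) (p ^ 1 * n) - (m % p ^ 1 : ℕ))
            - (He p (p - 1) m' - He p (p - 1) (p ^ 1 * n) - (m' % p ^ 1 : ℕ)))
            + ((He p (p - 1) m' - z) - (He p (p - 1) m - z)) := by ring
      rw [e3]
      exact lt_add (lt_sub t1 t2) (lt_sub hm'.2 hm.2)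
    have h4 : m % p ^ 1 ≡ m' % p ^ 1 [MOD p ^ 1] := by
      rw [← norm_sub_le_iff, ← zpow_natCast, ← zpow_neg,
        Padic.norm_le_pow_iff_norm_lt_pow_add_one]
      simpa using h3
    have h5 := Nat.ModEq.eq_of_lt_of_lt h4 l1 l2
    omega
  induction l with
  | zero => exact (NN_zero _).le
  | succ l ih => exact (NN_submul he l 1).trans (Nat.mul_le_mul ih h1)

end Pool.Agent.MP_3792c7_nt.Sub
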