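import Mathlib

/-! A small library of Shannon entropy on a finite weighted set. -/

namespace Pool.Agent.MP_3792c7_nt.Sub

open Finset

variable {ι α β γ δ : Type}

open Classical in
/-- Mass of the class of a point. -/
noncomputable def pr (Ω : Finset ι) (w : ι → ℝ) (X : ι → α) (o : ι) : ℝ :=
  ∑ o' ∈ Ω, if X o' = X o then w o' else 0

/-- Entropy. -/
noncomputable def ent (Ω : Finset ι) (w : ι → ℝ) (X : ι → α) : ℝ :=
  -∑ o ∈ Ω, w o * Real.log (pr Ω w X o)

/-- On the points satisfying B the function X is determined by a code with at most K values. -/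
def Code (Ω : Finset ι) (B : ι → Prop) (X : ι → α) (K : ℝ) : Prop :=
  ∃ (D : Type) (f : ι → D) (S : Finset D), (#S : ℝ) ≤ K ∧ (∀ o ∈ Ω, B o → f o ∈ S) ∧
    ∀ o ∈ Ω, ∀ o' ∈ Ω, B o → B o' → f o = f o' → X o = X o'

/-- X determines Y. -/
def Det (Ω : Finset ι) (X : ι → α) (Y : ι → β) : Prop :=
  ∀ o ∈ Ω, ∀ o' ∈ Ω, X o = X o' → Y o = Y o'

variable {Ω : Finset ι} {w : ι → ℝ}

lemma Code.mono {B B' : ι → Prop} {X : ι → α} {K : ℝ} (h : Code Ω B X K)
    (hB : ∀ o ∈ Ω, B' o → B o) : Code Ω B' X K := by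
  obtain ⟨D, f, S, h1, h2, h3⟩ := h
  exact ⟨D, f, S, h1, fun o ho hb => h2 o ho (hB o ho hb),
    fun o ho o' ho' hb hb' => h3 o ho o' ho' (hB o ho hb) (hB o' ho' hb')⟩

lemma pr_congr (X : ι → α) {o o' : ι} (h : X o = X o') : pr Ω w X o = pr Ω w X o' := by
  unfold pr; rw [h]

lemma pr_pos (hw : ∀ o ∈ Ω, 0 < w o) (X : ι → α) {o : ι} (ho : o ∈ Ω) : 0 < pr Ω w X o := by
  unfold pr
  refine sum_pos' (fun i hi => ?_) ⟨o, ho, by simpa using hw o ho⟩
  split_ifs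
  · exact (hw i hi).le
  · exact le_rfl

lemma pr_mono (hw : ∀ o ∈ Ω, 0 < w o) {X : ι → α} {Y : ι → β} (h : Det Ω X Y) {o : ι}
    (ho : o ∈ Ω) : pr Ω w X o ≤ pr Ω w Y o := by
  unfold pr
  refine sum_le_sum fun i hi => ?_
  by_cases h1 : X i = X o
  · rw [if_pos h1, if_pos (h i hi o ho h1)]
  · rw [if_neg h1]
    split_ifs
    · exact (hw i hi).le
    · exact le_rfl

lemma ent_mono (hw : ∀ o ∈ Ω, 0 < w o) {X : ι → α} {Y : ι → β} (h : Det Ω X Y) :
    ent Ω w Y ≤ ent Ω w X := by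
  unfold ent
  refine neg_le_neg (sum_le_sum fun o ho => ?_)
  exact mul_le_mul_of_nonneg_left (Real.log_le_log (pr_pos hw X ho) (pr_mono hw h ho)) (hw o ho).le

lemma ent_const (h1 : ∑ o ∈ Ω, w o = 1) : ent Ω w (fun _ => ()) = 0 := by
  unfold ent pr
  simp [h1]

lemma ent_nonneg (hw : ∀ o ∈ Ω, 0 < w o) (h1 : ∑ o ∈ Ω, w o = 1) (X : ι → α) :
    0 ≤ ent Ω w X := by
  rw [← ent_const h1]
  exact ent_mono hw (fun _ _ _ _ _ => rfl)

open Classical in
lemma one_class (hw : ∀ o ∈ Ω, 0 < w o) (X : ι → α) (B : ι → Prop) [DecidablePred B]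
    (hB : ∀ o ∈ Ω, ∀ o' ∈ Ω, B o → B o' → X o = X o') :
    ∑ o ∈ Ω, (if B o then w o / pr Ω w X o else 0) ≤ 1 := by
  by_cases hne : ∃ o ∈ Ω, B o
  · obtain ⟨o0, ho0, hb0⟩ := hne
    have hpos := pr_pos hw X ho0
    have h2 : ∑ o ∈ Ω, (if B o then w o / pr Ω w X o else 0)
        ≤ ∑ o ∈ Ω, (if X o = X o0 then w o else 0) / pr Ω w X o0 := by
      refine sum_le_sum fun o ho => ?_
      by_cases hb : B o
      · rw [if_pos hb, if_pos (hB o ho o0 ho0 hb hb0), pr_congr X (hB o ho o0 ho0 hb hb0)]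
      · rw [if_neg hb]
        refine div_nonneg ?_ hpos.le
        split_ifs
        · exact (hw o ho).le
        · exact le_rfl
    refine h2.trans ?_
    rw [← sum_div]
    exact (div_self hpos.ne').le
  · push Not at hne
    rw [sum_congr rfl (fun o ho => if_neg (hne o ho))]
    simp

open Classical in
lemma code_sum (hw : ∀ o ∈ Ω, 0 < w o) {X : ι → α} {B : ι → Prop} [DecidablePred B] {K : ℝ}
    (h : Code Ω B X K) :
    ∑ o ∈ Ω, (if B o then w o / pr Ω w X o else 0) ≤ K := by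
  obtain ⟨D, f, S, h1, h2, h3⟩ := h
  have e : ∀ o ∈ Ω, (if B o then w o / pr Ω w X o else 0)
      = ∑ s ∈ S, (if B o ∧ f o = s then w o / pr Ω w X o else 0) := by
    intro o ho
    by_cases hb : B o
    · simp [hb, h2 o ho hb]
    · simp [hb]
  rw [sum_congr rfl e, sum_comm]
  refine le_trans (sum_le_sum fun s _ => one_class hw X (fun o => B o ∧ f o = s) ?_) ?_
  · intro o ho o' ho' hb hb'
    exact h3 o ho o' ho' hb.1 hb'.1 (hb.2.trans hb'.2.symm)
  · simpa using h1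

open Classical in
lemma gibbs (hw : ∀ o ∈ Ω, 0 < w o) (h1 : ∑ o ∈ Ω, w o = 1) (X : ι → α) (Y : ι → β) (q : ι → ℝ)
    (hq : ∀ o ∈ Ω, 0 < q o)
    (h : ∀ o0 ∈ Ω, ∑ o ∈ Ω, (if Y o = Y o0 then w o / pr Ω w X o * q o else 0) ≤ 1) :
    ent Ω w X ≤ ent Ω w Y - ∑ o ∈ Ω, w o * Real.log (q o) := by
  have h2 : ∑ o ∈ Ω, w o / pr Ω w X o * q o * pr Ω w Y o ≤ 1 := by
    have e : ∀ o ∈ Ω, w o / pr Ω w X o * q o * pr Ω w Y o
        = ∑ o0 ∈ Ω, w o0 * (if Y o = Y o0 then w o / pr Ω w X o * q o else 0) := by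
      intro o _
      conv_lhs => unfold pr
      rw [mul_sum]
      refine sum_congr rfl fun o0 _ => ?_
      by_cases hy : Y o = Y o0
      · rw [if_pos hy, if_pos hy.symm]; unfold pr; ring
      · rw [if_neg hy, if_neg (Ne.symm hy)]; simp
    rw [sum_congr rfl e, sum_comm, ← h1]
    refine sum_le_sum fun o0 ho0 => ?_
    rw [← mul_sum]
    exact mul_le_of_le_one_right (hw o0 ho0).le (h o0 ho0)
  have h3 : ∀ o ∈ Ω, w o * Real.log (pr Ω w Y o) + w o * Real.log (q o)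
      - w o * Real.log (pr Ω w X o) ≤ w o / pr Ω w X o * q o * pr Ω w Y o - w o := by
    intro o ho
    have hX := pr_pos hw X ho
    have hY := pr_pos hw Y ho
    have h4 := Real.log_le_sub_one_of_pos (div_pos (mul_pos hY (hq o ho)) hX)
    rw [Real.log_div (mul_pos hY (hq o ho)).ne' hX.ne', Real.log_mul hY.ne' (hq o ho).ne'] at h4
    have h5 := mul_le_mul_of_nonneg_left h4 (hw o ho).le
    have e : w o / pr Ω w X o * q o * pr Ω w Y o = w o * (pr Ω w Y o * q o / pr Ω w X o) := by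
      ring
    rw [e]
    linarith
  have h6 := sum_le_sum h3
  rw [sum_sub_distrib, sum_sub_distrib, sum_add_distrib, h1] at h6
  unfold ent
  linarith

open Classical in
lemma ent_le_add_log (hw : ∀ o ∈ Ω, 0 < w o) (h1 : ∑ o ∈ Ω, w o = 1) (X : ι → α) (Y : ι → β)
    {K : ℝ} (hK : 0 < K) (h : ∀ o0 ∈ Ω, Code Ω (fun o => Y o = Y o0) X K) :
    ent Ω w X ≤ ent Ω w Y + Real.log K := by
  have h2 := gibbs hw h1 X Y (fun _ => K⁻¹) (fun _ _ => inv_pos.2 hK) (fun o0 ho0 => by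
    have h3 := code_sum hw (h o0 ho0)
    have e : ∀ o ∈ Ω, (if Y o = Y o0 then w o / pr Ω w X o * K⁻¹ else 0)
        = (if Y o = Y o0 then w o / pr Ω w X o else 0) * K⁻¹ := by
      intro o _; split_ifs <;> simp
    rw [sum_congr rfl e, ← sum_mul, mul_inv_le_iff₀ hK, one_mul]
    exact h3)
  rw [← sum_mul, h1, Real.log_inv] at h2
  linarith

lemma ent_le_log (hw : ∀ o ∈ Ω, 0 < w o) (h1 : ∑ o ∈ Ω, w o = 1) (X : ι → α)
    {K : ℝ} (hK : 0 < K) (h : Code Ω (fun _ => True) X K) : ent Ω w X ≤ Real.log K := by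
  have h2 := ent_le_add_log hw h1 X (fun _ => ()) hK (fun _ _ => h.mono fun _ _ _ => trivial)
  rwa [ent_const h1, zero_add] at h2

open Classical in
lemma swap_bound (hw : ∀ o ∈ Ω, 0 < w o) (W : ι → α) (Y : ι → β) (Z : ι → γ) (B : ι → Prop)
    (o0 : ι) (K : ℝ)
    (hZ : ∀ o ∈ Ω, ∀ o' ∈ Ω, B o → Y o' = Y o → Z o' = Z o0)
    (h : ∀ o' ∈ Ω, ∑ o ∈ Ω, (if B o ∧ Y o' = Y o then w o / pr Ω w W o else 0) ≤ K) :
    ∑ o ∈ Ω, (if B o then w o / pr Ω w W o * pr Ω w Y o else 0) ≤ K * pr Ω w Z o0 := by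
  have e : ∀ o ∈ Ω, (if B o then w o / pr Ω w W o * pr Ω w Y o else 0)
      = ∑ o' ∈ Ω, w o' * (if B o ∧ Y o' = Y o then w o / pr Ω w W o else 0) := by
    intro o _
    by_cases hb : B o
    · rw [if_pos hb]
      generalize w o / pr Ω w W o = t
      unfold pr
      rw [mul_sum]
      refine sum_congr rfl fun o' _ => ?_
      by_cases hy : Y o' = Y o
      · rw [if_pos hy, if_pos ⟨hb, hy⟩]; ring
      · rw [if_neg hy, if_neg (fun h => hy h.2)]; simp
    · simp [hb]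
  rw [sum_congr rfl e, sum_comm]
  conv_rhs => unfold pr
  rw [mul_sum]
  refine sum_le_sum fun o' ho' => ?_
  rw [← mul_sum]
  by_cases hz : Z o' = Z o0
  · rw [if_pos hz, mul_comm]
    exact mul_le_mul_of_nonneg_right (h o' ho') (hw o' ho').le
  · rw [if_neg hz, sum_eq_zero]
    · simp
    · intro o ho
      exact if_neg fun hh => hz (hZ o ho o' ho' hh.1 hh.2)

open Classical in
lemma submod (hw : ∀ o ∈ Ω, 0 < w o) (h1 : ∑ o ∈ Ω, w o = 1) (W : ι → δ) (X : ι → α) (Y : ι → β)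
    (Z : ι → γ) (hX : Det Ω X Z) (hY : Det Ω Y Z)
    (hW : ∀ o ∈ Ω, ∀ o' ∈ Ω, X o = X o' → Y o = Y o' → W o = W o') :
    ent Ω w W + ent Ω w Z ≤ ent Ω w X + ent Ω w Y := by
  have h2 := gibbs hw h1 W X (fun o => pr Ω w Y o / pr Ω w Z o)
    (fun o ho => div_pos (pr_pos hw Y ho) (pr_pos hw Z ho)) (fun o0 ho0 => by
      have h3 := swap_bound hw W Y Z (fun o => X o = X o0) o0 1
        (fun o ho o' ho' hb hy => (hY o' ho' o ho hy).trans (hX o ho o0 ho0 hb))
        (fun o' ho' => one_class hw W (fun o => X o = X o0 ∧ Y o' = Y o)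
          (fun a ha b hb h h' => hW a ha b hb (h.1.trans h'.1.symm) (h.2.symm.trans h'.2)))
      have hz := pr_pos hw Z ho0
      have e : ∀ o ∈ Ω, (if X o = X o0 then w o / pr Ω w W o * (pr Ω w Y o / pr Ω w Z o) else 0)
          = (if X o = X o0 then w o / pr Ω w W o * pr Ω w Y o else 0) / pr Ω w Z o0 := by
        intro o ho
        by_cases hx : X o = X o0
        · rw [if_pos hx, if_pos hx, pr_congr Z (hX o ho o0 ho0 hx)]; ring
        · rw [if_neg hx, if_neg hx]; simp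
      rw [sum_congr rfl e, ← sum_div, div_le_iff₀ hz]
      exact h3)
  have e : ∀ o ∈ Ω, w o * Real.log (pr Ω w Y o / pr Ω w Z o)
      = w o * Real.log (pr Ω w Y o) - w o * Real.log (pr Ω w Z o) := by
    intro o ho
    rw [Real.log_div (pr_pos hw Y ho).ne' (pr_pos hw Z ho).ne']; ring
  rw [sum_congr rfl e, sum_sub_distrib] at h2
  unfold ent at *
  linarith

open Classical in
lemma ent_two (hw : ∀ o ∈ Ω, 0 < w o) (h1 : ∑ o ∈ Ω, w o = 1) (X : ι → α) (Y : ι → β)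
    (A : ι → Prop) {K1 K2 : ℝ} (hK1 : 1 ≤ K1) (hK2 : 1 ≤ K2)
    (hA : ∀ o0 ∈ Ω, Code Ω (fun o => Y o = Y o0 ∧ ¬ A o) X K1)
    (hB : ∀ o0 ∈ Ω, Code Ω (fun o => Y o = Y o0) X K2) :
    ent Ω w X ≤ ent Ω w Y + Real.log 2 + Real.log K1
      + (∑ o ∈ Ω, if A o then w o else 0) * Real.log K2 := by
  have p1 : 0 < K1 := by linarith
  have p2 : 0 < K2 := by linarith
  have h2 := gibbs hw h1 X Y (fun o => if A o then (2 * K2)⁻¹ else (2 * K1)⁻¹)
    (fun o _ => by split_ifs <;> positivity) (fun o0 ho0 => by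
      have h3 := code_sum hw (hA o0 ho0)
      have h4 := code_sum hw (hB o0 ho0)
      have e : ∀ o ∈ Ω, (if Y o = Y o0 then w o / pr Ω w X o *
            (if A o then (2 * K2)⁻¹ else (2 * K1)⁻¹) else 0)
          ≤ (if Y o = Y o0 ∧ ¬ A o then w o / pr Ω w X o else 0) * (2 * K1)⁻¹
            + (if Y o = Y o0 then w o / pr Ω w X o else 0) * (2 * K2)⁻¹ := by
        intro o ho
        have h5 : 0 ≤ w o / pr Ω w X o := div_nonneg (hw o ho).le (pr_pos hw X ho).le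
        by_cases hy : Y o = Y o0 <;> by_cases ha : A o <;> simp [hy, ha]
        positivity
      refine (sum_le_sum e).trans ?_
      rw [sum_add_distrib, ← sum_mul, ← sum_mul]
      have h6 := mul_le_mul_of_nonneg_right h3 (by positivity : 0 ≤ (2 * K1)⁻¹)
      have h7 := mul_le_mul_of_nonneg_right h4 (by positivity : 0 ≤ (2 * K2)⁻¹)
      have e1 : K1 * (2 * K1)⁻¹ = 1 / 2 := by field_simp
      have e2 : K2 * (2 * K2)⁻¹ = 1 / 2 := by field_simp
      linarith)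
  have h8 : ∀ o ∈ Ω, -(w o * (Real.log 2 + Real.log K1)) - (if A o then w o else 0) * Real.log K2
      ≤ w o * Real.log (if A o then (2 * K2)⁻¹ else (2 * K1)⁻¹) := by
    intro o ho
    have l1 := mul_nonneg (hw o ho).le (Real.log_nonneg hK1)
    by_cases ha : A o
    · rw [if_pos ha, if_pos ha, Real.log_inv, Real.log_mul two_ne_zero p2.ne']; linarith
    · rw [if_neg ha, if_neg ha, Real.log_inv, Real.log_mul two_ne_zero p1.ne']; linarith
  have h9 := sum_le_sum h8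
  rw [sum_sub_distrib, sum_neg_distrib, ← sum_mul, ← sum_mul, h1] at h9
  linarith

open Classical in
lemma ent_coll (hw : ∀ o ∈ Ω, 0 < w o) (h1 : ∑ o ∈ Ω, w o = 1) (X : ι → α) (G : ι → β)
    (Z : ι → γ) (hZ : Det Ω Z G) {K1 K2 : ℝ} (p1 : 0 < K1) (p2 : 0 < K2)
    (hA : ∀ o0 ∈ Ω, Code Ω (fun o => G o = G o0) X K1)
    (hB : ∀ o0 ∈ Ω, Code Ω (fun o => Z o = Z o0) X K2) :
    ent Ω w X ≤ ent Ω w G + Real.log 2 + Real.log K1
      - (∑ o ∈ Ω, w o * (pr Ω w Z o / pr Ω w G o)) * (Real.log K1 - Real.log K2) := by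
  have r0 : ∀ o ∈ Ω, 0 < pr Ω w Z o / pr Ω w G o :=
    fun o ho => div_pos (pr_pos hw Z ho) (pr_pos hw G ho)
  have r1 : ∀ o ∈ Ω, pr Ω w Z o / pr Ω w G o ≤ 1 :=
    fun o ho => (div_le_one (pr_pos hw G ho)).2 (pr_mono hw hZ ho)
  have hq : ∀ o ∈ Ω, 0 < (1 - pr Ω w Z o / pr Ω w G o) * K1⁻¹ + pr Ω w Z o / pr Ω w G o * K2⁻¹ := by
    intro o ho
    have := r0 o ho
    have h2 : 0 ≤ 1 - pr Ω w Z o / pr Ω w G o := sub_nonneg.2 (r1 o ho)
    positivity
  have h2 := gibbs hw h1 X G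
    (fun o => ((1 - pr Ω w Z o / pr Ω w G o) * K1⁻¹ + pr Ω w Z o / pr Ω w G o * K2⁻¹) / 2)
    (fun o ho => half_pos (hq o ho)) (fun o0 ho0 => by
      have h3 := code_sum hw (hA o0 ho0)
      have h4 := swap_bound hw X Z G (fun o => G o = G o0) o0 K2
        (fun o ho o' ho' hb hy => (hZ o' ho' o ho hy).trans hb)
        (fun o' ho' => code_sum hw ((hB o' ho').mono (B' := fun o => G o = G o0 ∧ Z o' = Z o)
          fun o _ h => h.2.symm))
      have hg := pr_pos hw G ho0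
      have e : ∀ o ∈ Ω, (if G o = G o0 then w o / pr Ω w X o *
            (((1 - pr Ω w Z o / pr Ω w G o) * K1⁻¹ + pr Ω w Z o / pr Ω w G o * K2⁻¹) / 2) else 0)
          ≤ (if G o = G o0 then w o / pr Ω w X o else 0) * (2 * K1)⁻¹
            + (if G o = G o0 then w o / pr Ω w X o * pr Ω w Z o else 0)
              * (2 * (K2 * pr Ω w G o0))⁻¹ := by
        intro o ho
        have h5 : 0 ≤ w o / pr Ω w X o := div_nonneg (hw o ho).le (pr_pos hw X ho).le
        by_cases hy : G o = G o0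
        · rw [if_pos hy, if_pos hy, if_pos hy, ← pr_congr G hy]
          have h6 := r0 o ho
          have h7 := pr_pos hw G ho
          have e3 : w o / pr Ω w X o * (2 * K1)⁻¹ + w o / pr Ω w X o * pr Ω w Z o
              * (2 * (K2 * pr Ω w G o))⁻¹ = w o / pr Ω w X o *
              ((1 * K1⁻¹ + pr Ω w Z o / pr Ω w G o * K2⁻¹) / 2) := by
            field_simp
          rw [e3]
          refine mul_le_mul_of_nonneg_left ?_ h5
          have : (1 - pr Ω w Z o / pr Ω w G o) * K1⁻¹ ≤ 1 * K1⁻¹ :=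
            mul_le_mul_of_nonneg_right (by linarith) (by positivity)
          linarith
        · simp [hy]
      refine (sum_le_sum e).trans ?_
      rw [sum_add_distrib, ← sum_mul, ← sum_mul]
      have h6 := mul_le_mul_of_nonneg_right h3 (by positivity : 0 ≤ (2 * K1)⁻¹)
      have h7 := mul_le_mul_of_nonneg_right h4 (by positivity : 0 ≤ (2 * (K2 * pr Ω w G o0))⁻¹)
      have e1 : K1 * (2 * K1)⁻¹ = 1 / 2 := by field_simp
      have e2 : K2 * pr Ω w G o0 * (2 * (K2 * pr Ω w G o0))⁻¹ = 1 / 2 := by field_simp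
      linarith)
  have h8 : ∀ o ∈ Ω, -(w o * (Real.log 2 + Real.log K1))
      + w o * (pr Ω w Z o / pr Ω w G o) * (Real.log K1 - Real.log K2)
      ≤ w o * Real.log (((1 - pr Ω w Z o / pr Ω w G o) * K1⁻¹
        + pr Ω w Z o / pr Ω w G o * K2⁻¹) / 2) := by
    intro o ho
    have h9 := strictConcaveOn_log_Ioi.concaveOn.2 (Set.mem_Ioi.2 (inv_pos.2 p1))
      (Set.mem_Ioi.2 (inv_pos.2 p2)) (sub_nonneg.2 (r1 o ho)) (r0 o ho).le (by ring)
    simp only [smul_eq_mul, Real.log_inv] at h9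
    rw [Real.log_div (hq o ho).ne' two_ne_zero]
    have h10 := mul_le_mul_of_nonneg_left h9 (hw o ho).le
    linarith
  have h9 := sum_le_sum h8
  rw [sum_add_distrib, sum_neg_distrib, ← sum_mul, ← sum_mul, h1] at h9
  linarith

end Pool.Agent.MP_3792c7_nt.Sub
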