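import Mathlib
import Pool.Agent.MP_3792c7_nt.SubEnt

/-! Conditionally independent copies and the two-direction inequality. -/

namespace Pool.Agent.MP_3792c7_nt.Sub

open Finset

variable {ι α β γ δ ζ η : Type} {Ω : Finset ι} {w : ι → ℝ}

open Classical in
/-- Pairs with the same value of G. -/
noncomputable def pairs (Ω : Finset ι) (G : ι → β) : Finset (ι × ι) :=
  (Ω ×ˢ Ω).filter (fun a => G a.1 = G a.2)

/-- Weight of a pair. -/
noncomputable def pw (Ω : Finset ι) (w : ι → ℝ) (G : ι → β) (a : ι × ι) : ℝ :=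
  w a.1 * w a.2 / pr Ω w G a.1

open Classical in
lemma mem_pairs {G : ι → β} {a : ι × ι} :
    a ∈ pairs Ω G ↔ a.1 ∈ Ω ∧ a.2 ∈ Ω ∧ G a.1 = G a.2 := by
  unfold pairs
  rw [mem_filter, mem_product, and_assoc]

open Classical in
lemma sum_pairs (G : ι → β) (F : ι × ι → ℝ) :
    ∑ a ∈ pairs Ω G, F a = ∑ o ∈ Ω, ∑ o' ∈ Ω, if G o = G o' then F (o, o') else 0 := by
  unfold pairs
  rw [sum_filter, sum_product]

lemma pw_pos (hw : ∀ o ∈ Ω, 0 < w o) (G : ι → β) : ∀ a ∈ pairs Ω G, 0 < pw Ω w G a := by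
  intro a ha
  obtain ⟨h1, h2, -⟩ := mem_pairs.1 ha
  exact div_pos (mul_pos (hw _ h1) (hw _ h2)) (pr_pos hw G h1)

lemma sum_fst (hw : ∀ o ∈ Ω, 0 < w o) (G : ι → β) (f : ι → ℝ) :
    ∑ a ∈ pairs Ω G, pw Ω w G a * f a.1 = ∑ o ∈ Ω, w o * f o := by
  classical
  rw [sum_pairs]
  refine sum_congr rfl fun o ho => ?_
  have hp := pr_pos hw G ho
  have e : ∀ o' ∈ Ω, (if G o = G o' then pw Ω w G (o, o') * f (o, o').1 else 0)
      = w o * f o / pr Ω w G o * (if G o' = G o then w o' else 0) := by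
    intro o' _
    by_cases h : G o = G o'
    · rw [if_pos h, if_pos h.symm]; unfold pw; ring
    · rw [if_neg h, if_neg (Ne.symm h)]; simp
  rw [sum_congr rfl e, ← mul_sum]
  exact div_mul_cancel₀ _ hp.ne'

lemma sum_snd (hw : ∀ o ∈ Ω, 0 < w o) (G : ι → β) (f : ι → ℝ) :
    ∑ a ∈ pairs Ω G, pw Ω w G a * f a.2 = ∑ o ∈ Ω, w o * f o := by
  classical
  rw [sum_pairs, sum_comm]
  refine sum_congr rfl fun o ho => ?_
  have hp := pr_pos hw G ho
  have e : ∀ o' ∈ Ω, (if G o' = G o then pw Ω w G (o', o) * f (o', o).2 else 0)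
      = w o * f o / pr Ω w G o * (if G o' = G o then w o' else 0) := by
    intro o' _
    by_cases h : G o' = G o
    · rw [if_pos h, if_pos h]; unfold pw; rw [pr_congr G h]; ring
    · rw [if_neg h, if_neg h]; simp
  rw [sum_congr rfl e, ← mul_sum]
  exact div_mul_cancel₀ _ hp.ne'

lemma pw_sum (hw : ∀ o ∈ Ω, 0 < w o) (h1 : ∑ o ∈ Ω, w o = 1) (G : ι → β) :
    ∑ a ∈ pairs Ω G, pw Ω w G a = 1 := by
  have := sum_fst hw G (fun _ => 1)
  simpa [h1] using this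

lemma pr_fst (hw : ∀ o ∈ Ω, 0 < w o) (G : ι → β) (X : ι → α) (a : ι × ι) :
    pr (pairs Ω G) (pw Ω w G) (fun b => X b.1) a = pr Ω w X a.1 := by
  classical
  have := sum_fst hw G (fun o => if X o = X a.1 then 1 else 0)
  simp only [mul_ite, mul_one, mul_zero] at this
  exact this

lemma pr_snd (hw : ∀ o ∈ Ω, 0 < w o) (G : ι → β) (X : ι → α) (a : ι × ι) :
    pr (pairs Ω G) (pw Ω w G) (fun b => X b.2) a = pr Ω w X a.2 := by
  classical
  have := sum_snd hw G (fun o => if X o = X a.2 then 1 else 0)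
  simp only [mul_ite, mul_one, mul_zero] at this
  exact this

lemma ent_fst (hw : ∀ o ∈ Ω, 0 < w o) (G : ι → β) (X : ι → α) :
    ent (pairs Ω G) (pw Ω w G) (fun b => X b.1) = ent Ω w X := by
  unfold ent
  rw [← sum_fst hw G (fun o => Real.log (pr Ω w X o))]
  simp only [pr_fst hw]

lemma ent_snd (hw : ∀ o ∈ Ω, 0 < w o) (G : ι → β) (X : ι → α) :
    ent (pairs Ω G) (pw Ω w G) (fun b => X b.2) = ent Ω w X := by
  unfold ent
  rw [← sum_snd hw G (fun o => Real.log (pr Ω w X o))]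
  simp only [pr_snd hw]

open Classical in
lemma pr_both (hw : ∀ o ∈ Ω, 0 < w o) (G : ι → β) (X : ι → α) (hX : Det Ω X G) (a : ι × ι)
    (ha : a ∈ pairs Ω G) :
    pr (pairs Ω G) (pw Ω w G) (fun b => (X b.1, X b.2)) a
      ≤ pr Ω w X a.1 * pr Ω w X a.2 / pr Ω w G a.1 := by
  obtain ⟨h1, h2, -⟩ := mem_pairs.1 ha
  have hp := pr_pos hw G h1
  have e : pr Ω w X a.1 * pr Ω w X a.2 / pr Ω w G a.1 = ∑ o ∈ Ω, ∑ o' ∈ Ω,
      (if X o = X a.1 then w o else 0) * (if X o' = X a.2 then w o' else 0) / pr Ω w G a.1 := by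
    generalize pr Ω w G a.1 = t
    unfold pr
    rw [sum_mul_sum, sum_div]
    exact sum_congr rfl fun o _ => by rw [sum_div]
  rw [e]
  conv_lhs => unfold pr
  rw [sum_pairs]
  refine sum_le_sum fun o ho => sum_le_sum fun o' ho' => ?_
  have p1 := hw o ho
  have p2 := hw o' ho'
  by_cases c1 : X o = X a.1 ∧ X o' = X a.2
  · rw [if_pos c1.1, if_pos c1.2]
    split_ifs
    · unfold pw; rw [pr_congr G (hX o ho a.1 h1 c1.1)]
    · positivity
    · positivity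
  · have c2 : ¬ (X (o, o').1, X (o, o').2) = (X a.1, X a.2) := fun h => c1 (Prod.mk.inj h)
    rw [if_neg c2, ite_self]
    refine div_nonneg (mul_nonneg ?_ ?_) hp.le <;> split_ifs <;> positivity

lemma ent_both (hw : ∀ o ∈ Ω, 0 < w o) (G : ι → β) (X : ι → α) (hX : Det Ω X G) :
    2 * ent Ω w X - ent Ω w G ≤ ent (pairs Ω G) (pw Ω w G) (fun b => (X b.1, X b.2)) := by
  have h2 : ∀ a ∈ pairs Ω G, pw Ω w G a *
      Real.log (pr (pairs Ω G) (pw Ω w G) (fun b => (X b.1, X b.2)) a) ≤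
      pw Ω w G a * Real.log (pr Ω w X a.1) + pw Ω w G a * Real.log (pr Ω w X a.2)
        - pw Ω w G a * Real.log (pr Ω w G a.1) := by
    intro a ha
    obtain ⟨h1, h2, -⟩ := mem_pairs.1 ha
    have h3 := Real.log_le_log (pr_pos (pw_pos hw G) _ ha) (pr_both hw G X hX a ha)
    have p1 := pr_pos hw X h1
    have p2 := pr_pos hw X h2
    rw [Real.log_div (mul_pos p1 p2).ne' (pr_pos hw G h1).ne', Real.log_mul p1.ne' p2.ne'] at h3
    have h4 := mul_le_mul_of_nonneg_left h3 (pw_pos hw G a ha).le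
    linarith
  have h3 := sum_le_sum h2
  rw [sum_sub_distrib, sum_add_distrib, sum_fst hw G (fun o => Real.log (pr Ω w X o)),
    sum_snd hw G (fun o => Real.log (pr Ω w X o)),
    sum_fst hw G (fun o => Real.log (pr Ω w G o))] at h3
  unfold ent
  linarith

open Classical in
lemma coll_le (hw : ∀ o ∈ Ω, 0 < w o) (G : ι → β) (Z : ι → γ) :
    ∑ a ∈ pairs Ω G, (if Z a.1 = Z a.2 then pw Ω w G a else 0)
      ≤ ∑ o ∈ Ω, w o * (pr Ω w Z o / pr Ω w G o) := by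
  rw [sum_pairs]
  refine sum_le_sum fun o ho => ?_
  have hp := pr_pos hw G ho
  have e : w o * (pr Ω w Z o / pr Ω w G o)
      = ∑ o' ∈ Ω, w o / pr Ω w G o * (if Z o' = Z o then w o' else 0) := by
    rw [← mul_sum]
    generalize pr Ω w G o = t
    unfold pr
    ring
  rw [e]
  refine sum_le_sum fun o' ho' => ?_
  have p1 := hw o ho
  have p2 := hw o' ho'
  by_cases c : Z o = Z o'
  · rw [if_pos c, if_pos c.symm]
    split_ifs
    · unfold pw; exact le_of_eq (by ring)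
    · positivity
  · rw [if_neg c, if_neg (Ne.symm c)]; simp

lemma two_dir (hw : ∀ o ∈ Ω, 0 < w o) (h1 : ∑ o ∈ Ω, w o = 1) (G : ι → β) (X : ι → α)
    (P : ι → γ) (Q : ι → δ) (U : ι → ζ) (Z : ι → η)
    (hXG : Det Ω X G) (hGP : Det Ω G P) (hQU : Det Ω Q U)
    (hGU : ∀ o ∈ Ω, ∀ o' ∈ Ω, G o = G o' → U o = U o' → X o = X o')
    {K1 K2 : ℝ} (hK1 : 1 ≤ K1) (hK2 : 1 ≤ K2)
    (hA : ∀ a0 : ι × ι, Code (pairs Ω G)
      (fun a => (Q a.1, Q a.2) = (Q a0.1, Q a0.2) ∧ ¬ Z a.1 = Z a.2) (fun a => P a.1) K1)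
    (hB : ∀ a0 : ι × ι, Code (pairs Ω G)
      (fun a => (Q a.1, Q a.2) = (Q a0.1, Q a0.2)) (fun a => P a.1) K2) :
    ent Ω w P + 2 * ent Ω w X - 2 * ent Ω w G ≤ 2 * ent Ω w Q + Real.log 2 + Real.log K1
      + (∑ o ∈ Ω, w o * (pr Ω w Z o / pr Ω w G o)) * Real.log K2 := by
  classical
  have hw2 := pw_pos hw G
  have h12 := pw_sum hw h1 G
  have up : ∀ (B : ι × ι → Prop) (a0 : ι × ι) (K : ℝ),
      (∀ a, B a → (Q a.1, Q a.2) = (Q a0.1, Q a0.2)) → Code (pairs Ω G) B (fun a => P a.1) K →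
      Code (pairs Ω G) B (fun a => (P a.1, U a.1, U a.2)) K := by
    rintro B a0 K hBQ ⟨D, f, S, c1, c2, c3⟩
    refine ⟨D, f, S, c1, c2, fun a ha b hb h h' hf => ?_⟩
    obtain ⟨a1, a2, -⟩ := mem_pairs.1 ha
    obtain ⟨b1, b2, -⟩ := mem_pairs.1 hb
    have e := Prod.mk.inj ((hBQ a h).trans (hBQ b h').symm)
    exact Prod.ext (c3 a ha b hb h h' hf) (Prod.ext (hQU _ a1 _ b1 e.1) (hQU _ a2 _ b2 e.2))
  have s1 := ent_two hw2 h12 (fun a => (P a.1, U a.1, U a.2)) (fun a => (Q a.1, Q a.2))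
    (fun a => Z a.1 = Z a.2) hK1 hK2 (fun a0 _ => up _ a0 _ (fun _ h => h.1) (hA a0))
    (fun a0 _ => up _ a0 _ (fun _ h => h) (hB a0))
  have s2 := submod hw2 h12 (fun a => (Q a.1, Q a.2)) (fun a => Q a.1) (fun a => Q a.2)
    (fun _ => ()) (fun _ _ _ _ _ => rfl) (fun _ _ _ _ _ => rfl)
    (fun a _ b _ h h' => Prod.ext h h')
  rw [ent_const h12, ent_fst hw, ent_snd hw] at s2
  have s3 := submod hw2 h12 (fun a => (X a.1, X a.2)) (fun a => G a.1)
    (fun a => (P a.1, U a.1, U a.2)) (fun a => P a.1)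
    (fun a ha b hb h => hGP _ (mem_pairs.1 ha).1 _ (mem_pairs.1 hb).1 h)
    (fun a _ b _ h => (Prod.mk.inj h).1)
    (fun a ha b hb h h' => by
      obtain ⟨a1, a2, a3⟩ := mem_pairs.1 ha
      obtain ⟨b1, b2, b3⟩ := mem_pairs.1 hb
      have e := Prod.mk.inj (Prod.mk.inj h').2
      exact Prod.ext (hGU _ a1 _ b1 h e.1) (hGU _ a2 _ b2 (a3.symm.trans (h.trans b3)) e.2))
  rw [ent_fst hw, ent_fst hw] at s3
  have s4 := ent_both hw G X hXG
  have s5 := mul_le_mul_of_nonneg_right (coll_le hw G Z) (Real.log_nonneg hK2)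
  linarith

lemma ent_unif (hΩ : Ω.Nonempty) :
    Real.log #Ω ≤ ent Ω (fun _ => (#Ω : ℝ)⁻¹) (fun o => o) := by
  classical
  have hpos : (0 : ℝ) < #Ω := by exact_mod_cast hΩ.card_pos
  have e : ∀ o ∈ Ω, (#Ω : ℝ)⁻¹ * Real.log (pr Ω (fun _ => (#Ω : ℝ)⁻¹) (fun o => o) o)
      = (#Ω : ℝ)⁻¹ * (-Real.log #Ω) := by
    intro o ho
    unfold pr
    rw [sum_ite_eq' Ω o, if_pos ho, Real.log_inv]
  unfold ent
  rw [sum_congr rfl e, sum_const, nsmul_eq_mul, ← mul_assoc, mul_inv_cancel₀ hpos.ne']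
  simp

end Pool.Agent.MP_3792c7_nt.Sub
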