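import Mathlib
import Pool.Agent.MP_3792c7_nt.SubPair
import Pool.Agent.MP_3792c7_nt.SubFib

/-! The entropy inequality at one scale. -/

namespace Pool.Agent.MP_3792c7_nt.Sub

open Finset Pool.Agent.MP_3792c7_nt.Null

variable {p : ℕ} [hp : Fact p.Prime]

/-- Class modulo the open unit ball. -/
def cls (x : ℚ_[p]) : Set ℚ_[p] := {y | ‖y - x‖ < 1}

lemma cls_eq {x y : ℚ_[p]} : cls x = cls y ↔ ‖x - y‖ < 1 := by
  constructor
  · intro h
    have h1 : x ∈ cls x := by simp [cls]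
    rw [h] at h1
    exact h1
  · intro h
    ext u
    simp only [cls, Set.mem_ofPred_eq]
    constructor
    · intro h1
      have := lt_add h1 h
      rwa [sub_add_sub_cancel] at this
    · intro h1
      have := lt_sub h1 h
      rwa [sub_sub_sub_cancel_right] at this

lemma He_split (e l m : ℕ) :
    He p e m = He p e (p ^ l * (m / p ^ l)) + T p e l (m / p ^ l) (m % p ^ l) := by
  unfold T
  rw [Nat.div_add_mod]; ring

lemma unif_pos (F : Finset ℕ) : ∀ o ∈ F, 0 < (fun _ : ℕ => (#F : ℝ)⁻¹) o := by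
  intro o ho
  have : (0 : ℝ) < #F := by exact_mod_cast card_pos.2 ⟨o, ho⟩
  exact inv_pos.2 this

lemma unif_sum {F : Finset ℕ} (hF : F.Nonempty) : ∑ o ∈ F, (fun _ : ℕ => (#F : ℝ)⁻¹) o = 1 := by
  have : (0 : ℝ) < #F := by exact_mod_cast hF.card_pos
  rw [sum_const, nsmul_eq_mul, mul_inv_cancel₀ this.ne']

lemma NN_pos (e l : ℕ) : (0 : ℝ) < NN p e l := by exact_mod_cast one_le_NN (p := p) e l

lemma step1 (e l : ℕ) (F : Finset ℕ) (z : ℚ_[p]) (hF : F.Nonempty)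
    (hz : ∀ m ∈ F, ‖He p e m - z‖ < 1) :
    ent F (fun _ => (#F : ℝ)⁻¹) (fun m => m % p ^ (l + e * l)) ≤
      ent F (fun _ => (#F : ℝ)⁻¹)
        (fun m => (m / p ^ l % p ^ (e * l), cls (He p e (p ^ l * (m / p ^ l)))))
      + Real.log (NN p e l) := by
  have hP : 0 < p ^ l := pow_pos hp.out.pos l
  refine ent_le_add_log (unif_pos F) (unif_sum hF) _ _ (NN_pos e l) fun o0 _ => ?_
  refine ⟨ℕ, fun m => p ^ l * (o0 / p ^ l) + m % p ^ l, fib p e l (o0 / p ^ l) z,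
    by exact_mod_cast card_fib_le _ _ _ _, fun m hm h => ?_, fun m _ m' _ h h' hf => ?_⟩
  · obtain ⟨h1, h2⟩ := Prod.mk.inj h
    have hu := Nat.mod_lt m hP
    rw [mem_fib]
    refine ⟨by rw [Nat.mul_add_div hP, Nat.div_eq_of_lt hu, add_zero], ?_⟩
    have h3 := loc e l (m / p ^ l) (o0 / p ^ l) (m % p ^ l) hu h1
    have h4 := lt_sub (lt_add (hz m hm) h3) (cls_eq.1 h2)
    rw [He_split e l m] at h4
    have e1 : He p e (p ^ l * (o0 / p ^ l) + m % p ^ l) - z =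
      He p e (p ^ l * (m / p ^ l)) + T p e l (m / p ^ l) (m % p ^ l) - z
        + (T p e l (o0 / p ^ l) (m % p ^ l) - T p e l (m / p ^ l) (m % p ^ l))
        - (He p e (p ^ l * (m / p ^ l)) - He p e (p ^ l * (o0 / p ^ l))) := by
      unfold T; ring
    rw [e1]; exact h4
  · have h1 := (Prod.mk.inj (h.trans h'.symm)).1
    have h2 : m % p ^ l = m' % p ^ l := by simpa using hf
    simp only
    rw [pow_add, Nat.mod_mul, Nat.mod_mul, h1, h2]

lemma step3 (e l : ℕ) (F : Finset ℕ) (z : ℚ_[p]) (hF : F.Nonempty)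
    (hz : ∀ m ∈ F, ‖He p e m - z‖ < 1) :
    Real.log #F + ent F (fun _ => (#F : ℝ)⁻¹)
        (fun m => (m / p ^ l % p ^ (e * l), cls (He p e (p ^ l * (m / p ^ l)))))
      ≤ ent F (fun _ => (#F : ℝ)⁻¹) (fun m => m / p ^ l)
        + ent F (fun _ => (#F : ℝ)⁻¹) (fun m => m % p ^ (l + e * l)) := by
  have hP : 0 < p ^ l := pow_pos hp.out.pos l
  have hm : ∀ m m' : ℕ, m % p ^ (l + e * l) = m' % p ^ (l + e * l) → m % p ^ l = m' % p ^ l :=
    fun m m' h => Nat.ModEq.of_dvd (pow_dvd_pow p (by omega)) h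
  have h1 := submod (unif_pos F) (unif_sum hF) (fun m => m) (fun m => m / p ^ l)
    (fun m => m % p ^ (l + e * l))
    (fun m => (m / p ^ l % p ^ (e * l), cls (He p e (p ^ l * (m / p ^ l)))))
    (fun m _ m' _ h => by simp only at h ⊢; rw [h])
    (fun m hm1 m' hm2 h => by
      simp only at h ⊢
      have h2 := hm m m' h
      have h3 : m / p ^ l % p ^ (e * l) = m' / p ^ l % p ^ (e * l) := by
        rw [← Nat.mod_mul_right_div_self, ← Nat.mod_mul_right_div_self, ← pow_add, h]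
      refine Prod.ext h3 (cls_eq.2 ?_)
      have h4 := loc e l (m / p ^ l) (m' / p ^ l) (m % p ^ l) (Nat.mod_lt m hP) h3
      have h5 := lt_add (lt_sub (hz m hm1) (hz m' hm2)) h4
      rw [He_split e l m, He_split e l m', ← h2] at h5
      have e1 : He p e (p ^ l * (m / p ^ l)) - He p e (p ^ l * (m' / p ^ l)) =
        He p e (p ^ l * (m / p ^ l)) + T p e l (m / p ^ l) (m % p ^ l) - z
          - (He p e (p ^ l * (m' / p ^ l)) + T p e l (m' / p ^ l) (m % p ^ l) - z)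
          + (T p e l (m' / p ^ l) (m % p ^ l) - T p e l (m / p ^ l) (m % p ^ l)) := by ring
      rw [e1]; exact h5)
    (fun m _ m' _ h h' => by
      rw [← Nat.div_add_mod m (p ^ l), ← Nat.div_add_mod m' (p ^ l), h, hm m m' h'])
  have h2 := ent_unif hF
  linarith

lemma T_mid (e a m : ℕ) : T p e (a + a) (m / p ^ (a + a)) (p ^ a * (m / p ^ a % p ^ a))
    = He p e (p ^ a * (m / p ^ a)) - He p e (p ^ (a + a) * (m / p ^ (a + a))) := by
  unfold T
  rw [pow_add, ← Nat.div_div_eq_div_mul, mul_assoc, ← mul_add, Nat.div_add_mod]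

lemma mid_lt (a m : ℕ) : p ^ a * (m / p ^ a % p ^ a) < p ^ (a + a) := by
  have hP : 0 < p ^ a := pow_pos hp.out.pos a
  rw [pow_add]
  exact Nat.mul_lt_mul_of_pos_left (Nat.mod_lt _ hP) hP

lemma same_P {e : ℕ} (he : 1 ≤ e) (a m m' : ℕ)
    (hQ : (m / p ^ a % p ^ (e * a), cls (He p e (p ^ a * (m / p ^ a))))
      = (m' / p ^ a % p ^ (e * a), cls (He p e (p ^ a * (m' / p ^ a)))))
    (hG : m / p ^ (a + a) % p ^ (e * (a + a)) = m' / p ^ (a + a) % p ^ (e * (a + a))) :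
    (m / p ^ (a + a) % p ^ (e * (a + a)), cls (He p e (p ^ (a + a) * (m / p ^ (a + a)))))
      = (m' / p ^ (a + a) % p ^ (e * (a + a)),
        cls (He p e (p ^ (a + a) * (m' / p ^ (a + a))))) := by
  obtain ⟨h1, h2⟩ := Prod.mk.inj hQ
  have h3 : m / p ^ a % p ^ a = m' / p ^ a % p ^ a :=
    Nat.ModEq.of_dvd (pow_dvd_pow p (Nat.le_mul_of_pos_left a he)) h1
  refine Prod.ext hG (cls_eq.2 ?_)
  have h4 := loc e (a + a) _ _ _ (mid_lt (p := p) a m) hG
  rw [T_mid] at h4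
  rw [h3, T_mid] at h4
  have h5 := lt_add (cls_eq.1 h2) h4
  have e1 : He p e (p ^ (a + a) * (m / p ^ (a + a))) - He p e (p ^ (a + a) * (m' / p ^ (a + a)))
      = He p e (p ^ a * (m / p ^ a)) - He p e (p ^ a * (m' / p ^ a))
        + (He p e (p ^ a * (m' / p ^ a)) - He p e (p ^ (a + a) * (m' / p ^ (a + a)))
          - (He p e (p ^ a * (m / p ^ a)) - He p e (p ^ (a + a) * (m / p ^ (a + a))))) := by ring
  rw [e1]; exact h5

lemma step2 {e : ℕ} (he1 : 1 ≤ e) (he : ¬ p ∣ e) (a b c : ℕ) (hab : a = b + c) (F : Finset ℕ)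
    (hF : F.Nonempty) :
    ent F (fun _ => (#F : ℝ)⁻¹) (fun m => (m / p ^ (a + a) % p ^ (e * (a + a)),
        cls (He p e (p ^ (a + a) * (m / p ^ (a + a))))))
      + 2 * ent F (fun _ => (#F : ℝ)⁻¹) (fun m => m / p ^ a)
      - 2 * ent F (fun _ => (#F : ℝ)⁻¹) (fun m => m / p ^ (a + a))
    ≤ 2 * ent F (fun _ => (#F : ℝ)⁻¹)
        (fun m => (m / p ^ a % p ^ (e * a), cls (He p e (p ^ a * (m / p ^ a)))))
      + Real.log 2 + Real.log ((p : ℝ) ^ ((e + 1) * b) * (p : ℝ) ^ ((e + 1) * b))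
      + (∑ o ∈ F, (#F : ℝ)⁻¹ * (pr F (fun _ => (#F : ℝ)⁻¹)
          (fun m => (m / p ^ (a + a), cls (He p (e + 1) (m / p ^ (a + c))))) o /
          pr F (fun _ => (#F : ℝ)⁻¹) (fun m => m / p ^ (a + a)) o))
        * Real.log ((p : ℝ) ^ (e * (a + a))) := by
  have hp1 := one_lt_p (p := p)
  have hP : 0 < p ^ a := pow_pos hp.out.pos a
  have hdd : ∀ m : ℕ, m / p ^ (a + a) = m / p ^ a / p ^ a := fun m => by
    rw [Nat.div_div_eq_div_mul, ← pow_add]
  refine two_dir (unif_pos F) (unif_sum hF) (fun m => m / p ^ (a + a)) (fun m => m / p ^ a) _ _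
    (fun m => m / p ^ a % p ^ a) _ (fun m _ m' _ h => ?_) (fun m _ m' _ h => ?_)
    (fun m _ m' _ h => ?_) (fun m _ m' _ h h' => ?_)
    (one_le_mul_of_one_le_of_one_le (one_le_pow₀ hp1.le) (one_le_pow₀ hp1.le))
    (one_le_pow₀ hp1.le) (fun a0 => ?_) (fun a0 => ?_)
  · simp only at h ⊢; rw [hdd, hdd, h]
  · simp only at h ⊢; rw [h]
  · exact Nat.ModEq.of_dvd (pow_dvd_pow p (Nat.le_mul_of_pos_left a he1)) (Prod.mk.inj h).1
  · rw [hdd, hdd] at h
    rw [← Nat.div_add_mod (m / p ^ a) (p ^ a), ← Nat.div_add_mod (m' / p ^ a) (p ^ a), h, h']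
  · refine ⟨ℕ × ℕ, fun x => (x.1 / p ^ (a + a) % p ^ ((e + 1) * b),
        x.1 / p ^ (a + a) % p ^ (e * (a + a)) / p ^ (e * (a + a) - (e + 1) * b)),
      range (p ^ ((e + 1) * b)) ×ˢ range (p ^ ((e + 1) * b)), by simp, fun x _ _ => ?_,
      fun x hx y hy h h' hf => ?_⟩
    · refine mem_product.2 ⟨mem_range.2 (Nat.mod_lt _ (pow_pos hp.out.pos _)), mem_range.2 ?_⟩
      apply Nat.div_lt_of_lt_mul
      rw [← pow_add]
      exact lt_of_lt_of_le (Nat.mod_lt _ (pow_pos hp.out.pos _))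
        (Nat.pow_le_pow_right hp.out.pos (by omega))
    · obtain ⟨q1, q2⟩ := Prod.mk.inj (h.1.trans h'.1.symm)
      obtain ⟨f1, f2⟩ := Prod.mk.inj hf
      have gx := (mem_pairs.1 hx).2.2
      have gy := (mem_pairs.1 hy).2.2
      refine same_P he1 a x.1 y.1 q1 ?_
      have u1 : x.1 / p ^ a % p ^ a = y.1 / p ^ a % p ^ a :=
        Nat.ModEq.of_dvd (pow_dvd_pow p (Nat.le_mul_of_pos_left a he1)) (Prod.mk.inj q1).1
      have u2 : x.2 / p ^ a % p ^ a = y.2 / p ^ a % p ^ a :=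
        Nat.ModEq.of_dvd (pow_dvd_pow p (Nat.le_mul_of_pos_left a he1)) (Prod.mk.inj q2).1
      have haa : b + (a + c) = a + a := by omega
      have key : ∀ m : ℕ, (p ^ (a + a) * (m / p ^ (a + a)) + p ^ a * (m / p ^ a % p ^ a))
          / p ^ (a + c) = m / p ^ (a + c) := by
        intro m
        rw [hdd, pow_add, mul_assoc, ← mul_add, Nat.div_add_mod, pow_add,
          Nat.mul_div_mul_left _ _ hP, Nat.div_div_eq_div_mul]
      have h5 := transv he b (a + c) (x.1 / p ^ (a + a)) (y.1 / p ^ (a + a))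
        (p ^ a * (x.1 / p ^ a % p ^ a)) (p ^ a * (x.2 / p ^ a % p ^ a))
        (by rw [haa]; exact mid_lt a _) (by rw [haa]; exact mid_lt a _) f1
        (by
          rw [haa, key, gx, key]
          intro hh
          exact h.2 (Prod.ext gx (cls_eq.2 hh)))
        (by
          rw [haa]
          have t1 := T_mid (p := p) e a x.1
          have t2 := T_mid (p := p) e a x.2
          have t3 := T_mid (p := p) e a y.1
          have t4 := T_mid (p := p) e a y.2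
          rw [← gx] at t2
          rw [← gy, ← u2] at t4
          rw [← u1] at t3
          rw [t1, t2, t3, t4]
          have h6 := lt_sub (cls_eq.1 (Prod.mk.inj q2).2) (cls_eq.1 (Prod.mk.inj q1).2)
          have e1 : ∀ A B C D E G : ℚ_[p], A - E - (B - E) - (C - G - (D - G))
              = D - B - (C - A) := by intros; ring
          rw [e1]; exact h6)
      rw [haa] at h5
      have hdv : p ^ (e * (a + a) - (e + 1) * b) ∣ p ^ (e * (a + a)) := pow_dvd_pow p (by omega)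
      rw [← Nat.div_add_mod (x.1 / p ^ (a + a) % p ^ (e * (a + a)))
          (p ^ (e * (a + a) - (e + 1) * b)),
        ← Nat.div_add_mod (y.1 / p ^ (a + a) % p ^ (e * (a + a)))
          (p ^ (e * (a + a) - (e + 1) * b)), f2, Nat.mod_mod_of_dvd _ hdv,
        Nat.mod_mod_of_dvd _ hdv, h5]
  · refine ⟨ℕ, fun x => x.1 / p ^ (a + a) % p ^ (e * (a + a)), range (p ^ (e * (a + a))), by simp,
      fun x _ _ => mem_range.2 (Nat.mod_lt _ (pow_pos hp.out.pos _)), fun x _ y _ h h' hf => ?_⟩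
    exact same_P he1 a x.1 y.1 (Prod.mk.inj (h.trans h'.symm)).1 hf

lemma core {e : ℕ} (he1 : 1 ≤ e) (he : ¬ p ∣ e) (t a b c n : ℕ) (hab : a = b + c) (z : ℚ_[p])
    (F : Finset ℕ) (hFe : F = fib p e (t + (a + a)) n z) (hF : F.Nonempty) {K1 K2 : ℝ}
    (hK1 : (NN p e b : ℝ) ≤ K1) (hK2 : (NN p (e + 1) b : ℝ) ≤ K2) :
    ∃ r : ℝ, ent F (fun _ => (#F : ℝ)⁻¹) (fun m => m % p ^ (a + a + e * (a + a))) ≤
        2 * ent F (fun _ => (#F : ℝ)⁻¹) (fun m => m % p ^ (a + e * a))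
        + Real.log (NN p e (a + a)) - 2 * (Real.log #F - Real.log (NN p e t)) + Real.log 2
        + 2 * ((e + 1) * b) * Real.log p + r * (e * (a + a) * Real.log p) ∧
      Real.log #F - Real.log (NN p e (a + c)) - Real.log (NN p e t)
        ≤ Real.log 2 + Real.log K1 - r * (Real.log K1 - Real.log K2) := by
  have hz : ∀ m ∈ F, ‖He p e m - z‖ < 1 := fun m hm => (mem_fib.1 (hFe ▸ hm)).2
  have haa : a + a = b + (a + c) := by omega
  have hdd : ∀ m : ℕ, m / p ^ (a + c) / p ^ b = m / p ^ (a + a) := fun m => by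
    rw [Nat.div_div_eq_div_mul, ← pow_add, haa, add_comm]
  have s1 := step1 e (a + a) F z hF hz
  have s2 := step2 he1 he a b c hab F hF
  have s3 := step3 e a F z hF hz
  have s4 : ent F (fun _ => (#F : ℝ)⁻¹) (fun m => m / p ^ (a + a)) ≤ Real.log (NN p e t) :=
    ent_le_log (unif_pos F) (unif_sum hF) _ (NN_pos e t)
      ⟨ℕ, fun m => m / p ^ (a + a), fib p e t n ((p : ℚ_[p]) ^ (e * (a + a)) * z),
        by exact_mod_cast card_fib_le _ _ _ _, fun m hm _ => anc_mem he1 (hFe ▸ hm),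
        fun _ _ _ _ _ _ h => h⟩
  have s5 : ent F (fun _ => (#F : ℝ)⁻¹) (fun m => m)
      ≤ ent F (fun _ => (#F : ℝ)⁻¹) (fun m => m / p ^ (a + c)) + Real.log (NN p e (a + c)) :=
    ent_le_add_log (unif_pos F) (unif_sum hF) _ _ (NN_pos e _) fun o0 _ =>
      ⟨ℕ, fun m => m, fib p e (a + c) (o0 / p ^ (a + c)) z,
        by exact_mod_cast card_fib_le _ _ _ _, fun m hm h => mem_fib.2 ⟨h, hz m hm⟩,
        fun _ _ _ _ _ _ h => h⟩
  have s6 := ent_coll (unif_pos F) (unif_sum hF) (fun m => m / p ^ (a + c))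
    (fun m => m / p ^ (a + a))
    (fun m => (m / p ^ (a + a), cls (He p (e + 1) (m / p ^ (a + c)))))
    (fun _ _ _ _ h => (Prod.mk.inj h).1) ((NN_pos e b).trans_le hK1)
    ((NN_pos (e + 1) b).trans_le hK2)
    (fun o0 _ => ⟨ℕ, fun m => m / p ^ (a + c),
      fib p e b (o0 / p ^ (a + a)) ((p : ℚ_[p]) ^ (e * (a + c)) * z),
      le_trans (by exact_mod_cast card_fib_le _ _ _ _) hK1,
      fun m hm h => mem_fib.2 ⟨(hdd m).trans h, anc_close he1 _ m (hz m hm)⟩,
      fun _ _ _ _ _ _ h => h⟩)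
    (fun o0 _ => ⟨ℕ, fun m => m / p ^ (a + c),
      fib p (e + 1) b (o0 / p ^ (a + a)) (He p (e + 1) (o0 / p ^ (a + c))),
      le_trans (by exact_mod_cast card_fib_le _ _ _ _) hK2,
      fun m _ h => mem_fib.2 ⟨(hdd m).trans (Prod.mk.inj h).1, cls_eq.1 (Prod.mk.inj h).2⟩,
      fun _ _ _ _ _ _ h => h⟩)
  have s7 := ent_unif hF
  have hp0 : (p : ℝ) ≠ 0 := by exact_mod_cast hp.out.ne_zero
  rw [Real.log_mul (pow_ne_zero _ hp0) (pow_ne_zero _ hp0), Real.log_pow, Real.log_pow] at s2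
  push_cast at s2
  generalize (∑ o ∈ F, (#F : ℝ)⁻¹ * (pr F (fun _ => (#F : ℝ)⁻¹)
    (fun m => (m / p ^ (a + a), cls (He p (e + 1) (m / p ^ (a + c))))) o /
    pr F (fun _ => (#F : ℝ)⁻¹) (fun m => m / p ^ (a + a)) o)) = r at s2 s6
  exact ⟨r, by linarith only [s1, s2, s3, s4], by linarith only [s4, s5, s6, s7]⟩

end Pool.Agent.MP_3792c7_nt.Sub
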