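import Mathlib
import Pool.Agent.MP_3792c7_nt.SubCore

/-! Subexponential growth of the fibres. -/

namespace Pool.Agent.MP_3792c7_nt.Sub

open Finset Filter Pool.Agent.MP_3792c7_nt.Null

lemma record (f : ℕ → ℝ) {ε : ℝ} (hε : 0 < ε) (h : ∀ L : ℕ, 1 ≤ L → ε * L ≤ f L) (L0 : ℕ) :
    ∃ L, L0 ≤ L ∧ ∀ L' ≤ L, f L' ≤ f L := by
  obtain ⟨N, hN⟩ := exists_nat_gt ((∑ i ∈ range L0, |f i|) / ε)
  obtain ⟨L, hL, hmax⟩ := exists_max_image (range (N + 2)) f ⟨0, by simp⟩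
  refine ⟨L, ?_, fun L' hL' => hmax L' (mem_range.2 (lt_of_le_of_lt hL' (mem_range.1 hL)))⟩
  by_contra hh
  have h1 : |f L| ≤ ∑ i ∈ range L0, |f i| :=
    single_le_sum (f := fun i => |f i|) (fun _ _ => abs_nonneg _) (mem_range.2 (by omega))
  have h2 := hmax (N + 1) (mem_range.2 (by omega))
  have h3 := h (N + 1) (by omega)
  rw [div_lt_iff₀ hε] at hN
  have h4 := le_abs_self (f L)
  push_cast at h3
  linarith

lemma drop {κ ε lam e a b R r l2 B2 B1 u2 uL ut us : ℝ} (hκ : 0 < κ) (hlam : 0 ≤ lam) (he : 0 ≤ e)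
    (hb : 0 ≤ b) (hR : 0 ≤ R) (hab : a = R * b)
    (c1 : 8 * (e + 1) * lam ≤ κ * R) (c2 : 4 * ε * (6 * κ + 8 * e * lam * R) ≤ κ * κ)
    (c3 : 2 * l2 * (κ + 2 * e * lam * R) ≤ κ * κ * a)
    (h1 : B2 ≤ 2 * B1 + u2 - 2 * (uL - ut) + l2 + 2 * ((e + 1) * b) * lam + r * (e * (a + a) * lam))
    (h2 : uL - us - ut ≤ l2 + (κ + ε) * b - r * ((κ + ε) * b - ε * b))
    (h3 : u2 ≤ (κ + ε) * (a + a)) (h4 : us ≤ (κ + ε) * (a + a - b))
    (h5 : (κ - ε) * (a + a) ≤ uL - ut) : B2 ≤ 2 * B1 - κ * a := by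
  have ha : 0 ≤ a := hab ▸ mul_nonneg hR hb
  have k1 : r * κ * b ≤ l2 + 4 * ε * a := by linarith
  have k2 : r * κ * a ≤ R * (l2 + 4 * ε * a) := by
    have := mul_le_mul_of_nonneg_left k1 hR
    calc r * κ * a = R * (r * κ * b) := by rw [hab]; ring
      _ ≤ _ := this
  have k3 := mul_le_mul_of_nonneg_left k2 (by positivity : 0 ≤ 2 * e * lam)
  have k4 : 8 * (e + 1) * lam * b ≤ κ * a := by
    have := mul_le_mul_of_nonneg_right c1 hb
    calc _ ≤ κ * R * b := this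
      _ = _ := by rw [hab]; ring
  have k5 := mul_le_mul_of_nonneg_right c2 ha
  have k6 : B2 - 2 * B1 ≤ -(2 * κ * a) + 6 * ε * a + l2 + κ * a / 4 + r * (2 * e * a * lam) := by
    linarith
  have k7 := mul_le_mul_of_nonneg_left k6 hκ.le
  have k8 : κ * (B2 - 2 * B1) ≤ κ * (-(κ * a)) := by linarith
  have k9 := le_of_mul_le_mul_left k8 hκ
  linarith

variable {p : ℕ} [hp : Fact p.Prime]

lemma step {e : ℕ} (he1 : 1 ≤ e) (he : ¬ p ∣ e)
    (ih : ∀ ε : ℝ, 0 < ε → ∀ᶠ l : ℕ in atTop, Real.log (NN p (e + 1) l) ≤ ε * l) :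
    ∀ ε : ℝ, 0 < ε → ∀ᶠ l : ℕ in atTop, Real.log (NN p e l) ≤ ε * l := by
  have hsub : Subadditive (fun l => Real.log (NN p e l)) := by
    intro a b
    rw [← Real.log_mul (NN_pos e a).ne' (NN_pos e b).ne']
    exact Real.log_le_log (NN_pos e _) (by exact_mod_cast NN_submul he1 a b)
  have hnn : ∀ l, 0 ≤ Real.log (NN p e l) := fun l => Real.log_natCast_nonneg _
  have hbdd : BddBelow (Set.range fun l : ℕ => Real.log (NN p e l) / l) :=
    ⟨0, by rintro _ ⟨l, rfl⟩; exact div_nonneg (hnn l) (Nat.cast_nonneg _)⟩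
  have hup : ∀ ε : ℝ, 0 < ε → ∀ᶠ l : ℕ in atTop, Real.log (NN p e l) ≤ (hsub.lim + ε) * l := by
    intro ε hε
    have h1 := (hsub.tendsto_lim hbdd).eventually (gt_mem_nhds (lt_add_of_pos_right _ hε))
    filter_upwards [h1, eventually_gt_atTop 0] with l h2 h3
    exact (div_le_iff₀ (by exact_mod_cast h3)).1 h2.le
  have hlow : ∀ l : ℕ, 1 ≤ l → hsub.lim * l ≤ Real.log (NN p e l) := by
    intro l hl
    exact (le_div_iff₀ (by exact_mod_cast hl)).1 (hsub.lim_le_div hbdd (by omega))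
  generalize hsub.lim = κ at hup hlow
  rcases le_or_gt κ 0 with hκ | hκ
  · intro ε hε
    filter_upwards [hup ε hε] with l h
    exact h.trans (mul_le_mul_of_nonneg_right (by linarith) (Nat.cast_nonneg _))
  exfalso
  have hlam : 0 < Real.log p := Real.log_pos one_lt_p
  have he0 : (0 : ℝ) ≤ e := Nat.cast_nonneg _
  obtain ⟨R', hR'⟩ := exists_nat_ge (8 * (e + 1) * Real.log p / κ)
  have c1 : 8 * (e + 1) * Real.log p ≤ κ * ((R' + 1 : ℕ) : ℝ) := by
    rw [div_le_iff₀ hκ] at hR'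
    push_cast
    linarith
  have hD : 0 < 6 * κ + 8 * e * Real.log p * ((R' + 1 : ℕ) : ℝ) := by positivity
  obtain ⟨ε, hε, c2⟩ : ∃ ε : ℝ, 0 < ε ∧
      4 * ε * (6 * κ + 8 * e * Real.log p * ((R' + 1 : ℕ) : ℝ)) ≤ κ * κ :=
    ⟨κ * κ / (4 * (6 * κ + 8 * e * Real.log p * ((R' + 1 : ℕ) : ℝ))), by positivity,
      le_of_eq (by field_simp)⟩
  obtain ⟨b1, hb1⟩ := eventually_atTop.1 ((hup ε hε).and (ih ε hε))
  obtain ⟨b2, hb2⟩ := exists_nat_ge
    (2 * Real.log 2 * (κ + 2 * e * Real.log p * ((R' + 1 : ℕ) : ℝ)) / (κ * κ))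
  obtain ⟨M, hM⟩ := exists_nat_gt (2 * ((1 + e) * Real.log p) / κ)
  obtain ⟨b0, hb0⟩ : ∃ b0, b0 = b1 + b2 + 1 := ⟨_, rfl⟩
  obtain ⟨L, hL, hrec⟩ := record (fun l => Real.log (NN p e l) - (κ - ε) * l) hε
    (fun l hl => by have := hlow l hl; linarith) (2 * ((R' + 1) * (2 ^ M * b0)))
  obtain ⟨n, z, hF⟩ := exists_fib (p := p) e L
  have hne : (fib p e L n z).Nonempty := card_pos.1 (hF ▸ one_le_NN e L)
  generalize hFe : fib p e L n z = F at hF hne
  have hstep : ∀ b : ℕ, b0 ≤ b → b ≤ 2 ^ M * b0 →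
      ent F (fun _ => (#F : ℝ)⁻¹)
        (fun m => m % p ^ ((R' + 1) * b + (R' + 1) * b + e * ((R' + 1) * b + (R' + 1) * b)))
      ≤ 2 * ent F (fun _ => (#F : ℝ)⁻¹) (fun m => m % p ^ ((R' + 1) * b + e * ((R' + 1) * b)))
        - κ * (((R' + 1) * b : ℕ) : ℝ) := by
    intro b l1 l2
    obtain ⟨a, ha⟩ : ∃ a, a = (R' + 1) * b := ⟨_, rfl⟩
    rw [← ha]
    have l3 : a ≤ (R' + 1) * (2 ^ M * b0) := ha ▸ Nat.mul_le_mul_left _ l2
    have hab : a = b + R' * b := by rw [ha]; ring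
    obtain ⟨t, ht⟩ : ∃ t, L = t + (a + a) := ⟨L - (a + a), by omega⟩
    have k1 := (hb1 b (by omega)).1
    have k2 := (hb1 b (by omega)).2
    obtain ⟨r, s1, s2⟩ := core he1 he t a b (R' * b) n hab z F (by rw [← hFe, ht]) hne
      (K1 := Real.exp ((κ + ε) * b)) (K2 := Real.exp (ε * b))
      ((Real.log_le_iff_le_exp (NN_pos e b)).1 k1)
      ((Real.log_le_iff_le_exp (NN_pos (e + 1) b)).1 k2)
    rw [Real.log_exp, Real.log_exp] at s2
    rw [hF] at s2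
    have k3 := (hb1 (a + a) (by omega)).1
    have k4 := (hb1 (a + R' * b) (by omega)).1
    have k5 := hrec t (by omega)
    have e1 : (L : ℝ) = t + (a + a) := by rw [ht]; push_cast; ring
    have e2 : ((a + R' * b : ℕ) : ℝ) = a + a - b := by
      have : (a : ℝ) = b + R' * b := by exact_mod_cast hab
      push_cast; linarith
    have e3 : (a : ℝ) = ((R' + 1 : ℕ) : ℝ) * b := by rw [ha]; push_cast; ring
    have e4 : Real.log #F = Real.log (NN p e L) := by rw [hF]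
    rw [e2] at k4
    push_cast at k3
    rw [e1] at k5
    rw [e4] at s1
    have c3 : 2 * Real.log 2 * (κ + 2 * e * Real.log p * ((R' + 1 : ℕ) : ℝ)) ≤ κ * κ * a := by
      rw [div_le_iff₀ (by positivity)] at hb2
      have : (b2 : ℝ) ≤ a := by exact_mod_cast (by omega : b2 ≤ a)
      have := mul_le_mul_of_nonneg_left this (by positivity : 0 ≤ κ * κ)
      linarith
    exact drop hκ hlam.le he0 (Nat.cast_nonneg b) (Nat.cast_nonneg _) e3 c1 c2 c3 s1 s2 k3 k4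
      (by linarith)
  have hiter : ∀ i ≤ M, ent F (fun _ => (#F : ℝ)⁻¹)
      (fun m => m % p ^ ((R' + 1) * (2 ^ i * b0) + e * ((R' + 1) * (2 ^ i * b0))))
      ≤ (((R' + 1) * (2 ^ i * b0) : ℕ) : ℝ) * ((1 + e) * Real.log p - i * κ / 2) := by
    intro i
    induction i with
    | zero =>
      intro _
      refine (ent_le_log (unif_pos F) (unif_sum hne) _
        (K := (p : ℝ) ^ ((R' + 1) * (2 ^ 0 * b0) + e * ((R' + 1) * (2 ^ 0 * b0))))
        (pow_pos (by linarith [one_lt_p (p := p)]) _)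
        ⟨ℕ, fun m => m % p ^ ((R' + 1) * (2 ^ 0 * b0) + e * ((R' + 1) * (2 ^ 0 * b0))),
          range (p ^ ((R' + 1) * (2 ^ 0 * b0) + e * ((R' + 1) * (2 ^ 0 * b0)))), by simp,
          fun m _ _ => mem_range.2 (Nat.mod_lt _ (pow_pos hp.out.pos _)),
          fun _ _ _ _ _ _ h => h⟩).trans (le_of_eq ?_)
      rw [Real.log_pow]; push_cast; ring
    | succ i ih2 =>
      intro hi
      have h1 := ih2 (by omega)
      have h2 := hstep (2 ^ i * b0) (Nat.le_mul_of_pos_left _ (by positivity))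
        (Nat.mul_le_mul_right _ (Nat.pow_le_pow_right (by norm_num) (by omega)))
      have e1 : (R' + 1) * (2 ^ (i + 1) * b0) = (R' + 1) * (2 ^ i * b0) + (R' + 1) * (2 ^ i * b0) := by
        ring
      rw [e1, Nat.cast_add, Nat.cast_succ i]
      generalize (((R' + 1) * (2 ^ i * b0) : ℕ) : ℝ) = A at *
      linarith
  have h1 := (ent_nonneg (unif_pos F) (unif_sum hne) _).trans (hiter M le_rfl)
  have h2 : (0 : ℝ) < (((R' + 1) * (2 ^ M * b0) : ℕ) : ℝ) := by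
    have : 0 < b0 := by omega
    positivity
  have h3 := (mul_nonneg_iff_of_pos_left h2).1 h1
  rw [div_lt_iff₀ hκ] at hM
  linarith

lemma all_orders (k : ℕ) : ∀ e : ℕ, 1 ≤ e → e + k = p - 1 →
    ∀ ε : ℝ, 0 < ε → ∀ᶠ l : ℕ in atTop, Real.log (NN p e l) ≤ ε * l := by
  induction k with
  | zero =>
    intro e _ he ε hε
    refine Eventually.of_forall fun l => ?_
    have h1 := NN_base (p := p) l
    have h2 := one_le_NN (p := p) (p - 1) l
    rw [show e = p - 1 by omega, show NN p (p - 1) l = 1 by omega]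
    simp only [Nat.cast_one, Real.log_one]
    positivity
  | succ k ih =>
    intro e he1 he
    refine step he1 (fun h => ?_) (ih (e + 1) (by omega) (by omega))
    have := Nat.le_of_dvd (by omega) h
    omega

lemma NN_bound {ε : ℝ} (hε : 0 < ε) : ∃ C : ℝ, 0 < C ∧ ∀ l : ℕ, (NN p 1 l : ℝ) ≤ C * ((p : ℝ) ^ l) ^ ε := by
  have hlam : 0 < Real.log p := Real.log_pos one_lt_p
  have hp0 : (0 : ℝ) < p := by linarith [one_lt_p (p := p)]
  obtain ⟨l0, hl0⟩ := eventually_atTop.1 (all_orders (p := p) (p - 2) 1 le_rfl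
    (by have := hp.out.two_le; omega) (Real.log p * ε) (by positivity))
  refine ⟨1 + ∑ i ∈ range l0, (NN p 1 i : ℝ), by positivity, fun l => ?_⟩
  have h1 : (1 : ℝ) ≤ ((p : ℝ) ^ l) ^ ε :=
    Real.one_le_rpow (one_le_pow₀ (one_lt_p (p := p)).le) hε.le
  have h0 : (0 : ℝ) ≤ ∑ i ∈ range l0, (NN p 1 i : ℝ) := by positivity
  rcases lt_or_ge l l0 with h | h
  · have h2 : (NN p 1 l : ℝ) ≤ ∑ i ∈ range l0, (NN p 1 i : ℝ) :=
      single_le_sum (f := fun i => (NN p 1 i : ℝ)) (fun _ _ => Nat.cast_nonneg _) (mem_range.2 h)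
    exact le_trans (by linarith) (le_mul_of_one_le_right (by positivity) h1)
  · have h2 := (Real.log_le_iff_le_exp (NN_pos 1 l)).1 (hl0 l h)
    have e1 : ((p : ℝ) ^ l) ^ ε = Real.exp (Real.log p * ε * l) := by
      rw [Real.rpow_def_of_pos (pow_pos hp0 l), Real.log_pow]; congr 1; ring
    rw [← e1] at h2
    exact h2.trans (le_mul_of_one_le_left (by positivity) (by linarith))

lemma He_one (n : ℕ) : He p 1 n = ((harmonic n : ℚ) : ℚ_[p]) := by
  simp [He, harmonic]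

lemma norm_lt_of_dvd (q : ℚ) (h : (p : ℤ) ∣ q.num) : ‖(q : ℚ_[p])‖ < 1 := by
  have h1 : ¬ p ∣ q.den := by
    intro h2
    have h3 : p ∣ q.num.natAbs := Int.natCast_dvd.1 h
    have h4 := Nat.dvd_gcd h3 h2
    rw [q.reduced] at h4
    exact hp.out.one_lt.ne' (Nat.dvd_one.1 h4)
  rw [Rat.cast_def, norm_div,
    (Padic.norm_natCast_eq_one_iff).2 ((Nat.Prime.coprime_iff_not_dvd hp.out).2 h1), div_one]
  exact Padic.norm_intCast_lt_one_iff.2 h

lemma main {ε : ℝ} (hε : 0 < ε) : ∃ C : ℝ, ∀ x : ℕ, 1 ≤ x →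
    (#{n ∈ Icc 1 x | (p : ℤ) ∣ (harmonic n).num} : ℝ) ≤ C * (x : ℝ) ^ ε := by
  obtain ⟨C, hC, h⟩ := NN_bound (p := p) hε
  have hp0 : (0 : ℝ) < p := by linarith [one_lt_p (p := p)]
  refine ⟨C * (p : ℝ) ^ ε, fun x hx => ?_⟩
  have h1 := Nat.lt_pow_succ_log_self hp.out.one_lt x
  have h2 := Nat.pow_log_le_self p (by omega : x ≠ 0)
  have h3 : #{n ∈ Icc 1 x | (p : ℤ) ∣ (harmonic n).num} ≤ NN p 1 (Nat.log p x).succ := by
    refine le_trans (card_le_card ?_) (card_fib_le 1 _ 0 0)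
    intro n hn
    rw [mem_filter, mem_Icc] at hn
    rw [mem_fib, sub_zero, He_one]
    exact ⟨Nat.div_eq_of_lt (by omega), norm_lt_of_dvd _ hn.2⟩
  have h4 : ((p : ℝ) ^ (Nat.log p x).succ) ^ ε ≤ (p : ℝ) ^ ε * (x : ℝ) ^ ε := by
    rw [← Real.mul_rpow hp0.le (Nat.cast_nonneg _)]
    refine Real.rpow_le_rpow (by positivity) ?_ hε.le
    rw [pow_succ']
    exact mul_le_mul_of_nonneg_left (by exact_mod_cast h2) hp0.le
  calc _ ≤ (NN p 1 (Nat.log p x).succ : ℝ) := by exact_mod_cast h3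
    _ ≤ C * ((p : ℝ) ^ ε * (x : ℝ) ^ ε) := (h _).trans (mul_le_mul_of_nonneg_left h4 hC.le)
    _ = _ := by ring

end Pool.Agent.MP_3792c7_nt.Sub
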