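import Pool.Agent.MP_3792c7_nt.Lin

/-! The zero estimate: a shift-stable space of polynomials in two variables contains a constant of
small degree. -/

set_option autoImplicit false

namespace Pool.Agent.MP_3792c7_nt

open Polynomial

section
variable {K : Type} [Field K]

/-- Twisted translation of `K[Z][Y]`. -/
noncomputable def tr (s : K →+* K) (u v : K) : K[X][X] →+* K[X][X] :=
  (taylorAlgHom (C u : K[X])).toRingHom.comp
    (mapRingHom ((taylorAlgHom v).toRingHom.comp (mapRingHom s)))

theorem tr_apply (s : K →+* K) (u v : K) (f : K[X][X]) :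
    tr s u v f = taylor (C u) (f.map ((taylorAlgHom v).toRingHom.comp (mapRingHom s))) := rfl

theorem tr_C (s : K →+* K) (u v : K) (h : K[X]) :
    tr s u v (C h) = C (taylor v (h.map s)) := by
  rw [tr_apply, map_C, taylor_C]; rfl

theorem tr_X (s : K →+* K) (u v : K) : tr s u v X = X + C (C u) := by
  rw [tr_apply, map_X, taylor_X]

/-- One term of the shifted auxiliary polynomial. -/
noncomputable def term (a u v : K) (b c : ℕ) : K[X][X] :=
  C (C a) * (X + C (C u)) ^ b * C ((X + C v) ^ c)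

theorem tr_term (s : K →+* K) (u' v' a u v : K) (b c : ℕ) :
    tr s u' v' (term a u v b c) = term (s a) (s u + u') (s v + v') b c := by
  unfold term
  rw [map_mul, map_mul, map_pow, map_add, tr_C, tr_C, tr_C, tr_X]
  simp only [map_C, taylor_C, Polynomial.map_pow, Polynomial.map_add, map_X, taylor_pow, map_add,
    taylor_X]
  ring_nf

theorem tr_smul (s : K →+* K) (u v c : K) (f : K[X][X]) :
    tr s u v (c • f) = s c • tr s u v f := by
  have e : ∀ (c : K) (f : K[X][X]), c • f = C (C c) * f := by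
    intro c f
    ext n m
    simp [coeff_C_mul]
  rw [e, e, map_mul, tr_C, map_C, taylor_C]

theorem smul_eq_CC (c : K) (f : K[X][X]) : c • f = C (C c) * f := by
  ext n m
  simp [coeff_C_mul]

theorem natDegree_tr_le (s : K →+* K) (u v : K) (f : K[X][X]) :
    (tr s u v f).natDegree ≤ f.natDegree := by
  rw [tr_apply, natDegree_taylor]; exact natDegree_map_le

theorem tr_coeff_top (u v : K) (f : K[X][X]) (n : ℕ) (h : f.natDegree ≤ n) :
    (tr (RingHom.id K) u v f).coeff n = taylor v (f.coeff n) := by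
  rw [tr_apply, taylor_coeff_top _ _ _ (natDegree_map_le.trans h), coeff_map]
  simp

theorem tr_coeff_sub (u v : K) (f : K[X][X]) (n : ℕ) (h : f.natDegree ≤ n + 1) :
    (tr (RingHom.id K) u v f).coeff n =
      taylor v (f.coeff n) + (n + 1) * taylor v (f.coeff (n + 1)) * C u := by
  rw [tr_apply, taylor_coeff_sub _ _ _ (natDegree_map_le.trans h), coeff_map, coeff_map]
  simp

/-- Polynomials of bidegree below `N`. -/
def box (K : Type) [Field K] (N : ℕ) : Submodule K K[X][X] where
  carrier := {f | ∀ b c, N ≤ b ∨ N ≤ c → (f.coeff b).coeff c = 0}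
  add_mem' := by
    intro f g hf hg b c h
    simp [hf b c h, hg b c h]
  zero_mem' := by intro b c _; simp
  smul_mem' := by
    intro a f hf b c h
    simp [hf b c h]

theorem term_mem_box (N : ℕ) (a u v : K) (b c : ℕ) (hb : b < N) (hc : c < N) :
    term a u v b c ∈ box K N := by
  intro b' c' h
  have e : term a u v b c = ((C a * (X + C u) ^ b).map (C : K →+* K[X])) * C ((X + C v) ^ c) := by
    unfold term; simp
  rw [e, coeff_mul_C, coeff_map, coeff_C_mul]
  rcases h with h | h
  · rw [coeff_C_mul, coeff_X_add_C_pow, Nat.choose_eq_zero_of_lt (by omega)]; simp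
  · rw [coeff_X_add_C_pow, Nat.choose_eq_zero_of_lt (by omega)]; simp

theorem box_natDegree {N : ℕ} (hN : 1 ≤ N) {f : K[X][X]} (hf : f ∈ box K N) :
    f.natDegree < N := by
  have : f.natDegree ≤ N - 1 := by
    rw [natDegree_le_iff_coeff_eq_zero]
    intro n hn
    ext c
    exact hf n c (Or.inl (by omega))
  omega

theorem box_coeff_natDegree {N : ℕ} (hN : 1 ≤ N) {f : K[X][X]} (hf : f ∈ box K N) (b : ℕ) :
    (f.coeff b).natDegree < N := by
  have : (f.coeff b).natDegree ≤ N - 1 := by
    rw [natDegree_le_iff_coeff_eq_zero]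
    intro n hn
    exact hf b n (Or.inr (by omega))
  omega

theorem card_le_of_box {N m : ℕ} (Φ : Fin m → K[X][X]) (h : ∀ j, Φ j ∈ box K N)
    (hli : LinearIndependent K Φ) : m ≤ N ^ 2 := by
  classical
  let g : K[X][X] →ₗ[K] (Fin N × Fin N → K) :=
    LinearMap.pi (fun q => (lcoeff K (q.2 : ℕ)).comp ((lcoeff K[X] (q.1 : ℕ)).restrictScalars K))
  have hli2 : LinearIndependent K (g ∘ Φ) := by
    apply hli.map
    rw [Submodule.disjoint_def]
    intro f hf hg
    have hb : f ∈ box K N := by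
      refine (Submodule.span_le.mpr ?_) hf
      rintro _ ⟨j, rfl⟩; exact h j
    ext b c
    by_cases hbc : N ≤ b ∨ N ≤ c
    · simpa using hb b c hbc
    · push Not at hbc
      have := congrFun (LinearMap.mem_ker.mp hg) (⟨b, hbc.1⟩, ⟨c, hbc.2⟩)
      simpa [g] using this
  have := hli2.fintype_card_le_finrank
  simpa [sq] using this

theorem exists_stable {N : ℕ} (Φ : ℕ → K[X][X]) (h : ∀ j, Φ j ∈ box K N) :
    ∃ m, m ≤ N ^ 2 ∧ LinearIndependent K (fun j : Fin m => Φ j) ∧
      Φ m ∈ Submodule.span K (Set.range (fun j : Fin m => Φ j)) := by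
  classical
  have key : ∀ m, (∀ i < m, Φ i ∉ Submodule.span K (Set.range (fun j : Fin i => Φ j))) →
      LinearIndependent K (fun j : Fin m => Φ j) := by
    intro m
    induction m with
    | zero => intro _; exact linearIndependent_empty_type
    | succ m ih =>
      intro hm
      rw [linearIndependent_finSucc']
      exact ⟨ih (fun i hi => hm i (by omega)), hm m (by omega)⟩
  have hex : ∃ m, Φ m ∈ Submodule.span K (Set.range (fun j : Fin m => Φ j)) := by
    by_contra hc
    push Not at hc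
    have := card_le_of_box (fun j : Fin (N ^ 2 + 1) => Φ j) (fun j => h j)
      (key _ (fun i _ => hc i))
    omega
  have hli := key (Nat.find hex) (fun i hi => Nat.find_min hex hi)
  exact ⟨Nat.find hex, card_le_of_box _ (fun j => h j) hli, hli, Nat.find_spec hex⟩

end

theorem zero_est {F K : Type} [Field F] [Field K] (p : ℕ) [CharP K p] [CharP F p]
    (φ : F[X] →+* K) (hφ : Function.Injective φ) (N G : ℕ) (hN : 1 ≤ N) (hNp : N ≤ p)
    (hG : (N ^ 2 + 1) * G < p)
    (Φ : ℕ → K[X][X]) (hbox : ∀ j, Φ j ∈ box K N) (h0 : Φ 0 ≠ 0)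
    (s : K →+* K) (u1 v1 : K) (hs : ∀ j, tr s u1 v1 (Φ j) = Φ (j + 1))
    (u v : K) (hp : ∀ j, tr (RingHom.id K) u v (Φ j) = Φ (j + p))
    (hv : v ≠ 0) (huv : u = -(φ (X ^ p - X)) * v)
    (P : ℕ → F[X][X][X]) (w : ℕ → K) (hw : ∀ j < N ^ 2, w j ≠ 0)
    (hP : ∀ j, (P j).map (mapRingHom φ) = w j • Φ j)
    (hPd : ∀ j < N ^ 2, ∀ b c, (((P j).coeff b).coeff c).natDegree ≤ G) :
    ∃ (m : ℕ) (c : Fin m → F[X]) (W : F[X]), m ≤ N ^ 2 ∧ W ≠ 0 ∧
      W.natDegree ≤ (N ^ 2 + 1) * G ∧ ∑ j, C (C (c j)) * P j = C (C W) := by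
  classical
  obtain ⟨m, hm, hli, hmem⟩ := exists_stable Φ hbox
  let U : Submodule K K[X][X] := Submodule.span K (Set.range (fun j : Fin m => Φ j))
  have hσ : ∀ f ∈ U, tr s u1 v1 f ∈ U := by
    intro f hf
    refine Submodule.span_induction (p := fun f _ => tr s u1 v1 f ∈ U) ?_ ?_ ?_ ?_ hf
    · rintro _ ⟨j, rfl⟩
      rw [hs]
      by_cases hj : (j : ℕ) + 1 < m
      · exact Submodule.subset_span ⟨⟨j + 1, hj⟩, rfl⟩
      · have : (j : ℕ) + 1 = m := by have := j.2; omega
        rw [this]; exact hmem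
    · simp
    · intro x y _ _ hx hy
      rw [map_add]; exact U.add_mem hx hy
    · intro a x _ hx
      rw [tr_smul]; exact U.smul_mem _ hx
  have hall : ∀ j, Φ j ∈ U := by
    intro j
    induction j with
    | zero =>
      by_cases hm0 : 0 < m
      · exact Submodule.subset_span ⟨⟨0, hm0⟩, rfl⟩
      · have : m = 0 := by omega
        subst this; exact hmem
    | succ j ih => rw [← hs]; exact hσ _ ih
  have hτ : ∀ f ∈ U, tr (RingHom.id K) u v f ∈ U := by
    intro f hf
    refine Submodule.span_induction (p := fun f _ => tr (RingHom.id K) u v f ∈ U) ?_ ?_ ?_ ?_ hf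
    · rintro _ ⟨j, rfl⟩
      rw [hp]; exact hall _
    · simp
    · intro x y _ _ hx hy
      rw [map_add]; exact U.add_mem hx hy
    · intro a x _ hx
      rw [tr_smul]; exact U.smul_mem _ hx
  have hUbox : U ≤ box K N := by
    refine Submodule.span_le.mpr ?_
    rintro _ ⟨j, rfl⟩; exact hbox j
  -- minimal leading index
  have ex1 : ∃ β, ∃ f ∈ U, f ≠ 0 ∧ f.natDegree = β := ⟨_, Φ 0, hall 0, h0, rfl⟩
  let β := Nat.find ex1
  have hβ : ∀ f ∈ U, f ≠ 0 → β ≤ f.natDegree := fun f hf h => Nat.find_min' ex1 ⟨f, hf, h, rfl⟩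
  have ex2 : ∃ γ, ∃ f ∈ U, f ≠ 0 ∧ f.natDegree = β ∧ (f.coeff β).natDegree = γ := by
    obtain ⟨f, hf, h, e⟩ := Nat.find_spec ex1
    exact ⟨_, f, hf, h, e, rfl⟩
  let γ := Nat.find ex2
  have hγ : ∀ f ∈ U, f ≠ 0 → f.natDegree = β → γ ≤ (f.coeff β).natDegree :=
    fun f hf h e => Nat.find_min' ex2 ⟨f, hf, h, e, rfl⟩
  obtain ⟨f0, hf0U, hf0, hf0β, hf0γ⟩ := Nat.find_spec ex2
  obtain ⟨l, hl⟩ := (Submodule.mem_span_range_iff_exists_fun K).mp hf0U
  have hwm : ∀ j : Fin m, w j ≠ 0 := fun j => hw j (lt_of_lt_of_le j.2 hm)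
  have hPc : ∀ j b c, φ (((P j).coeff b).coeff c) = w j * ((Φ j).coeff b).coeff c := by
    intro j b c
    have := congrArg (fun f => (f.coeff b).coeff c) (hP j)
    simpa [coeff_map] using this
  obtain ⟨c, hc0, hcd, hck⟩ := bounded_kernel φ hφ m G
    (fun (j : Fin m) (i : {q : ℕ × ℕ // β < q.1 ∨ (q.1 = β ∧ γ < q.2)}) =>
      ((P j).coeff i.1.1).coeff i.1.2)
    (fun j i => hPd j (lt_of_lt_of_le j.2 hm) _ _) (fun j => l j * (w j)⁻¹)
    (by
      intro h
      apply hf0
      rw [← hl]
      refine Finset.sum_eq_zero (fun j _ => ?_)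
      have := congrFun h j
      simp only [Pi.zero_apply, mul_eq_zero, inv_eq_zero] at this
      rw [this.resolve_right (hwm j), zero_smul])
    (by
      rintro ⟨⟨b, c⟩, hbc⟩
      have e1 : ∑ j : Fin m, l j * (w j)⁻¹ * φ (((P j).coeff b).coeff c) =
          (f0.coeff b).coeff c := by
        rw [← hl, finsetSum_coeff, finsetSum_coeff]
        refine Finset.sum_congr rfl (fun j _ => ?_)
        rw [hPc, coeff_smul, coeff_smul, smul_eq_mul]
        field_simp [hwm j]
      simp only
      rw [e1]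
      rcases hbc with h | ⟨h1, h2⟩
      · rw [coeff_eq_zero_of_natDegree_lt (p := f0) (by rw [hf0β]; exact h)]; simp
      · simp only at h1 h2
        rw [h1]; exact coeff_eq_zero_of_natDegree_lt (by rw [hf0γ]; exact h2))
  let f1 : F[X][X][X] := ∑ j, C (C (c j)) * P j
  have hf1c : ∀ b d, (f1.coeff b).coeff d = ∑ j : Fin m, c j * ((P j).coeff b).coeff d := by
    intro b d
    simp [f1, finsetSum_coeff, coeff_C_mul]
  have hf1d : ∀ b d, ((f1.coeff b).coeff d).natDegree ≤ (N ^ 2 + 1) * G := by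
    intro b d
    rw [hf1c]
    refine natDegree_sum_le_of_forall_le _ _ (fun j _ => ?_)
    refine natDegree_mul_le.trans ?_
    have h1 := hcd j
    have h2 := hPd j (lt_of_lt_of_le j.2 hm) b d
    have h3 : m * G ≤ N ^ 2 * G := Nat.mul_le_mul_right _ hm
    rw [add_mul]; omega
  let f : K[X][X] := f1.map (mapRingHom φ)
  have hfc : ∀ b d, (f.coeff b).coeff d = φ ((f1.coeff b).coeff d) := by
    intro b d; simp [f, coeff_map]
  have hfe : f = ∑ j : Fin m, (φ (c j) * w j) • Φ j := by
    simp only [f, f1, Polynomial.map_sum, Polynomial.map_mul, map_C, hP]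
    refine Finset.sum_congr rfl (fun j _ => ?_)
    rw [mul_smul, smul_eq_CC (φ (c j))]; simp
  have hfU : f ∈ U := by
    rw [hfe]
    exact U.sum_mem (fun j _ => U.smul_mem _ (hall j))
  have hf0' : f ≠ 0 := by
    intro h
    apply hc0
    funext j
    have := Fintype.linearIndependent_iff.mp hli (fun j => φ (c j) * w j) (by rw [← hfe, h]) j
    simp only [mul_eq_zero] at this
    apply hφ
    simpa using this.resolve_right (hwm j)
  have hkill : ∀ b d, (β < b ∨ (b = β ∧ γ < d)) → (f.coeff b).coeff d = 0 := by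
    intro b d h
    rw [hfc, hf1c, hck ⟨(b, d), h⟩, map_zero]
  have hfβ : f.natDegree = β := by
    apply le_antisymm _ (hβ f hfU hf0')
    rw [natDegree_le_iff_coeff_eq_zero]
    intro n hn
    ext d
    exact hkill n d (Or.inl hn)
  have hfγ : (f.coeff β).natDegree ≤ γ := by
    rw [natDegree_le_iff_coeff_eq_zero]
    intro n hn
    exact hkill β n (Or.inr ⟨rfl, hn⟩)
  have hlc : f.coeff β ≠ 0 := by
    rw [← hfβ]; exact mt leadingCoeff_eq_zero.mp hf0'
  let g := tr (RingHom.id K) u v f - f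
  have hgU : g ∈ U := U.sub_mem (hτ f hfU) hfU
  have hgd : g.natDegree ≤ β := by
    refine (natDegree_sub_le _ _).trans (max_le ?_ hfβ.le)
    exact (natDegree_tr_le _ _ _ _).trans hfβ.le
  have hgβ : g.coeff β = taylor v (f.coeff β) - f.coeff β := by
    simp only [g, coeff_sub]
    rw [tr_coeff_top _ _ _ _ hfβ.le]
  have hgβ0 : g.coeff β = 0 := by
    by_contra hne
    have hg0 : g ≠ 0 := by intro h; apply hne; rw [h]; simp
    have h1 := hγ g hgU hg0 (le_antisymm hgd (hβ g hgU hg0))
    have h2 : (g.coeff β).degree < (f.coeff β).degree := by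
      rw [hgβ, ← degree_taylor (f.coeff β) v]
      exact degree_sub_lt_left (degree_taylor _ _) (by rwa [Ne, taylor_eq_zero])
        (leadingCoeff_taylor _ _)
    have h3 := natDegree_lt_natDegree hne h2
    omega
  have hg0 : g = 0 := by
    by_contra hne
    have h1 : g.natDegree = β := le_antisymm hgd (hβ g hgU hne)
    apply hne
    rw [← leadingCoeff_eq_zero, leadingCoeff, h1, hgβ0]
  have hcd' : ∀ b, (f.coeff b).natDegree < p :=
    fun b => lt_of_lt_of_le (box_coeff_natDegree hN (hUbox hfU) b) hNp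
  have h1 := affine_of_taylor p (f.coeff β) (hcd' β) v 0 hv (by rw [← hgβ, hgβ0]; simp)
  have hconst : f.coeff β = C ((f.coeff β).coeff 0) := by
    apply eq_C_of_natDegree_le_zero
    rw [natDegree_le_iff_coeff_eq_zero]
    intro n hn
    by_cases hn1 : n = 1
    · rw [hn1]; exact (mul_eq_zero.mp h1.2).resolve_right hv
    · exact coeff_eq_zero_of_natDegree_lt (by omega)
  have hr0 : (f1.coeff β).coeff 0 ≠ 0 := by
    intro h
    apply hlc
    rw [hconst, hfc, h]; simp
  have hβ0 : β = 0 := by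
    by_contra hne
    obtain ⟨n, hn⟩ : ∃ n, β = n + 1 := ⟨β - 1, by omega⟩
    have h2 := congrArg (fun q => q.coeff n) hg0
    simp only [g, coeff_sub, coeff_zero] at h2
    rw [tr_coeff_sub _ _ _ _ (by rw [hfβ, hn]), ← hn, hconst, taylor_C] at h2
    have h3 := affine_of_taylor p (f.coeff n) (hcd' n) v
      (-((n + 1 : K) * (f.coeff β).coeff 0 * u)) hv (by
        simp only [map_neg, map_mul, map_add, map_natCast, map_one]
        linear_combination h2)
    have h4 : (f.coeff n).coeff 1 = (n + 1 : K) * (f.coeff β).coeff 0 * φ (X ^ p - X) := by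
      apply mul_right_cancel₀ hv
      rw [h3.2, huv]; ring
    have h5 : (f1.coeff n).coeff 1 = C (n + 1 : F) * (f1.coeff β).coeff 0 * (X ^ p - X) := by
      apply hφ
      rw [← hfc, h4, hfc]
      simp
    have hβp : n + 1 < p := by
      have := box_natDegree hN (hUbox hfU)
      omega
    have h6 : (n + 1 : F) ≠ 0 := by
      have : ((n + 1 : ℕ) : F) ≠ 0 := by
        rw [Ne, CharP.cast_eq_zero_iff F p]
        exact Nat.not_dvd_of_pos_of_lt (by omega) hβp
      simpa using this
    have h7 : (X ^ p - X : F[X]).natDegree = p := by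
      rw [natDegree_sub_eq_left_of_natDegree_lt] <;> simp
      omega
    have h8 : (X ^ p - X : F[X]) ≠ 0 := by
      intro h; rw [h] at h7; simp at h7; omega
    have h9 := hf1d n 1
    rw [h5, natDegree_mul (mul_ne_zero (C_ne_zero.mpr h6) hr0) h8, h7] at h9
    omega
  refine ⟨m, c, (f1.coeff β).coeff 0, hm, hr0, hf1d _ _, ?_⟩
  have hinj : Function.Injective (fun q : F[X][X][X] => q.map (mapRingHom φ)) :=
    map_injective _ (map_injective _ hφ)
  apply hinj
  show f = _
  rw [eq_C_of_natDegree_eq_zero (hfβ.trans hβ0)]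
  simp only [map_C, coe_mapRingHom]
  rw [← hfc, ← hconst, hβ0]

end Pool.Agent.MP_3792c7_nt
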